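import Pool.Agent.RGD.Stmts

/-!
# MP_0a3593_al, module ANTI: anti-concentration of `dlt`
-/

set_option autoImplicit false

namespace RGD

namespace ANTI

open Finset

variable {m : ℕ}

/-! ### Lists -/

lemma hsum_eq (x y y' d : Ltr m) (M : List (Ltr m)) :
    hsum x y y' M = ∑ j ∈ range (M.length - 1), hh x y y' (M.getD j d) (M.getD (j + 1) d) := by
  induction M with
  | nil => simp [hsum]
  | cons a M ih =>
    cases M with
    | nil => simp [hsum]
    | cons b M =>
      have h1 : (a :: b :: M).length - 1 = ((b :: M).length - 1) + 1 := by simp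
      rw [h1, sum_range_succ', hsum, ih, add_comm]
      simp

lemma hsum_split (x y y' c : Ltr m) (A B : List (Ltr m)) :
    hsum x y y' (A ++ c :: B) = hsum x y y' (A ++ [c]) + hsum x y y' (c :: B) := by
  induction A with
  | nil => simp [hsum]
  | cons a A ih =>
    cases A with
    | nil =>
      simp [hsum]
    | cons b A =>
      simp only [List.cons_append, hsum] at ih ⊢
      rw [ih]
      ring

lemma redL_iff (d : Ltr m) (M : List (Ltr m)) :
    RedL M ↔ ∀ j, j + 1 < M.length → M.getD (j + 1) d ≠ linv (M.getD j d) := by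
  unfold RedL
  rw [List.isChain_iff_getElem]
  constructor
  · intro h j hj
    have := h j hj
    rw [List.getD_eq_getElem _ _ hj, List.getD_eq_getElem _ _ (by omega)]
    exact this
  · intro h j hj
    have := h j hj
    rw [List.getD_eq_getElem _ _ hj, List.getD_eq_getElem _ _ (by omega)] at this
    exact this

lemma redL_append (A B : List (Ltr m)) (c : Ltr m) (hA : RedL (A ++ [c])) (hB : RedL (c :: B)) :
    RedL (A ++ c :: B) := by
  unfold RedL at *
  rw [List.isChain_append] at hA ⊢
  refine ⟨hA.1, hB, ?_⟩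
  intro u hu v hv
  exact hA.2.2 u hu v (by simpa using hv)

lemma linv_linv (a : Ltr m) : linv (linv a) = a := by
  simp [linv]

lemma exists_ne_two (hm : 2 ≤ m) (a b : Ltr m) : ∃ s : Ltr m, s ≠ a ∧ s ≠ b := by
  have h3 : ({a, b} : Finset (Ltr m)).card < Fintype.card (Ltr m) := by
    have h1 := Finset.card_le_two (a := a) (b := b)
    have h2 : Fintype.card (Ltr m) = m * 2 := by simp [Ltr]
    omega
  obtain ⟨s, _, hs⟩ := Finset.exists_mem_notMem_of_card_lt_card
    (s := ({a, b} : Finset (Ltr m))) (t := Finset.univ) (by rwa [Finset.card_univ])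
  refine ⟨s, ?_, ?_⟩
  · intro h; exact hs (by simp [h])
  · intro h; exact hs (by simp [h])

/-! ### Fillings -/

/-- the filling `g` with its two separators -/
def gx {L : ℕ} (a : Ltr m) (g : Fin L → Ltr m) (b : Ltr m) (j : ℕ) : Ltr m :=
  if j = 0 then a else if h : j - 1 < L then g ⟨j - 1, h⟩ else b

/-- admissible fillings -/
def EE (L : ℕ) (a b : Ltr m) : Finset (Fin L → Ltr m) := by
  classical
  exact univ.filter fun g => ∀ j, j < L + 1 → gx a g b (j + 1) ≠ linv (gx a g b j)

lemma mem_EE {L : ℕ} {a b : Ltr m} {g : Fin L → Ltr m} :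
    g ∈ EE L a b ↔ ∀ j, j < L + 1 → gx a g b (j + 1) ≠ linv (gx a g b j) := by
  unfold EE
  simp

/-- the contribution of a filling -/
def FF {L : ℕ} (x y y' a b : Ltr m) (g : Fin L → Ltr m) : ℤ :=
  ∑ j ∈ range (L + 1), hh x y y' (gx a g b j) (gx a g b (j + 1))

/-- the filling given by a list -/
def fil (d : Ltr m) (L : ℕ) (M : List (Ltr m)) : Fin L → Ltr m := fun t => M.getD t d

lemma gx_fil (d a b : Ltr m) (M : List (Ltr m)) (j : ℕ) (hj : j < M.length + 2) :
    gx a (fil d M.length M) b j = (a :: M ++ [b]).getD j d := by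
  unfold gx fil
  rcases j with _ | j
  · simp
  · rw [if_neg (by omega)]
    by_cases h : j < M.length
    · rw [dif_pos (by omega)]
      rw [List.cons_append, List.getD_cons_succ, List.getD_append _ _ _ _ h]
      simp
    · rw [dif_neg (by omega)]
      have : j = M.length := by omega
      subst this
      rw [List.cons_append, List.getD_cons_succ, List.getD_append_right _ _ _ _ le_rfl]
      simp

lemma fil_mem (d a b : Ltr m) (M : List (Ltr m)) (h : RedL (a :: M ++ [b])) :
    fil d M.length M ∈ EE M.length a b := by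
  rw [mem_EE]
  intro j hj
  rw [gx_fil d a b M j (by omega), gx_fil d a b M (j + 1) (by omega)]
  exact (redL_iff d _).1 h j (by simp; omega)

lemma fil_FF (x y y' d a b : Ltr m) (M : List (Ltr m)) :
    FF x y y' a b (fil d M.length M) = hsum x y y' (a :: M ++ [b]) := by
  unfold FF
  rw [hsum_eq x y y' d]
  have : (a :: M ++ [b]).length - 1 = M.length + 1 := by simp
  rw [this]
  refine sum_congr rfl fun j hj => ?_
  rw [mem_range] at hj
  rw [gx_fil d a b M j (by omega), gx_fil d a b M (j + 1) (by omega)]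

/-- for any separators there are two admissible fillings with different contributions -/
lemma two_fillings (hm : 2 ≤ m) (x y y' : Ltr m) {p q : Ltr m} {U V : List (Ltr m)}
    (hl : U.length = V.length) (hU : RedL (p :: U ++ [q])) (hV : RedL (p :: V ++ [q]))
    (hne : hsum x y y' (p :: U ++ [q]) ≠ hsum x y y' (p :: V ++ [q])) (a b : Ltr m) :
    ∃ u v : Fin (U.length + 4) → Ltr m, u ∈ EE (U.length + 4) a b ∧ v ∈ EE (U.length + 4) a b ∧
      FF x y y' a b u ≠ FF x y y' a b v := by
  obtain ⟨s, hs1, hs2⟩ := exists_ne_two hm (linv a) (linv p)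
  obtain ⟨s', hs1', hs2'⟩ := exists_ne_two hm (linv q) (linv b)
  have hp : p ≠ linv s := by
    intro h; apply hs2; rw [h, linv_linv]
  have hb : b ≠ linv s' := by
    intro h; apply hs2'; rw [h, linv_linv]
  have key : ∀ W : List (Ltr m), RedL (p :: W ++ [q]) →
      RedL (a :: (s :: p :: W ++ [q, s']) ++ [b]) ∧
      hsum x y y' (a :: (s :: p :: W ++ [q, s']) ++ [b]) =
        hh x y y' a s + hh x y y' s p + hsum x y y' (p :: W ++ [q]) + hh x y y' q s' +
          hh x y y' s' b := by
    intro W hW
    have e1 : a :: (s :: p :: W ++ [q, s']) ++ [b] = (a :: s :: p :: W) ++ q :: [s', b] := by simp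
    have e2 : (a :: s :: p :: W) ++ [q] = a :: s :: p :: (W ++ [q]) := by simp
    rw [e1]
    constructor
    · apply redL_append
      · rw [e2]
        unfold RedL at *
        rw [List.isChain_cons_cons, List.isChain_cons_cons]
        exact ⟨hs1, hp, hW⟩
      · unfold RedL
        simp [List.isChain_cons_cons, hs1', hb]
    · rw [hsum_split, e2]
      simp only [hsum, List.cons_append]
      ring
  have hlen : ∀ W : List (Ltr m), W.length = U.length →
      (s :: p :: W ++ [q, s']).length = U.length + 4 := by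
    intro W hW
    simp [hW]
  have get : ∀ W : List (Ltr m), W.length = U.length → RedL (p :: W ++ [q]) →
      ∃ u : Fin (U.length + 4) → Ltr m, u ∈ EE (U.length + 4) a b ∧
        FF x y y' a b u = hh x y y' a s + hh x y y' s p + hsum x y y' (p :: W ++ [q]) +
          hh x y y' q s' + hh x y y' s' b := by
    intro W hW hR
    obtain ⟨k1, k2⟩ := key W hR
    have := hlen W hW
    rw [← this]
    exact ⟨fil a _ _, fil_mem a a b _ k1, by rw [fil_FF, k2]⟩
  obtain ⟨u, hu, hu'⟩ := get U rfl hU
  obtain ⟨v, hv, hv'⟩ := get V hl.symm hV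
  refine ⟨u, v, hu, hv, ?_⟩
  rw [hu', hv']
  intro h
  apply hne
  linarith

/-! ### Words and blocks -/

section

variable {l : ℕ} [NeZero l]

lemma rot_eq (i : Fin l) : finRotate l i = Fin.ofNat l (i.val + 1) := by
  obtain ⟨n, rfl⟩ : ∃ n, l = n + 1 := ⟨l - 1, by have := NeZero.ne l; omega⟩
  apply Fin.ext
  rw [finRotate_apply, Fin.val_add]
  simp [Fin.ofNat, Nat.add_mod]

lemma per_val (w : Word m l) (i : Fin l) : per w i.val = w i := by
  unfold per
  congr 1
  apply Fin.ext
  simp [Fin.ofNat, Nat.mod_eq_of_lt i.isLt]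

lemma per_rot (w : Word m l) (i : Fin l) : w (finRotate l i) = per w (i.val + 1) := by
  rw [rot_eq]
  rfl

lemma cyc_iff (w : Word m l) :
    CycRed w ↔ ∀ k, k < l → per w (k + 1) ≠ linv (per w k) := by
  unfold CycRed
  constructor
  · intro h k hk
    have := h ⟨k, hk⟩
    rw [per_rot w ⟨k, hk⟩, ← per_val w ⟨k, hk⟩] at this
    exact this
  · intro h i
    rw [per_rot w i, ← per_val w i]
    exact h i.val i.isLt

lemma dlt_eq (x y y' : Ltr m) (w : Word m l) :
    dlt x y y' w = ∑ k ∈ range l, hh x y y' (per w k) (per w (k + 1)) := by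
  unfold dlt
  rw [← Fin.sum_univ_eq_sum_range fun k => hh x y y' (per w k) (per w (k + 1))]
  refine sum_congr rfl fun i _ => ?_
  rw [per_rot w i, per_val w i]

variable (L B : ℕ)

/-- the word with the blocks erased -/
def out (d : Ltr m) (w : Word m l) : Word m l := fun i =>
  if i.val / (L + 1) < B ∧ i.val % (L + 1) ≠ 0 then d else w i

/-- the blocks of a word -/
def bl (w : Word m l) : Fin B → Fin L → Ltr m := fun b t => per w (b.val * (L + 1) + (t.val + 1))

/-- the word with the letters of `o` outside of the blocks and with the blocks `e` -/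
def comb (o : Word m l) (e : Fin B → Fin L → Ltr m) : Word m l := fun i =>
  if h : i.val / (L + 1) < B ∧ i.val % (L + 1) ≠ 0 then
    e ⟨i.val / (L + 1), h.1⟩ ⟨i.val % (L + 1) - 1, by
      have h1 : i.val % (L + 1) < L + 1 := Nat.mod_lt i.val (Nat.succ_pos L)
      have h2 := h.2
      omega⟩
  else o i

variable {L B}

lemma div_mod_aux {b j : ℕ} (hj : j < L + 1) :
    (b * (L + 1) + j) / (L + 1) = b ∧ (b * (L + 1) + j) % (L + 1) = j := by
  constructor
  · rw [mul_comm, Nat.mul_add_div (Nat.succ_pos L), Nat.div_eq_of_lt hj, add_zero]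
  · rw [mul_comm, Nat.mul_add_mod, Nat.mod_eq_of_lt hj]

omit [NeZero l] in
lemma lt_aux (hB : B * (L + 1) < l) {b j : ℕ} (hb : b < B) (hj : j ≤ L + 1) :
    b * (L + 1) + j < l := by
  have : (b + 1) * (L + 1) ≤ B * (L + 1) := Nat.mul_le_mul_right _ hb
  have h2 : (b + 1) * (L + 1) = b * (L + 1) + (L + 1) := by ring
  omega

lemma comb_bl (d : Ltr m) (w : Word m l) :
    comb L B (out L B d w) (bl L B w) = w := by
  funext i
  unfold comb
  split_ifs with h
  · unfold bl
    dsimp only
    rw [← per_val w i]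
    congr 1
    have h1 := Nat.div_add_mod i.val (L + 1)
    have h2 := h.2
    rw [mul_comm] at h1
    omega
  · unfold out
    rw [if_neg h]

lemma per_comb_block (hB : B * (L + 1) < l) (o : Word m l) (e : Fin B → Fin L → Ltr m)
    (b : Fin B) (j : ℕ) (hj : j ≤ L + 1) :
    per (comb L B o e) (b.val * (L + 1) + j) =
      gx (per o (b.val * (L + 1))) (e b) (per o ((b.val + 1) * (L + 1))) j := by
  have hlt := lt_aux hB b.isLt hj
  have h0 : per (comb L B o e) (b.val * (L + 1) + j) =
      comb L B o e ⟨b.val * (L + 1) + j, hlt⟩ := per_val _ ⟨b.val * (L + 1) + j, hlt⟩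
  rw [h0]
  unfold gx
  rcases Nat.eq_zero_or_pos j with rfl | hpos
  · rw [if_pos rfl]
    unfold comb
    rw [dif_neg]
    · exact (per_val o ⟨b.val * (L + 1) + 0, hlt⟩).symm
    · dsimp only
      rw [(div_mod_aux (b := b.val) (Nat.succ_pos L)).2]
      simp
  · rw [if_neg (by omega)]
    by_cases h : j < L + 1
    · rw [dif_pos (by omega)]
      unfold comb
      obtain ⟨q1, q2⟩ := div_mod_aux (b := b.val) h
      have hc : (⟨b.val * (L + 1) + j, hlt⟩ : Fin l).val / (L + 1) < B ∧
          (⟨b.val * (L + 1) + j, hlt⟩ : Fin l).val % (L + 1) ≠ 0 := by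
        dsimp only
        rw [q1, q2]
        exact ⟨b.isLt, by omega⟩
      rw [dif_pos hc]
      have e1 : (⟨(b.val * (L + 1) + j) / (L + 1), hc.1⟩ : Fin B) = b := Fin.ext q1
      have e2 : ∀ h', (⟨(b.val * (L + 1) + j) % (L + 1) - 1, h'⟩ : Fin L) =
          ⟨j - 1, by omega⟩ := fun h' => Fin.ext (by dsimp only; rw [q2])
      rw [e2]
      exact congrFun (congrArg e e1) _
    · have hj' : j = L + 1 := by omega
      subst hj'
      rw [dif_neg (by omega)]
      unfold comb
      rw [dif_neg]
      · rw [← per_val o ⟨b.val * (L + 1) + (L + 1), hlt⟩]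
        congr 1
        dsimp only
        ring
      · dsimp only
        have : b.val * (L + 1) + (L + 1) = (b.val + 1) * (L + 1) + 0 := by ring
        rw [this, (div_mod_aux (b := b.val + 1) (Nat.succ_pos L)).2]
        simp

lemma per_comb_tail (hB : B * (L + 1) < l) (o : Word m l) (e : Fin B → Fin L → Ltr m) (k : ℕ)
    (h1 : B * (L + 1) ≤ k) (h2 : k ≤ l) : per (comb L B o e) k = per o k := by
  unfold per comb
  rw [dif_neg]
  rintro ⟨h3, h4⟩
  have h5 : (Fin.ofNat l k).val = k % l := rfl
  rw [h5] at h3 h4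
  rcases Nat.lt_or_ge k l with h | h
  · rw [Nat.mod_eq_of_lt h] at h3
    have h6 : k < B * (L + 1) := (Nat.div_lt_iff_lt_mul (Nat.succ_pos L)).1 h3
    omega
  · have : k = l := by omega
    subst this
    simp at h4

lemma bl_comb (hB : B * (L + 1) < l) (o : Word m l) (e : Fin B → Fin L → Ltr m) :
    bl L B (comb L B o e) = e := by
  funext b t
  unfold bl
  rw [per_comb_block hB o e b (t.val + 1) (by omega)]
  unfold gx
  rw [if_neg (by omega), dif_pos (by omega)]
  congr 1

omit [NeZero l] in
lemma out_comb (d : Ltr m) (o : Word m l) (e : Fin B → Fin L → Ltr m) :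
    out L B d (comb L B o e) = out L B d o := by
  funext i
  unfold out
  split_ifs with h
  · rfl
  · unfold comb
    rw [dif_neg h]

omit [NeZero l] in
lemma out_out (d : Ltr m) (w : Word m l) : out L B d (out L B d w) = out L B d w := by
  funext i
  unfold out
  split_ifs <;> rfl

lemma sum_blocks (B N : ℕ) (g : ℕ → ℤ) :
    ∑ k ∈ range (B * N), g k = ∑ b ∈ range B, ∑ j ∈ range N, g (b * N + j) := by
  induction B with
  | zero => simp
  | succ B ih =>
    rw [show (B + 1) * N = B * N + N by ring, sum_range_add, ih, sum_range_succ]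

/-- cyclically reduced words in terms of the blocks -/
lemma cyc_comb (hB : B * (L + 1) < l) (o : Word m l) (e : Fin B → Fin L → Ltr m) :
    CycRed (comb L B o e) ↔ (∀ b : Fin B, e b ∈ EE L (per o (b.val * (L + 1)))
        (per o ((b.val + 1) * (L + 1)))) ∧
      ∀ k, B * (L + 1) ≤ k → k < l → per o (k + 1) ≠ linv (per o k) := by
  rw [cyc_iff]
  constructor
  · intro h
    refine ⟨fun b => ?_, fun k h1 h2 => ?_⟩
    · rw [mem_EE]
      intro j hj
      have h3 := h (b.val * (L + 1) + j) (lt_aux hB b.isLt (by omega))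
      rw [add_assoc, per_comb_block hB o e b (j + 1) (by omega),
        per_comb_block hB o e b j (by omega)] at h3
      exact h3
    · have h3 := h k h2
      rw [per_comb_tail hB o e k h1 (by omega), per_comb_tail hB o e (k + 1) (by omega) (by omega)]
        at h3
      exact h3
  · rintro ⟨h1, h2⟩ k hk
    rcases Nat.lt_or_ge k (B * (L + 1)) with h | h
    · have hb : k / (L + 1) < B := (Nat.div_lt_iff_lt_mul (Nat.succ_pos L)).2 h
      have hj : k % (L + 1) < L + 1 := Nat.mod_lt _ (Nat.succ_pos L)
      have hk' : k = (k / (L + 1)) * (L + 1) + k % (L + 1) := by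
        rw [mul_comm]
        exact (Nat.div_add_mod k (L + 1)).symm
      have h3 := mem_EE.1 (h1 ⟨k / (L + 1), hb⟩) (k % (L + 1)) hj
      have h4 := per_comb_block hB o e ⟨k / (L + 1), hb⟩ (k % (L + 1)) (by omega)
      have h5 := per_comb_block hB o e ⟨k / (L + 1), hb⟩ (k % (L + 1) + 1) (by omega)
      dsimp only at h3 h4 h5
      rw [← hk'] at h4
      rw [← add_assoc, ← hk'] at h5
      rw [h4, h5]
      exact h3
    · rw [per_comb_tail hB o e k h (by omega), per_comb_tail hB o e (k + 1) (by omega) (by omega)]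
      exact h2 k h hk

/-- the sum in terms of the blocks -/
lemma dlt_comb (hB : B * (L + 1) < l) (x y y' : Ltr m) (o : Word m l)
    (e : Fin B → Fin L → Ltr m) :
    dlt x y y' (comb L B o e) = (∑ b : Fin B, FF x y y' (per o (b.val * (L + 1)))
        (per o ((b.val + 1) * (L + 1))) (e b)) +
      ∑ k ∈ Ico (B * (L + 1)) l, hh x y y' (per o k) (per o (k + 1)) := by
  rw [dlt_eq, range_eq_Ico, ← sum_Ico_consecutive _ (Nat.zero_le _) hB.le, ← range_eq_Ico,
    sum_blocks]
  congr 1
  · rw [← Fin.sum_univ_eq_sum_range fun b => ∑ j ∈ range (L + 1),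
      hh x y y' (per (comb L B o e) (b * (L + 1) + j)) (per (comb L B o e) (b * (L + 1) + j + 1))]
    refine sum_congr rfl fun b _ => ?_
    unfold FF
    refine sum_congr rfl fun j hj => ?_
    rw [mem_range] at hj
    rw [add_assoc, per_comb_block hB o e b (j + 1) (by omega),
      per_comb_block hB o e b j (by omega)]
  · refine sum_congr rfl fun k hk => ?_
    rw [mem_Ico] at hk
    rw [per_comb_tail hB o e k hk.1 (by omega),
      per_comb_tail hB o e (k + 1) (by omega) (by omega)]

end

end ANTI

open ANTI Finset in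
theorem t_ANTI : M_ANTI := by
  classical
  intro hUV hLO m x y y' ε hm h1 h2 h3 hε
  obtain ⟨p, q, U, V, hl, hU, hV, hne⟩ := hUV m x y y' hm h1 h2 h3
  obtain ⟨B0, hB0⟩ := hLO (Fintype.card (Fin (U.length + 4) → Ltr m)) ε hε
  set L := U.length + 4 with hL
  refine ⟨B0 * (L + 1) + 1, fun l c hl0 => ?_⟩
  have _ : NeZero l := ⟨by omega⟩
  have hB : B0 * (L + 1) < l := by omega
  -- cardinalities as finsets
  rw [Nat.card_eq_fintype_card, Nat.card_eq_fintype_card, Fintype.card_subtype,
    Fintype.card_subtype]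
  have f1 := card_eq_sum_card_fiberwise (f := out L B0 x)
    (s := univ.filter fun w : Word m l => CycRed w ∧ dlt x y y' w = c) (t := univ)
    (fun _ _ => mem_coe.2 (mem_univ _))
  have f2 := card_eq_sum_card_fiberwise (f := out L B0 x)
    (s := univ.filter fun w : Word m l => CycRed w) (t := univ)
    (fun _ _ => mem_coe.2 (mem_univ _))
  rw [f1, f2]
  push_cast
  rw [mul_sum]
  refine sum_le_sum fun o _ => ?_
  by_cases hemp : ((univ.filter fun w : Word m l => CycRed w ∧ dlt x y y' w = c).filter
      fun w => out L B0 x w = o) = ∅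
  · rw [hemp, card_empty]
    simp only [Nat.cast_zero]
    positivity
  obtain ⟨w0, hw0⟩ := Finset.nonempty_iff_ne_empty.2 hemp
  rw [mem_filter, mem_filter] at hw0
  obtain ⟨⟨_, hc0, hd0⟩, ho⟩ := hw0
  have hoo : out L B0 x o = o := by rw [← ho, out_out]
  have htail : ∀ k, B0 * (L + 1) ≤ k → k < l → per o (k + 1) ≠ linv (per o k) := by
    have := comb_bl (L := L) (B := B0) x w0
    rw [ho] at this
    rw [← this] at hc0
    exact ((cyc_comb hB o _).1 hc0).2
  set E : Fin B0 → Finset (Fin L → Ltr m) := fun b =>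
    EE L (per o (b.val * (L + 1))) (per o ((b.val + 1) * (L + 1))) with hE
  set f : Fin B0 → (Fin L → Ltr m) → ℤ := fun b =>
    FF x y y' (per o (b.val * (L + 1))) (per o ((b.val + 1) * (L + 1))) with hf
  have htwo : ∀ b : Fin B0, ∃ u v : Fin L → Ltr m, u ∈ E b ∧ v ∈ E b ∧ f b u ≠ f b v :=
    fun b => two_fillings hm x y y' hl hU hV hne _ _
  choose u v hu hv huv using htwo
  have hlo := hB0 B0 (Fin L → Ltr m) E f u v le_rfl
    (fun b => ⟨hu b, hv b, (card_le_univ _), huv b⟩)
    (c - ∑ k ∈ Ico (B0 * (L + 1)) l, hh x y y' (per o k) (per o (k + 1)))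
  have hinj : Function.Injective (comb (m := m) (l := l) L B0 o) := by
    intro e e' he
    rw [← bl_comb hB o e, he, bl_comb hB o e']
  have s1 : ((univ.filter fun w : Word m l => CycRed w ∧ dlt x y y' w = c).filter
      fun w => out L B0 x w = o) ⊆ ((Fintype.piFinset E).filter fun e => ∑ i, f i (e i) =
        c - ∑ k ∈ Ico (B0 * (L + 1)) l, hh x y y' (per o k) (per o (k + 1))).image
          (comb L B0 o) := by
    intro w hw
    rw [mem_filter, mem_filter] at hw
    obtain ⟨⟨_, hc, hd⟩, hwo⟩ := hw
    have hw' := comb_bl (L := L) (B := B0) x w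
    rw [hwo] at hw'
    rw [mem_image]
    refine ⟨bl L B0 w, ?_, hw'⟩
    rw [mem_filter, Fintype.mem_piFinset]
    rw [← hw'] at hc hd
    refine ⟨((cyc_comb hB o _).1 hc).1, ?_⟩
    rw [dlt_comb hB] at hd
    rw [← hd]
    simp [hf]
  have s2 : (Fintype.piFinset E).image (comb L B0 o) ⊆
      ((univ.filter fun w : Word m l => CycRed w).filter fun w => out L B0 x w = o) := by
    intro w hw
    rw [mem_image] at hw
    obtain ⟨e, he, rfl⟩ := hw
    rw [Fintype.mem_piFinset] at he
    rw [mem_filter, mem_filter]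
    refine ⟨⟨mem_univ _, (cyc_comb hB o e).2 ⟨he, htail⟩⟩, ?_⟩
    rw [out_comb, hoo]
  calc ((((univ.filter fun w : Word m l => CycRed w ∧ dlt x y y' w = c).filter
      fun w => out L B0 x w = o).card : ℕ) : ℝ)
      ≤ (((Fintype.piFinset E).filter fun e => ∑ i, f i (e i) =
        c - ∑ k ∈ Ico (B0 * (L + 1)) l, hh x y y' (per o k) (per o (k + 1))).card : ℝ) := by
        exact_mod_cast (card_le_card s1).trans card_image_le
    _ ≤ ε * (Fintype.piFinset E).card := hlo
    _ ≤ _ := by
        refine mul_le_mul_of_nonneg_left ?_ hε.le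
        rw [← card_image_of_injective (Fintype.piFinset E) hinj]
        exact_mod_cast card_le_card s2

end RGD
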