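import Pool.Agent.RGD.Stmts

/-!
# AXOV: two axes with a common segment of length `P` coincide
-/

set_option autoImplicit false

namespace RGD

open Pool.Agent.Olsh

namespace AXOV

/-- the letters of the periodic word through a residue -/
theorem perZ_add {m l : ℕ} [NeZero l] (w : Word m l) (s : ℤ) (t : ℕ) :
    perZ w (s + t) = per w ((s % l).toNat + t) := by
  have hl : (0 : ℤ) < l := by
    have := NeZero.pos l
    exact_mod_cast this
  unfold perZ per
  congr 1
  apply Fin.ext
  show ((s + t) % l).toNat % l = ((s % l).toNat + t) % l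
  have h1 : (((s + t) % l).toNat : ℤ) = (s + t) % l := Int.toNat_of_nonneg (Int.emod_nonneg _ hl.ne')
  have h2 : ((s % l).toNat : ℤ) = s % l := Int.toNat_of_nonneg (Int.emod_nonneg _ hl.ne')
  have h3 : ((((s + t) % l).toNat % l : ℕ) : ℤ) = ((((s % l).toNat + t) % l : ℕ) : ℤ) := by
    push_cast
    rw [h1, h2, Int.emod_emod_of_dvd _ (dvd_refl _), Int.emod_add_emod]
  exact_mod_cast h3

theorem resid {l : ℕ} [NeZero l] {s s' : ℤ}
    (h : (s % l).toNat % l = (s' % l).toNat % l) : ∃ k : ℤ, s' = s + k * l := by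
  have hl : (0 : ℤ) < l := by
    have := NeZero.pos l
    exact_mod_cast this
  have h1 : ((s % l).toNat : ℤ) = s % l := Int.toNat_of_nonneg (Int.emod_nonneg _ hl.ne')
  have h2 : ((s' % l).toNat : ℤ) = s' % l := Int.toNat_of_nonneg (Int.emod_nonneg _ hl.ne')
  have h3 : (((s % l).toNat % l : ℕ) : ℤ) = (((s' % l).toNat % l : ℕ) : ℤ) := by rw [h]
  push_cast at h3
  rw [h1, h2, Int.emod_emod_of_dvd _ (dvd_refl _), Int.emod_emod_of_dvd _ (dvd_refl _)] at h3
  obtain ⟨k, hk⟩ := Int.ModEq.dvd (show s ≡ s' [ZMOD l] from h3)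
  exact ⟨k, by linarith [mul_comm (l : ℤ) k]⟩

end AXOV

open AXOV in
theorem t_AXOV : M_AXOV := by
  intro hT hL m l n P _ r hr hSC hP
  obtain ⟨-, -, hiso, -⟩ := hT m
  have A : ∀ (x x' : FreeGroup (Fin m)) (i j : Fin n) (s s' : ℤ),
      (x * line (r i) s = x' * line (r j) s' → x * line (r i) (s + P) = x' * line (r j) (s' + P) →
        i = j ∧ ∃ k : ℤ, s' = s + k * l ∧
          ∀ u : ℤ, x * line (r i) u = x' * line (r j) (u + k * l)) ∧
      ¬ (x * line (r i) s = x' * line (r j) (s' + P) ∧
        x * line (r i) (s + P) = x' * line (r j) s') := by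
    intro x x' i j s s'
    obtain ⟨-, -, hLs, -, hLw, -, -⟩ := hL m l (r i) (hr i)
    obtain ⟨-, -, -, -, hLw', -, -⟩ := hL m l (r j) (hr j)
    constructor
    · intro h1 h2
      have e : (line (r i) s)⁻¹ * line (r i) (s + P) = (line (r j) s')⁻¹ * line (r j) (s' + P) := by
        have e1 : (x * line (r i) s)⁻¹ * (x * line (r i) (s + P)) =
            (x' * line (r j) s')⁻¹ * (x' * line (r j) (s' + P)) := by rw [h1, h2]
        simpa only [mul_inv_rev, mul_assoc, inv_mul_cancel_left] using e1
      have e2 := congrArg FreeGroup.toWord e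
      rw [hLw s P, hLw' s' P] at e2
      have e3 : ∀ t, t < P → perZ (r i) (s + t) = perZ (r j) (s' + t) := by
        intro t ht
        have := List.map_inj_left.mp e2 t (List.mem_range.mpr ht)
        exact this
      obtain ⟨hij, hpq⟩ := hSC.fwd i j (s % l).toNat (s' % l).toNat (fun t ht => by
        rw [← perZ_add, ← perZ_add]
        exact e3 t ht)
      subst hij
      obtain ⟨k, hk⟩ := resid hpq
      refine ⟨rfl, k, hk, fun u => ?_⟩
      rw [hk, hLs s k, ← mul_assoc] at h1
      have h3 := mul_right_cancel h1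
      rw [hLs u k, ← mul_assoc, ← h3]
    · rintro ⟨h1, h2⟩
      have e : (line (r i) s)⁻¹ * line (r i) (s + P) =
          ((line (r j) s')⁻¹ * line (r j) (s' + P))⁻¹ := by
        have e1 : (x * line (r i) s)⁻¹ * (x * line (r i) (s + P)) =
            (x' * line (r j) (s' + P))⁻¹ * (x' * line (r j) s') := by rw [h1, h2]
        simpa only [mul_inv_rev, mul_assoc, inv_mul_cancel_left, inv_inv] using e1
      have e2 := congrArg FreeGroup.toWord e
      rw [FreeGroup.toWord_inv, hLw s P, hLw' s' P] at e2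
      obtain ⟨t, ht, hne⟩ := hSC.bwd i j (s % l).toNat (s' % l).toNat
      apply hne
      rw [← perZ_add, ← perZ_add]
      have e3 := congrArg (fun L => L[t]?) e2
      simp only [FreeGroup.invRev] at e3
      rw [List.getElem?_reverse (by simpa using ht)] at e3
      simp only [List.getElem?_map, List.length_map, List.length_range] at e3
      rw [List.getElem?_range ht, List.getElem?_range (by omega)] at e3
      simp only [Option.map_some, Option.some.injEq] at e3
      exact e3
  refine ⟨A, ?_⟩
  intro g x j hg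
  obtain ⟨h0, -, hLs, -, -, hd, -⟩ := hL m l (r j) (hr j)
  obtain ⟨a, ha⟩ := hg 0
  obtain ⟨b, hb⟩ := hg P
  have hab : (b - a).natAbs = P := by
    have h1 : td (g * (x * line (r j) 0)) (g * (x * line (r j) P)) = P := by
      rw [hiso, hiso, hd]
      simp
    rw [ha, hb, hiso, hd] at h1
    exact h1
  rcases Int.natAbs_eq_iff.mp hab with h | h
  · have hb' : b = a + P := by omega
    rw [hb', ← mul_assoc] at hb
    rw [← mul_assoc] at ha
    obtain ⟨-, k, -, hk⟩ := (A (g * x) x j j 0 a).1 ha (by rw [zero_add]; exact hb)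
    refine ⟨k, ?_⟩
    have h3 := hk 0
    rw [hLs 0 k, h0, mul_one, mul_one] at h3
    rw [← h3, mul_inv_cancel_right]
  · have ha' : a = b + P := by omega
    rw [ha', ← mul_assoc] at ha
    rw [← mul_assoc] at hb
    exact absurd ⟨ha, by rw [zero_add]; exact hb⟩ (A (g * x) x j j 0 b).2

end RGD
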