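import Pool.Agent.RGD.Stmts

/-!
# MP_0a3593_al: the axis of a cyclically reduced word (module LINE)
-/

set_option autoImplicit false

namespace RGD

namespace LINE

variable {m l : ℕ} [NeZero l]

theorem ofNat_mod (t : ℕ) : Fin.ofNat l (t % l) = Fin.ofNat l t := by
  apply Fin.ext
  simp [Fin.ofNat]

theorem per_mod (w : Word m l) (t : ℕ) : per w (t % l) = per w t := by
  unfold per
  rw [ofNat_mod]

theorem rot_ofNat (t : ℕ) : finRotate l (Fin.ofNat l t) = Fin.ofNat l (t + 1) := by
  obtain ⟨n, rfl⟩ : ∃ n, l = n + 1 := ⟨l - 1, by have := NeZero.pos l; omega⟩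
  rw [finRotate_succ_apply]
  apply Fin.ext
  simp [Fin.ofNat, Fin.val_add]

theorem per_succ_ne (w : Word m l) (h : CycRed w) (t : ℕ) : per w (t + 1) ≠ linv (per w t) := by
  unfold per
  rw [← rot_ofNat]
  exact h _

theorem lpos : (0 : ℤ) < l := by
  have := NeZero.pos l
  exact_mod_cast this

theorem toNat_lt (t : ℤ) : (t % l).toNat < l := by
  have h1 := Int.emod_lt_of_pos t (lpos (l := l))
  have h2 := Int.emod_nonneg t (lpos (l := l)).ne'
  omega

theorem toNat_cast (t : ℤ) : ((t % l).toNat : ℤ) = t % l :=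
  Int.toNat_of_nonneg (Int.emod_nonneg t (lpos (l := l)).ne')

theorem perZ_succ (w : Word m l) (t : ℤ) : perZ w (t + 1) = per w ((t % l).toNat + 1) := by
  unfold perZ
  rw [← per_mod w ((t % l).toNat + 1)]
  congr 1
  have h : ((((t % l).toNat + 1) % l : ℕ) : ℤ) = (t + 1) % l := by
    push_cast
    rw [toNat_cast, Int.emod_add_emod]
  rw [← h, Int.toNat_natCast]

theorem perZ_ne (w : Word m l) (h : CycRed w) (t : ℤ) : perZ w (t + 1) ≠ linv (perZ w t) := by
  rw [perZ_succ]
  exact per_succ_ne w h _

theorem perZ_nat (w : Word m l) (t : ℕ) : perZ w t = per w t := by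
  unfold perZ
  rw [← per_mod w t]
  congr 1

theorem line_zero (w : Word m l) : line w 0 = 1 := by
  simp [line, FreeGroup.one_eq_mk]

theorem line_add (w : Word m l) (t k : ℤ) : line w (t + k * l) = el w ^ k * line w t := by
  unfold line
  rw [Int.add_mul_ediv_right _ _ (lpos (l := l)).ne', Int.add_mul_emod_self_right, add_comm,
    zpow_add, mul_assoc]

theorem take_succ (w : Word m l) (a : ℕ) (h : a < l) :
    (List.ofFn w).take (a + 1) = (List.ofFn w).take a ++ [per w a] := by
  have h1 : a < (List.ofFn w).length := by simpa using h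
  rw [List.take_succ_eq_append_getElem h1]
  congr 1
  simp only [List.getElem_ofFn, per]
  congr 2
  apply Fin.ext
  simp [Fin.ofNat, Nat.mod_eq_of_lt h]

theorem perZ_eq (w : Word m l) (t : ℤ) : perZ w t = per w (t % l).toNat := rfl

theorem line_succ (w : Word m l) (t : ℤ) :
    line w (t + 1) = line w t * FreeGroup.mk [perZ w t] := by
  have hl := lpos (l := l)
  have h1 := toNat_lt (l := l) t
  have h2 := toNat_cast (l := l) t
  have h3 := take_succ w _ h1
  have h4 := Int.mul_ediv_add_emod t l
  rw [perZ_eq]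
  generalize (t % l).toNat = a at *
  have h5 : FreeGroup.mk ((List.ofFn w).take a) * FreeGroup.mk [per w a] =
      FreeGroup.mk ((List.ofFn w).take (a + 1)) := by
    rw [h3, FreeGroup.mul_mk]
  have hlt : line w t = el w ^ (t / l) * FreeGroup.mk ((List.ofFn w).take a) := by
    unfold line
    rw [← h2, Int.toNat_natCast]
  rw [hlt, mul_assoc, h5]
  by_cases h6 : a + 1 < l
  · have h7 : (t + 1) / l = t / l ∧ (t + 1) % l = a + 1 := by
      rw [Int.ediv_emod_unique hl]
      refine ⟨?_, by omega, by omega⟩
      rw [h2]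
      linarith
    unfold line
    rw [h7.1, h7.2]
    rfl
  · have h7 : (t + 1) / l = t / l + 1 ∧ (t + 1) % l = 0 := by
      rw [Int.ediv_emod_unique hl]
      refine ⟨?_, by omega, hl⟩
      have : (l : ℤ) = a + 1 := by omega
      have h8 : (l : ℤ) * (t / l + 1) = l * (t / l) + l := by ring
      rw [h8]
      linarith
    unfold line
    rw [h7.1, h7.2]
    have h9 : a + 1 = (List.ofFn w).length := by
      rw [List.length_ofFn]
      omega
    rw [h9, List.take_length, zpow_add_one]
    simp [el, FreeGroup.one_eq_mk, mul_assoc]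

theorem seg_mk (w : Word m l) (s : ℤ) (k : ℕ) :
    (line w s)⁻¹ * line w (s + k) =
      FreeGroup.mk ((List.range k).map fun i : ℕ => perZ w (s + i)) := by
  induction k with
  | zero => simp [FreeGroup.one_eq_mk]
  | succ k ih =>
    have h1 : (s + ((k + 1 : ℕ) : ℤ)) = (s + k) + 1 := by push_cast; ring
    rw [h1, line_succ, ← mul_assoc, ih, List.range_succ, List.map_append, ← FreeGroup.mul_mk]
    simp

theorem isReduced_seg (w : Word m l) (h : CycRed w) (s : ℤ) (k : ℕ) :
    FreeGroup.IsReduced ((List.range k).map fun i : ℕ => perZ w (s + i)) := by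
  unfold FreeGroup.IsReduced
  rw [List.isChain_iff_getElem]
  intro i hi
  simp only [List.length_map, List.length_range] at hi
  simp only [List.getElem_map, List.getElem_range]
  intro h1
  by_contra h2
  apply perZ_ne w h (s + i)
  have h3 : (s + ((i + 1 : ℕ) : ℤ)) = (s + i) + 1 := by push_cast; ring
  rw [h3] at h1 h2
  apply Prod.ext
  · exact h1.symm
  · show _ = !(perZ w (s + i)).2
    cases h4 : (perZ w (s + i)).2 <;> cases h5 : (perZ w (s + i + 1)).2 <;> simp_all

theorem seg_word (w : Word m l) (h : CycRed w) (s : ℤ) (k : ℕ) :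
    ((line w s)⁻¹ * line w (s + k)).toWord =
      (List.range k).map fun i : ℕ => perZ w (s + i) := by
  rw [seg_mk, FreeGroup.toWord_mk]
  exact (isReduced_seg w h s k).reduce_eq

theorem td_seg (w : Word m l) (h : CycRed w) (s : ℤ) (k : ℕ) :
    td (line w s) (line w (s + k)) = k := by
  unfold td FreeGroup.norm
  rw [seg_word w h]
  simp

theorem td_symm (x y : FreeGroup (Fin m)) : td x y = td y x := by
  unfold td
  rw [← FreeGroup.norm_inv_eq]
  congr 1
  group

theorem td_line (w : Word m l) (h : CycRed w) (s t : ℤ) :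
    td (line w s) (line w t) = (t - s).natAbs := by
  rcases le_total s t with h1 | h1
  · obtain ⟨k, rfl⟩ := Int.le.dest h1
    rw [td_seg w h]
    omega
  · obtain ⟨k, rfl⟩ := Int.le.dest h1
    rw [td_symm, td_seg w h]
    omega

end LINE

open LINE in
theorem t_LINE : S_LINE := by
  intro m l _ w h
  exact ⟨line_zero w, line_succ w, line_add w, perZ_ne w h, seg_word w h, td_line w h, perZ_nat w⟩

end RGD
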