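import Pool.Agent.RGD.Stmts
import Pool.Agent.Olsh.Tree

/-!
# Module TREE: the free group is a tree
-/

set_option autoImplicit false

namespace RGD

open Pool.Agent.Olsh FreeGroup

namespace TREE

variable {m : ℕ}

theorem isReduced_invRev_append {a b : Ltr m} (hab : a ≠ b) {l k : List (Ltr m)}
    (hl : IsReduced (a :: l)) (hk : IsReduced (b :: k)) :
    IsReduced (invRev (a :: l) ++ b :: k) := by
  have h1 : IsReduced (invRev (a :: l)) := by
    rw [isReduced_iff_reduce_eq, reduce_invRev, hl.reduce_eq]
  have e : invRev (a :: l) = invRev l ++ [(a.1, !a.2)] := by simp [invRev]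
  rw [e] at h1 ⊢
  have h2 : IsReduced ([(a.1, !a.2)] ++ b :: k) := by
    show IsReduced ((a.1, !a.2) :: b :: k)
    rw [isReduced_cons_cons]
    refine ⟨?_, hk⟩
    intro h
    dsimp only at h ⊢
    by_contra h3
    apply hab
    have h4 : a.2 = b.2 := by
      cases ha : a.2 <;> cases hb : b.2 <;> simp_all
    exact Prod.ext h h4
  have := IsReduced.append_overlap (L₁ := invRev l) (L₂ := [(a.1, !a.2)]) (L₃ := b :: k) h1 h2
    (by simp)
  exact this

theorem reduce_length_aux (l k : List (Ltr m)) (hl : IsReduced l) (hk : IsReduced k) :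
    (reduce (invRev l ++ k)).length + 2 * cpl l k = l.length + k.length := by
  induction l generalizing k with
  | nil =>
    rw [cpl_nil_left]
    have : invRev ([] : List (Ltr m)) ++ k = k := by simp [invRev]
    rw [this, hk.reduce_eq]
    simp
  | cons a l ih =>
    cases k with
    | nil =>
      rw [cpl_nil_right, List.append_nil, reduce_invRev, hl.reduce_eq, invRev_length]
      simp
    | cons b k =>
      by_cases hab : a = b
      · subst hab
        have h1 : IsReduced l := List.IsChain.tail hl
        have h2 : IsReduced k := List.IsChain.tail hk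
        have h3 := ih k h1 h2
        have e : reduce (invRev (a :: l) ++ a :: k) = reduce (invRev l ++ k) := by
          apply reduce.sound
          rw [← mul_mk, ← mul_mk, ← inv_mk, ← inv_mk]
          have e1 : (FreeGroup.mk (a :: l)) = FreeGroup.mk [a] * FreeGroup.mk l := by
            rw [mul_mk]; rfl
          have e2 : (FreeGroup.mk (a :: k)) = FreeGroup.mk [a] * FreeGroup.mk k := by
            rw [mul_mk]; rfl
          rw [e1, e2]
          group
        rw [e]
        simp only [cpl, if_true, List.length_cons]
        omega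
      · rw [(isReduced_invRev_append hab hl hk).reduce_eq]
        simp only [cpl, if_neg hab, List.length_append, invRev_length]
        rfl

theorem td_eq (x y : FreeGroup (Fin m)) :
    td x y + 2 * cpl x.toWord y.toWord = norm x + norm y := by
  have h := reduce_length_aux x.toWord y.toWord isReduced_toWord isReduced_toWord
  unfold td FreeGroup.norm
  rw [toWord_mul, toWord_inv]
  exact h

theorem td_self (x : FreeGroup (Fin m)) : td x x = 0 := by simp [td]

theorem td_comm (x y : FreeGroup (Fin m)) : td x y = td y x := by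
  unfold td
  rw [← norm_inv_eq]
  simp

theorem td_smul (g x y : FreeGroup (Fin m)) : td (g * x) (g * y) = td x y := by
  unfold td
  congr 1
  group

theorem td_tri (x y z : FreeGroup (Fin m)) : td x z ≤ td x y + td y z := by
  unfold td
  have : x⁻¹ * z = (x⁻¹ * y) * (y⁻¹ * z) := by group
  rw [this]
  exact norm_mul_le _ _

theorem td_isGM : IsGM (td (m := m)) where
  eq_of_zero := by
    intro x y h
    unfold td at h
    rw [FreeGroup.norm_eq_zero, inv_mul_eq_one] at h
    exact h
  self := td_self
  comm := td_comm
  tri := td_tri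
  mid := by
    intro x y k hk
    set w : List (Ltr m) := (x⁻¹ * y).toWord with hw
    have hwr : IsReduced w := isReduced_toWord
    have h1 : IsReduced (w.take k) := List.IsChain.take hwr k
    have h2 : IsReduced (w.drop k) := List.IsChain.drop hwr k
    have hlen : w.length = td x y := rfl
    refine ⟨x * FreeGroup.mk (w.take k), ?_, ?_⟩
    · unfold td
      rw [inv_mul_cancel_left, FreeGroup.norm, toWord_mk, h1.reduce_eq, List.length_take]
      omega
    · have e : (x * FreeGroup.mk (w.take k))⁻¹ * y = FreeGroup.mk (w.drop k) := by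
        have e1 : (FreeGroup.mk (w.take k)) * FreeGroup.mk (w.drop k) = x⁻¹ * y := by
          rw [mul_mk, List.take_append_drop, hw, mk_toWord]
        rw [mul_inv_rev, mul_assoc, ← e1, inv_mul_cancel_left]
      unfold td
      rw [e, FreeGroup.norm, toWord_mk, h2.reduce_eq, List.length_drop, hlen]
      rfl

/-- The Cayley tree is `0`-hyperbolic. -/
theorem td_hyp0 : Hyp (td (m := m)) 0 := by
  have key : ∀ x y z : FreeGroup (Fin m), td 1 y + td x z ≤ td 1 x + td y z ∨
      td 1 y + td x z ≤ td 1 z + td x y := by
    intro x y z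
    have e : ∀ a : FreeGroup (Fin m), td 1 a = norm a := by intro a; simp [td]
    have h1 := td_eq x y
    have h2 := td_eq y z
    have h3 := td_eq x z
    rw [e, e, e]
    rcases cpl_min x.toWord y.toWord z.toWord with h | h
    · right; omega
    · left; omega
  intro w x y z
  have h := key (w⁻¹ * x) (w⁻¹ * y) (w⁻¹ * z)
  have e : ∀ a : FreeGroup (Fin m), td 1 (w⁻¹ * a) = td w a := by
    intro a
    have := td_smul w 1 (w⁻¹ * a)
    rw [mul_one, mul_inv_cancel_left] at this
    exact this.symm
  rw [e, e, e, td_smul, td_smul, td_smul] at h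
  simpa using h

theorem toWord_between (x y z : FreeGroup (Fin m)) (h : Bt td x z y) :
    (x⁻¹ * y).toWord = (x⁻¹ * z).toWord ++ (z⁻¹ * y).toWord := by
  have e : x⁻¹ * y = (x⁻¹ * z) * (z⁻¹ * y) := by group
  have h1 : (x⁻¹ * y).toWord = reduce ((x⁻¹ * z).toWord ++ (z⁻¹ * y).toWord) := by
    rw [e, toWord_mul]
  have h2 : (x⁻¹ * y).toWord.length =
      ((x⁻¹ * z).toWord ++ (z⁻¹ * y).toWord).length := by
    rw [List.length_append]
    exact h.symm
  rw [h1] at h2 ⊢
  have h3 : Red ((x⁻¹ * z).toWord ++ (z⁻¹ * y).toWord)
      (reduce ((x⁻¹ * z).toWord ++ (z⁻¹ * y).toWord)) := reduce.red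
  have h4 := h3.sublist
  exact h4.eq_of_length h2

end TREE

theorem t_TREE : S_TREE := fun _ =>
  ⟨TREE.td_isGM, TREE.td_hyp0, TREE.td_smul, fun x y z h => TREE.toWord_between x y z h⟩

end RGD
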