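import Pool.Agent.RGD.Stmts

/-!
# MP_0a3593_al, module DCP: most families satisfy `DC`
-/

set_option autoImplicit false

namespace RGD

namespace DCP

open Finset

variable {m l n : ℕ}

/-- cyclically reduced words, as a type -/
abbrev A (m l : ℕ) := {w : Word m l // CycRed w}

/-- `cnt` as a sum of indicators -/
theorem cnt_eq (r : Fin n → Word m l) (a b : Ltr m) :
    (cnt r a b : ℤ) = ∑ j, ∑ i, if r j i = a ∧ r j (finRotate l i) = b then (1 : ℤ) else 0 := by
  classical
  rw [cnt, Nat.card_eq_fintype_card, Fintype.card_subtype, Finset.card_filter,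
    ← Finset.univ_product_univ, Finset.sum_product]
  push_cast
  rfl

/-- the difference of two corner numbers -/
theorem cc_sub (r : Fin n → Word m l) (x y y' : Ltr m) :
    (cc r x y : ℤ) - cc r x y' = ∑ j, dlt x y y' (r j) := by
  rw [cc, cc]
  push_cast
  rw [cnt_eq, cnt_eq, cnt_eq, cnt_eq]
  unfold dlt hh
  simp only [Finset.sum_sub_distrib, Finset.sum_add_distrib]
  ring

/-- counting the families with a given sum -/
theorem count (F : A m l → ℤ) (ε : ℝ) (hF : ∀ c : ℤ,
    ((univ.filter fun a : A m l => F a = c).card : ℝ) ≤ ε * Fintype.card (A m l)) (k : ℕ) :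
    ((univ.filter fun s : Fin (k + 1) → A m l => ∑ j, F (s j) = 0).card : ℝ) ≤
      ε * Fintype.card (Fin (k + 1) → A m l) := by
  classical
  have h1 : ((univ.filter fun s : Fin (k + 1) → A m l => ∑ j, F (s j) = 0).card : ℝ) =
      ∑ t : Fin k → A m l, ((univ.filter fun a : A m l => F a = -∑ j, F (t j)).card : ℝ) := by
    rw [Finset.card_filter]
    push_cast
    rw [← Equiv.sum_comp (Fin.consEquiv fun _ : Fin (k + 1) => A m l), ← Finset.univ_product_univ,
      Finset.sum_product_right]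
    apply Finset.sum_congr rfl
    intro t _
    rw [Finset.card_filter]
    push_cast
    apply Finset.sum_congr rfl
    intro a _
    have h2 : (∑ j, F ((Fin.consEquiv fun _ : Fin (k + 1) => A m l) (a, t) j) = 0) ↔
        F a = -∑ j, F (t j) := by
      rw [Fin.sum_univ_succ]
      change F a + ∑ j, F (t j) = 0 ↔ _
      exact eq_neg_iff_add_eq_zero.symm
    by_cases h3 : F a = -∑ j, F (t j)
    · rw [if_pos (h2.2 h3), if_pos h3]
    · rw [if_neg (fun h => h3 (h2.1 h)), if_neg h3]
  rw [h1]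
  calc ∑ t : Fin k → A m l, ((univ.filter fun a : A m l => F a = -∑ j, F (t j)).card : ℝ)
      ≤ ∑ _t : Fin k → A m l, ε * Fintype.card (A m l) := Finset.sum_le_sum fun t _ => hF _
    _ = ε * Fintype.card (Fin (k + 1) → A m l) := by
      rw [Finset.sum_const, Finset.card_univ, Fintype.card_fun, Fintype.card_fun, Fintype.card_fin,
        Fintype.card_fin, nsmul_eq_mul]
      push_cast
      ring

/-- the bad triples -/
abbrev Tr (m : ℕ) := Ltr m × Ltr m × Ltr m

/-- admissible triples -/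
def Ok (t : Tr m) : Prop := t.2.1 ≠ t.1 ∧ t.2.2 ≠ t.1 ∧ t.2.1 ≠ t.2.2

theorem not_DC {r : Fin n → Word m l} (h : ¬ DC r) :
    ∃ t : Tr m, Ok t ∧ ∑ j, dlt t.1 t.2.1 t.2.2 (r j) = 0 := by
  unfold DC at h
  push Not at h
  obtain ⟨x, y, y', h1, h2, h3, h4⟩ := h
  refine ⟨(x, y, y'), ⟨h1, h2, h3⟩, ?_⟩
  rw [← cc_sub, h4, sub_self]

end DCP

open DCP in
theorem t_DCP : M_DCP := by
  classical
  intro hA m ε hm hε
  have hK : (0 : ℝ) < Fintype.card (Tr m) + 1 := by positivity
  have hε' : 0 < ε / (Fintype.card (Tr m) + 1) := div_pos hε hK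
  have hex : ∀ t : Tr m, ∃ l0 : ℕ, Ok t → ∀ (l : ℕ) (c : ℤ), l0 ≤ l →
      (Nat.card {w : Word m l // CycRed w ∧ dlt t.1 t.2.1 t.2.2 w = c} : ℝ) ≤
        ε / (Fintype.card (Tr m) + 1) * Nat.card {w : Word m l // CycRed w} := by
    intro t
    by_cases ht : Ok t
    · obtain ⟨l0, h0⟩ := hA m t.1 t.2.1 t.2.2 _ hm ht.1 ht.2.1 ht.2.2 hε'
      exact ⟨l0, fun _ => h0⟩
    · exact ⟨0, fun h => absurd h ht⟩
  choose L hL using hex
  refine ⟨Finset.univ.sup L, fun l n hl hn => ?_⟩
  obtain ⟨k, rfl⟩ : ∃ k, n = k + 1 := ⟨n - 1, by omega⟩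
  have e1 : Nat.card {r : Fin (k + 1) → Word m l // ∀ j, CycRed (r j)} =
      Fintype.card (Fin (k + 1) → A m l) := by
    rw [← Nat.card_eq_fintype_card]
    exact Nat.card_congr Equiv.subtypePiEquivPi
  -- the bad families
  have e2 : Nat.card {r : Fin (k + 1) → Word m l // (∀ j, CycRed (r j)) ∧ ¬ DC r} ≤
      (Finset.univ.filter fun s : Fin (k + 1) → A m l => ¬ DC fun j => (s j).1).card := by
    rw [← Fintype.card_subtype, ← Nat.card_eq_fintype_card]
    apply Nat.card_le_card_of_injective (fun r => (⟨fun j => ⟨r.1 j, r.2.1 j⟩, r.2.2⟩ :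
      {s : Fin (k + 1) → A m l // ¬ DC fun j => (s j).1}))
    intro r r' h
    apply Subtype.ext
    funext j
    have h1 := congrArg Subtype.val h
    have h2 := congrFun h1 j
    exact congrArg Subtype.val h2
  have e3 : (Finset.univ.filter fun s : Fin (k + 1) → A m l => ¬ DC fun j => (s j).1) ⊆
      (Finset.univ.filter fun t : Tr m => Ok t).biUnion fun t =>
        Finset.univ.filter fun s : Fin (k + 1) → A m l =>
          ∑ j, dlt t.1 t.2.1 t.2.2 (s j).1 = 0 := by
    intro s hs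
    rw [Finset.mem_filter] at hs
    obtain ⟨t, h1, h2⟩ := not_DC hs.2
    rw [Finset.mem_biUnion]
    exact ⟨t, Finset.mem_filter.2 ⟨Finset.mem_univ _, h1⟩,
      Finset.mem_filter.2 ⟨Finset.mem_univ _, h2⟩⟩
  have e4 : ∀ t ∈ Finset.univ.filter fun t : Tr m => Ok t,
      ((Finset.univ.filter fun s : Fin (k + 1) → A m l =>
        ∑ j, dlt t.1 t.2.1 t.2.2 (s j).1 = 0).card : ℝ) ≤
        ε / (Fintype.card (Tr m) + 1) * Fintype.card (Fin (k + 1) → A m l) := by
    intro t ht
    have ht' : Ok t := (Finset.mem_filter.1 ht).2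
    refine count (fun a : A m l => dlt t.1 t.2.1 t.2.2 a.1) _ (fun c => ?_) k
    have h1 := hL t ht' l c ((Finset.le_sup (f := L) (Finset.mem_univ t)).trans hl)
    rw [Nat.card_eq_fintype_card (α := {w : Word m l // CycRed w})] at h1
    refine le_trans (le_of_eq ?_) h1
    rw [← Fintype.card_subtype, ← Nat.card_eq_fintype_card]
    congr 1
    refine Nat.card_congr ⟨fun a => ⟨a.1.1, a.1.2, a.2⟩, fun w => ⟨⟨w.1, w.2.1⟩, w.2.2⟩,
      fun a => rfl, fun w => rfl⟩
  rw [e1]
  have h5 : (Nat.card {r : Fin (k + 1) → Word m l // (∀ j, CycRed (r j)) ∧ ¬ DC r} : ℝ) ≤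
      ∑ t ∈ Finset.univ.filter fun t : Tr m => Ok t,
        ((Finset.univ.filter fun s : Fin (k + 1) → A m l =>
          ∑ j, dlt t.1 t.2.1 t.2.2 (s j).1 = 0).card : ℝ) := by
    have := (e2.trans (Finset.card_le_card e3)).trans Finset.card_biUnion_le
    exact_mod_cast this
  refine h5.trans ((Finset.sum_le_sum e4).trans ?_)
  rw [Finset.sum_const, nsmul_eq_mul]
  have h6 : ((Finset.univ.filter fun t : Tr m => Ok t).card : ℝ) ≤ Fintype.card (Tr m) + 1 := by
    have : (Finset.univ.filter fun t : Tr m => Ok t).card ≤ Fintype.card (Tr m) :=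
      Finset.card_filter_le _ _
    have h7 : ((Finset.univ.filter fun t : Tr m => Ok t).card : ℝ) ≤ Fintype.card (Tr m) := by
      exact_mod_cast this
    linarith
  have h8 : (0 : ℝ) ≤ Fintype.card (Fin (k + 1) → A m l) := by positivity
  calc ((Finset.univ.filter fun t : Tr m => Ok t).card : ℝ) *
        (ε / (Fintype.card (Tr m) + 1) * Fintype.card (Fin (k + 1) → A m l))
      ≤ (Fintype.card (Tr m) + 1) *
        (ε / (Fintype.card (Tr m) + 1) * Fintype.card (Fin (k + 1) → A m l)) := by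
        apply mul_le_mul_of_nonneg_right h6
        exact mul_nonneg hε'.le h8
    _ = ε * Fintype.card (Fin (k + 1) → A m l) := by
        field_simp

end RGD
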