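import Pool.Agent.RGD.Defs
import Pool.Agent.Olsh.DefsP

/-!
# MP_0a3593_al: statements of the modules

Module `X` proves `theorem t_X : M_X` (or `t_X : S_X` if there is no `M_X`) in the file
`Pool/Agent/RGD/X.lean`.

Notation in the comments: `F = FreeGroup (Fin m)`, `N = normalClosure (rels r)`, `K = 2m - 1`,
`gen a = FreeGroup.mk [a]`. The tree is `F` with the metric `td`.
-/

set_option autoImplicit false

namespace RGD

open Pool.Agent.Olsh

/-! ### Part I: small cancellation (with the library `Pool/Agent/Olsh`) -/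

/-- TREE. The free group is a tree. COPY of `Pool/Agent/Olsh/Tree.lean` (`td_isGM`, `td_hyp0`,
`td_isom`, `td_free`), which is written for `FreeGroup Bool`: replace `Bool × Bool` by `Ltr m`. The last part:
the reduced word of `x⁻¹ y` is the concatenation of those of `x⁻¹ z` and `z⁻¹ y` when `z` is between `x`
and `y` (norm of a product = sum of the norms: no cancellation, `FreeGroup.toWord_mul`,
`reduce` of the concatenation has full length, hence equals it). -/
def S_TREE : Prop := ∀ m : ℕ, IsGM (td (m := m)) ∧ Hyp (td (m := m)) 0 ∧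
  (∀ g x y : FreeGroup (Fin m), td (g * x) (g * y) = td x y) ∧
  ∀ x y z : FreeGroup (Fin m), Bt td x z y →
    (x⁻¹ * y).toWord = (x⁻¹ * z).toWord ++ (z⁻¹ * y).toWord

/-- LINE. The axis of a cyclically reduced word. `line w (t+1) = line w t * gen (perZ w t)`: if
`(t+1) % l ≠ 0` take one more letter, otherwise a new factor `el w`. For `s ≤ t` the element
`(line w s)⁻¹ * line w t` is `mk` of the list `perZ w s, …, perZ w (t-1)`, which is reduced as `w` is
cyclically reduced; so it is its reduced word. -/
def S_LINE : Prop := ∀ (m l : ℕ) [NeZero l] (w : Word m l), CycRed w →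
  line w 0 = 1 ∧
  (∀ t : ℤ, line w (t + 1) = line w t * FreeGroup.mk [perZ w t]) ∧
  (∀ t k : ℤ, line w (t + k * l) = el w ^ k * line w t) ∧
  (∀ t : ℤ, perZ w (t + 1) ≠ linv (perZ w t)) ∧
  (∀ (s : ℤ) (k : ℕ), ((line w s)⁻¹ * line w (s + k)).toWord =
    (List.range k).map fun i : ℕ => perZ w (s + i)) ∧
  (∀ s t : ℤ, td (line w s) (line w t) = (t - s).natAbs) ∧
  ∀ t : ℕ, perZ w t = per w t

/-- AXOV. Two axes with a common segment of length `P` coincide (small cancellation).
From the equality of the two end points: `(line s)⁻¹ line (s+P)` are equal (resp. inverse to each other), by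
S_LINE the reduced words are equal: `perZ (r i) (s+t) = perZ (r j) (s'+t)` for `t < P` (resp. the reversed inverse
word, `FreeGroup.toWord_inv`, `invRev`); replace `s`, `s'` by their residues and use `SC`. In the first case `i = j`,
`s ≡ s' mod l`, so all letters agree and the lines agree after any shift (S_LINE, both directions). Second
part: an element that preserves an axis is a power of the conjugate of the relator: it maps the segment
`[line 0, line P]` to a segment of the line of the same length, by the two first parts orientation preserving and by a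
multiple of `l` (points of the line at distance `P` from each other are `line t`, `line (t ± P)` by S_LINE). -/
def S_AXOV : Prop := ∀ (m l n P : ℕ) [NeZero l] (r : Fin n → Word m l), (∀ j, CycRed (r j)) →
  SC r P → 1 ≤ P → (∀ (x x' : FreeGroup (Fin m)) (i j : Fin n) (s s' : ℤ),
    (x * line (r i) s = x' * line (r j) s' → x * line (r i) (s + P) = x' * line (r j) (s' + P) →
      i = j ∧ ∃ k : ℤ, s' = s + k * l ∧ ∀ u : ℤ, x * line (r i) u = x' * line (r j) (u + k * l)) ∧
    ¬ (x * line (r i) s = x' * line (r j) (s' + P) ∧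
      x * line (r i) (s + P) = x' * line (r j) s')) ∧
  ∀ (g x : FreeGroup (Fin m)) (j : Fin n),
    (∀ t : ℤ, ∃ t' : ℤ, g * (x * line (r j) t) = x * line (r j) t') →
    ∃ k : ℤ, g = x * el (r j) ^ k * x⁻¹

def M_AXOV : Prop := S_TREE → S_LINE → S_AXOV

/-- CONE. The axes are a rotating family. `gm`, `hyp` (`Hyp.mono`), `isom`, `free`, `Ysmul` are immediate. `qc`: axes are
convex: a point between `line s` and `line t` is a `line u` (S_TREE: uniqueness of the point at a given distance on a geodesic,
`bt_unique` in `Olsh/Tree2.lean`). `ov`: let `d v w > P + 6 η1 + 1`; points `v1, w1` of the first axis and `v2, w2`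
of the second one with `d v v1, d v v2, d w w1, d w w2 ≤ η1`. In a tree the segments `[v1, w1]`, `[v2, w2]` have a
common segment of length `≥ P` (four point condition with constant 0: the point `z` of `[v1, w1]` at distance `2 η1`
from `v1` and the one at distance `2 η1` from `w1` are on `[v2, w2]`); by S_AXOV the axes are equal. `rot`: an
element `≠ 1` fixing the axis is `x el^k x⁻¹` with `k ≠ 0`; it moves the points of the axis by `|k| l`. -/
def S_CONE : Prop := ∀ (m l n P u η1 : ℕ) [NeZero l] (r : Fin n → Word m l),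
  (∀ j, CycRed (r j)) → SC r P → 1 ≤ P → 1 ≤ u → 100 * (P + 6 * η1 + 1) ≤ u →
  ConeG (FreeGroup (Fin m)) (td (m := m)) u l (fun s : AxT r => s.1) 0 η1 ∧
  KK (FreeGroup (Fin m)) (apx (FreeGroup (Fin m)) (AxT r)) = Subgroup.normalClosure (rels r)

def M_CONE : Prop := S_TREE → S_LINE → S_AXOV → S_CONE

/-- GREEN. A nontrivial element of `N` contains almost a whole relator. Constants: `η1`, `C` from
`cCONEPS` for `η = 0` (see the proof of `CONEQ` in `Olsh/ConeAll.lean`: `ConeP` is monotone in `η1`), `C'` from `cANGX 0 η1 C`;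
`u = 100 (P + 6 η1 + 1) + C + C' + 4 dl + 1`, `C0` with `2000 C u < C0 (P+1)` and `(12 C + C') u ≤ C0 (P+1)`.
`IsRot` from `cCONEROT`; `cKFREE` for `w = inl 1`: an apex `s` with `l ≤ ang s (inl 1) (inl g) + 12 C u`; `cPSA`
gives neighbours `inl y`, `inl y'` of `s`, i.e. points of the axis, with `td y y' = ang`; by `cANGX`
`td 1 y + td y y' + td y' g ≤ td 1 g + C' u`. So the segments `[1, g]` and `[y, y']` have a common segment of
length `≥ td y y' - C' u` (tree). Its word is a subword of `g.toWord` (S_TREE) and of the word of the axis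
(S_LINE; the reversed inverse if the axis runs backwards), so it is an `IsSub`. The closed theorems are in
`Olsh/ClosedG.lean` or `Olsh/Closed.lean`. -/
def S_GREEN : Prop := ∃ C0 : ℕ, 1 ≤ C0 ∧ ∀ (m l n P : ℕ) [NeZero l] (r : Fin n → Word m l),
  (∀ j, CycRed (r j)) → SC r P → 1 ≤ P → C0 * (P + 1) ≤ l →
  ∀ g ∈ Subgroup.normalClosure (rels r), g ≠ 1 →
    ∃ a p b : List (Ltr m), g.toWord = a ++ p ++ b ∧ l ≤ p.length + C0 * (P + 1) ∧ IsSub r p

def M_GREEN : Prop := S_TREE → S_LINE → S_AXOV → S_CONE → S_GREEN

/-- SHORT. Short relations are relators. `C1 = 4 C0 + 4`, `e = C0 (P+1)`. Let `w` be cyclically reduced of length `k ≤ l`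
with `el w ∈ N`; `el w ≠ 1`, its reduced word is `List.ofFn w = a ++ p ++ b` with `|p| ≥ l - e`, `IsSub r p`. If
`|p| > l` shorten it (impossible: `|p| ≤ k ≤ l`). Let `ρ` be the cyclic permutation of `r j` (or of its inverse) that starts
with `p`: `ρ = p ++ q`, `|ρ| = l`, `|q| ≤ e`. The element of `b ++ a` times the inverse of that of `q` is conjugate to
`(p b a)(p q)⁻¹ = conjugate of el w * (conjugate of el (r j))^(±1)` (up to conjugation by `p`, `a`), so it is in `N`; its norm is at
most `2 e < l - e`, so it is `1` by S_GREEN (a nontrivial element has norm `≥ l - e`). `b ++ a` is a subword of the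
cyclic word `w`, hence reduced, and so is `q`: `b ++ a = q`. So `k = l` and the cyclic word `w` is that of `ρ`. `fwd`, `bwd`:
from `SC`, as `P ≤ l`. -/
def S_SHORT : Prop := ∃ C1 : ℕ, 4 ≤ C1 ∧ ∀ (m l n P : ℕ) [NeZero l] (r : Fin n → Word m l),
  (∀ j, CycRed (r j)) → SC r P → 1 ≤ P → C1 * (P + 1) ≤ l → Short r

def M_SHORT : Prop := S_GREEN → S_SHORT

/-! ### Part II: the Cayley graph -/

/-- GL. Elementary facts on the Cayley graph for `Short r`, `3 ≤ l`: a reduced word of length 1 or 2 is cyclically
reduced, so it is not in `N` (its length is not `l`). `gl x = 1` is impossible, `gl x = gl y` gives `mk [x, linv y] ∈ N`.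
Adjacency: `g ~ h` iff `h = g * gl x` for a letter `x` (`(i, true)`: `of i`; `(i, false)`: its inverse).
Induction over the vertices: every element of the presented group is a product of `gl`s. -/
def S_GL : Prop := ∀ (m l n : ℕ) [NeZero l] (r : Fin n → Word m l), Short r → 3 ≤ l →
  (∀ x : Ltr m, gl (rels r) x ≠ 1) ∧ (∀ x y : Ltr m, gl (rels r) x = gl (rels r) y → x = y) ∧
  (∀ x : Ltr m, gl (rels r) x * gl (rels r) (linv x) = 1) ∧
  (∀ g h, (Cay (rels r)).Adj g h ↔ ∃ x : Ltr m, h = g * gl (rels r) x) ∧
  ∀ p : PresentedGroup (rels r) → Prop, p 1 → (∀ g x, p g → p (g * gl (rels r) x)) → ∀ g, p g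

/-- WALK. Closed walks of length `l` are relator cycles. A closed walk `f` in `CW … v (v gl x) (v gl y)` has
unique letters `a i` with `f (i+1) = f i * gl (a i)` (S_GL); no backtracking: `a (i+1) ≠ linv (a i)`; so `a` is
cyclically reduced, `a 0 = x`, `a (l-1) = linv y`, and the product of all letters is `1` in the presented group:
`el a ∈ N`. Conversely every such word gives a walk (`f i = v * gl (a 0) … gl (a (i-1))`). -/
def S_WALK : Prop := ∀ (m l n : ℕ) [NeZero l] (r : Fin n → Word m l), Short r → 3 ≤ l →
  ∀ (v : PresentedGroup (rels r)) (x y : Ltr m),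
  Nat.card (CW (Cay (rels r)) l v (v * gl (rels r) x) (v * gl (rels r) y)) =
    Nat.card {w : Word m l // CycRed w ∧ el w ∈ Subgroup.normalClosure (rels r) ∧ w 0 = x ∧
      w ((finRotate l).symm 0) = linv y}

def M_WALK : Prop := S_GL → S_WALK

/-- CNT. By `Short.cls` the words `w` on the right side of S_WALK are the words `per w t = per (r j) (q+t)`,
`q < l` (then `r j q = x`, `r j (q-1) = linv y`: an occurrence of `(linv y) x` at `q - 1`) and the words
`w t = linv (per (r j) (q + (l-t)))`, `q < l` (then `r j q = linv x`, `r j (q+1) = y`: an occurrence of `(linv x) y` at `q`).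
By `Short.fwd`, `Short.bwd` all these words are different for different data (two words of the second kind: compare the
inverse words). Conversely these words are cyclically reduced and in `N` (conjugates of relators and their
inverses). -/
def S_CNT : Prop := ∀ (m l n : ℕ) [NeZero l] (r : Fin n → Word m l), (∀ j, CycRed (r j)) →
  Short r → ∀ x y : Ltr m,
  Nat.card {w : Word m l // CycRed w ∧ el w ∈ Subgroup.normalClosure (rels r) ∧ w 0 = x ∧
      w ((finRotate l).symm 0) = linv y} = cc r x y

/-- RIG. Let `φ` fix `v` and `v gl x`. For `y ≠ x` the vertex `φ (v gl y)` is a neighbour of `v`, so it is `v gl z`, and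
`z ≠ x` as `φ` is injective. `φ` maps the closed walks `CW v (v gl x) (v gl y)` bijectively to `CW v (v gl x) (v gl z)`
(`f ↦ φ ∘ f`), so `cc x y = cc x z`, `z = y` by `DC`. So `φ` fixes all neighbours of `v`. Every neighbour `u` of `v` is
fixed and has the fixed neighbour `v`: induction (S_GL). `DiscAut`: `F = {1, gl x}` if there is a letter `x`; if
`m = 0` the group is trivial. -/
def S_RIG : Prop := ∀ (m l n : ℕ) [NeZero l] (r : Fin n → Word m l), (∀ j, CycRed (r j)) →
  Short r → 3 ≤ l → DC r → Rigid (Cay (rels r)) ∧ DiscAut (Cay (rels r))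

def M_RIG : Prop := S_GL → S_WALK → S_CNT → S_RIG

/-! ### Part III: counting -/

/-- CARD. The number of cyclically reduced words. Upper bound: `2m K^(l-1) ≤ 2 K^l` reduced words. Lower bound for
`l ≥ 3`: `2m` choices for the first letter, `K` for the next ones, `≥ K - 1` for the last one (not the
inverse of the letter before, not the inverse of the first letter): `2m K^(l-2) (K-1) ≥ K^l / 2`; `l = 1, 2`
directly. -/
def S_CARD : Prop := ∀ m l : ℕ, 2 ≤ m → 1 ≤ l →
  (2 * m - 1) ^ l ≤ 2 * Nat.card {w : Word m l // CycRed w} ∧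
  Nat.card {w : Word m l // CycRed w} ≤ 2 * (2 * m - 1) ^ l

/-- EXT. Words with a prescribed window. After a rotation (`q = 0`) the window is `0, …, P-1`; every other letter is
different from the inverse of the letter before: at most `K` choices for each of the `l - P` places. -/
def S_EXT : Prop := ∀ (m l P q : ℕ) [NeZero l] (c : ℕ → Ltr m), 2 ≤ m → 1 ≤ P → P ≤ l →
  Nat.card {w : Word m l // CycRed w ∧ ∀ t, t < P → per w (q + t) = c t} ≤ (2 * m - 1) ^ (l - P)

/-- SELF. Words with two equal windows. Rotate such that the two windows are `[0, P)` and `[δ, δ+P)` with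
`1 ≤ δ`, `δ + P ≤ l` (if `δ + P > l` exchange the two windows: then `l - δ < P ≤ l/2`). The word is determined by
the letters before `δ` (at most `2m K^(δ-1)`) and the letters after the second window (at most `K^(l-δ-P)`). Second part: the
windows must be disjoint: if they overlap, the reflection `x ↦ p + q + P - 1 - x` of the overlap fixes a place `x`
(then a letter is its own inverse) or exchanges two consecutive places (then a letter is followed by its inverse).
`2m K^(l-P-1) ≤ 2 K^(l-P)`. -/
def S_SELF : Prop := ∀ (m l P p q : ℕ) [NeZero l], 2 ≤ m → 1 ≤ P → 2 * P ≤ l →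
  (p % l ≠ q % l → Nat.card {w : Word m l // CycRed w ∧
    ∀ t, t < P → per w (p + t) = per w (q + t)} ≤ 2 * (2 * m - 1) ^ (l - P)) ∧
  Nat.card {w : Word m l // CycRed w ∧
    ∀ t, t < P → per w (p + t) = linv (per w (q + (P - 1 - t)))} ≤ 2 * (2 * m - 1) ^ (l - P)

/-- SCP. Most families satisfy `SC`. If `SC` fails there are `i, j` and `p, q < l` (periodicity) with one of the two
coincidences. `i ≠ j`: fix all words except the `j`-th one, S_EXT: at most `K^(l-P)` of the
`≥ K^l/2` words `r j`. `i = j`: S_SELF. Each of the at most `2 n² l²` events has relative frequency at most `4 K^(-P)`. -/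
def S_SCP : Prop := ∀ (m n l P : ℕ) [NeZero l], 2 ≤ m → 1 ≤ P → 2 * P ≤ l →
  Nat.card {r : Fin n → Word m l // (∀ j, CycRed (r j)) ∧ ¬ SC r P} * (2 * m - 1) ^ P ≤
    8 * n ^ 2 * l ^ 2 * Nat.card {r : Fin n → Word m l // ∀ j, CycRed (r j)}

def M_SCP : Prop := S_CARD → S_EXT → S_SELF → S_SCP

/-- UV. Two reduced words with the same length, first and last letter and different sums. Let `p ∉ {y, linv y'}`,
`q ∉ {linv x, linv y'}`; `U = p (linv y, x)^5 q`, `V = p (y')^10 q`. `hh (linv y) x = 1`, `hh x (linv y) ≥ 0`,
`hh y' y' ≤ 0`, `|hh| ≤ 1`: the sum of `U` is `≥ 3`, that of `V` is `≤ 2`. -/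
def S_UV : Prop := ∀ (m : ℕ) (x y y' : Ltr m), 2 ≤ m → y ≠ x → y' ≠ x → y ≠ y' →
  ∃ (p q : Ltr m) (U V : List (Ltr m)), U.length = V.length ∧
    RedL (p :: U ++ [q]) ∧ RedL (p :: V ++ [q]) ∧
    hsum x y y' (p :: U ++ [q]) ≠ hsum x y y' (p :: V ++ [q])

/-- LO (Littlewood - Offord). Exchange `u i`, `v i` such that `f i (u i) < f i (v i)`. For `e` in the product let
`J(e)` be the set of `i` with `e i ∈ {u i, v i}`. Fix `J` and `e` outside of `J`: the sets
`{i ∈ J | e i = v i}` for the `e` with the given sum are an antichain, so there are at most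
`J.card.choose (J.card / 2)` of them (`IsAntichain.sperner`). Given `ε` choose `T` with
`t.choose (t/2) ≤ (ε/2) 2^t` for `t ≥ T`; the number of `e` with `|J(e)| < T` is at most
`(ε/2) ∏ |E i|` for large `B` (the number of `e` such that `J(e) ∩ A = ∅` for a given set `A` of places is at most
`(1 - 2/M)^|A| ∏ |E i|`; there are at most `2^T B^T` possible sets of size `< T`; or Chebyshev's inequality). -/
def S_LO : Prop := ∀ (M : ℕ) (ε : ℝ), 0 < ε → ∃ B0 : ℕ, ∀ (B : ℕ) (T : Type) [DecidableEq T]
  (E : Fin B → Finset T) (f : Fin B → T → ℤ) (u v : Fin B → T), B0 ≤ B →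
  (∀ i, u i ∈ E i ∧ v i ∈ E i ∧ (E i).card ≤ M ∧ f i (u i) ≠ f i (v i)) → ∀ c : ℤ,
  (((Fintype.piFinset E).filter fun e => ∑ i, f i (e i) = c).card : ℝ) ≤
    ε * (Fintype.piFinset E).card

/-- ANTI. Let `U`, `V`, `p`, `q` be as in S_UV, `L = U.length + 4`. Blocks: `B = (l - 1) / (L + 1)`; the block `b` consists of the
`L` places `b (L+1) + 1, …, b (L+1) + L`; the places `b (L+1)`, `b ≤ B`, are separators. Fix all letters outside of
the blocks. The cyclically reduced words with these letters are (none or) the products of the sets `E b` of the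
fillings of block `b` that are reduced together with the two separators; `|E b| ≤ (2m)^L`. `E b` contains
`s p U q s'` and `s p V q s'`, where `s` is not the inverse of the separator before and not `linv p`, `s'` is not
`linv q` and not the inverse of the separator after (`2m ≥ 4`). `dlt` is a constant plus the sum of the contributions of the
blocks (with the separators), and these two fillings have different contributions. S_LO for each choice of the
letters outside, and sum over these choices. -/
def S_ANTI : Prop := ∀ (m : ℕ) (x y y' : Ltr m) (ε : ℝ), 2 ≤ m → y ≠ x → y' ≠ x → y ≠ y' →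
  0 < ε → ∃ l0 : ℕ, ∀ (l : ℕ) (c : ℤ), l0 ≤ l →
  (Nat.card {w : Word m l // CycRed w ∧ dlt x y y' w = c} : ℝ) ≤
    ε * Nat.card {w : Word m l // CycRed w}

def M_ANTI : Prop := S_UV → S_LO → S_ANTI

/-- DCP. Most families satisfy `DC`. `cc r x y - cc r x y' = ∑ j, dlt x y y' (r j)` (count the places). For each of the at most
`(2m)^3` triples: fix the words `r j`, `j ≠ 0`; S_ANTI for `r 0`. -/
def S_DCP : Prop := ∀ (m : ℕ) (ε : ℝ), 2 ≤ m → 0 < ε → ∃ l0 : ℕ, ∀ l n : ℕ, l0 ≤ l → 1 ≤ n →
  (Nat.card {r : Fin n → Word m l // (∀ j, CycRed (r j)) ∧ ¬ DC r} : ℝ) ≤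
    ε * Nat.card {r : Fin n → Word m l // ∀ j, CycRed (r j)}

def M_DCP : Prop := S_ANTI → S_DCP

/-- MAIN. `P = l / C1 - 1`; `1 - prob ≤ 8 n² l² K^(-P) + ε` for large `l`. `d0 = 1 / (4 C1)`: for
`n ≤ K^(d l)`: `n² ≤ K^(l / (2 C1))`, `K^(-P) ≤ K^2 K^(-l / C1)`, `l² K^(-l / (2 C1)) → 0`. -/
def M_MAIN : Prop := S_SHORT → S_RIG → S_SCP → S_DCP → MainStmt

end RGD
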