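import Pool.Agent.RGD.Stmts

set_option autoImplicit false

namespace RGD

namespace CARD

theorem linv_linv {m : ℕ} (a : Ltr m) : linv (linv a) = a := by
  rcases a with ⟨i, b⟩
  simp [linv]

theorem cyc_iff {m k : ℕ} (w : Word m (k + 1)) :
    CycRed w ↔ (∀ j : Fin k, w j.succ ≠ linv (w j.castSucc)) ∧ w 0 ≠ linv (w (Fin.last k)) := by
  unfold CycRed
  constructor
  · intro h
    refine ⟨fun j => ?_, ?_⟩
    · have h1 := h j.castSucc
      have h2 : finRotate (k + 1) j.castSucc = j.succ := by
        rw [finRotate_apply]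
        exact Fin.coeSucc_eq_succ
      rwa [h2] at h1
    · have h1 := h (Fin.last k)
      rwa [finRotate_last] at h1
  · rintro ⟨h1, h2⟩ i
    refine Fin.lastCases ?_ (fun j => ?_) i
    · rw [finRotate_last]
      exact h2
    · have h3 : finRotate (k + 1) j.castSucc = j.succ := by
        rw [finRotate_apply]
        exact Fin.coeSucc_eq_succ
      rw [h3]
      exact h1 j

/-- linearly reduced words -/
def Red (m k : ℕ) : Finset (Word m (k + 1)) :=
  Finset.univ.filter fun w => ∀ j : Fin k, w j.succ ≠ linv (w j.castSucc)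

theorem snoc_red {m k : ℕ} (w : Word m (k + 1)) (a : Ltr m) :
    (Fin.snoc (α := fun _ => Ltr m) w a : Word m (k + 2)) ∈ Red m (k + 1) ↔
      w ∈ Red m k ∧ a ≠ linv (w (Fin.last k)) := by
  simp only [Red, Finset.mem_filter, Finset.mem_univ, true_and]
  constructor
  · intro h
    refine ⟨fun j => ?_, ?_⟩
    · have h1 := h j.castSucc
      rw [Fin.succ_castSucc, Fin.snoc_castSucc, Fin.snoc_castSucc] at h1
      exact h1
    · have h1 := h (Fin.last k)
      rw [Fin.succ_last] at h1
      simpa [Fin.snoc_castSucc, Fin.snoc_last] using h1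
  · rintro ⟨h1, h2⟩ j
    refine Fin.lastCases ?_ (fun i => ?_) j
    · rw [Fin.succ_last]
      simpa [Fin.snoc_castSucc, Fin.snoc_last] using h2
    · rw [Fin.succ_castSucc, Fin.snoc_castSucc, Fin.snoc_castSucc]
      exact h1 i

theorem card_ltr (m : ℕ) : Fintype.card (Ltr m) = 2 * m := by
  simp [Ltr, mul_comm]

theorem red_card {m : ℕ} (k : ℕ) : (Red m k).card = 2 * m * (2 * m - 1) ^ k := by
  induction k with
  | zero =>
    have h1 : Red m 0 = Finset.univ := by
      ext w
      simp only [Red, Finset.mem_filter, Finset.mem_univ, true_and, iff_true]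
      intro j
      exact j.elim0
    rw [h1, Finset.card_univ, Fintype.card_fun, card_ltr]
    simp
  | succ k ih =>
    have h1 : (Red m (k + 1)).card =
        ((Red m k).sigma fun w => Finset.univ.filter fun a : Ltr m =>
          a ≠ linv (w (Fin.last k))).card := by
      symm
      refine Finset.card_bij (fun x _ => (Fin.snoc (α := fun _ => Ltr m) x.1 x.2 : Word m (k + 2)))
        ?_ ?_ ?_
      · intro x hx
        simp only [Finset.mem_sigma, Finset.mem_filter, Finset.mem_univ, true_and] at hx
        exact (snoc_red _ _).2 hx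
      · intro x hx y hy h
        have h2 := congrArg (fun w : Word m (k + 2) => Fin.init w) h
        have h3 := congrArg (fun w : Word m (k + 2) => w (Fin.last _)) h
        simp only [Fin.init_snoc, Fin.snoc_last] at h2 h3
        rcases x with ⟨x1, x2⟩
        rcases y with ⟨y1, y2⟩
        simp only at h2 h3
        subst h2
        subst h3
        rfl
      · intro w hw
        refine ⟨⟨Fin.init w, w (Fin.last _)⟩, ?_, ?_⟩
        · have h2 : (Fin.snoc (α := fun _ => Ltr m) (Fin.init w) (w (Fin.last _)) :
              Word m (k + 2)) = w := Fin.snoc_init_self w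
          have h3 := hw
          rw [← h2] at h3
          simp only [Finset.mem_sigma, Finset.mem_filter, Finset.mem_univ, true_and]
          exact (snoc_red _ _).1 h3
        · exact Fin.snoc_init_self w
    rw [h1, Finset.card_sigma]
    have h2 : ∀ w ∈ Red m k, (Finset.univ.filter fun a : Ltr m =>
        a ≠ linv (w (Fin.last k))).card = 2 * m - 1 := by
      intro w _
      rw [Finset.filter_ne', Finset.card_erase_of_mem (Finset.mem_univ _), Finset.card_univ,
        card_ltr]
    rw [Finset.sum_congr rfl h2, Finset.sum_const, smul_eq_mul, ih, pow_succ]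
    ring

theorem upper {m k : ℕ} : Nat.card {w : Word m (k + 1) // CycRed w} ≤ (Red m k).card := by
  rw [Nat.card_eq_fintype_card, Fintype.card_subtype]
  refine Finset.card_le_card ?_
  intro w hw
  simp only [Finset.mem_filter, Finset.mem_univ, true_and] at hw
  simp only [Red, Finset.mem_filter, Finset.mem_univ, true_and]
  exact ((cyc_iff w).1 hw).1

theorem lower {m k : ℕ} :
    (Red m k).card * (2 * m - 2) ≤ Nat.card {w : Word m (k + 2) // CycRed w} := by
  rw [Nat.card_eq_fintype_card, Fintype.card_subtype]
  have h1 : ((Red m k).sigma fun w => Finset.univ.filter fun a : Ltr m =>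
      a ≠ linv (w (Fin.last k)) ∧ a ≠ linv (w 0)).card ≤
      (Finset.univ.filter fun w : Word m (k + 2) => CycRed w).card := by
    refine Finset.card_le_card_of_injOn
      (fun x => (Fin.snoc (α := fun _ => Ltr m) x.1 x.2 : Word m (k + 2))) ?_ ?_
    · intro x hx
      simp only [Finset.coe_sigma, Set.mem_sigma_iff, Finset.mem_coe, Finset.mem_filter,
        Finset.mem_univ, true_and] at hx
      obtain ⟨h1, h2, h3⟩ := hx
      simp only [Finset.coe_filter, Finset.mem_univ, true_and, Set.mem_ofPred_eq]
      rw [cyc_iff]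
      have h4 := (snoc_red x.1 x.2).2 ⟨h1, h2⟩
      simp only [Red, Finset.mem_filter, Finset.mem_univ, true_and] at h4
      refine ⟨h4, ?_⟩
      have h5 : (Fin.snoc (α := fun _ => Ltr m) x.1 x.2 : Word m (k + 2)) 0 = x.1 0 := by
        have h6 : (0 : Fin (k + 2)) = Fin.castSucc (0 : Fin (k + 1)) := rfl
        rw [h6, Fin.snoc_castSucc]
      rw [h5, Fin.snoc_last]
      intro h6
      apply h3
      rw [h6, linv_linv]
    · intro x _ y _ h
      have h2 := congrArg (fun w : Word m (k + 2) => Fin.init w) h
      have h3 := congrArg (fun w : Word m (k + 2) => w (Fin.last _)) h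
      simp only [Fin.init_snoc, Fin.snoc_last] at h2 h3
      rcases x with ⟨x1, x2⟩
      rcases y with ⟨y1, y2⟩
      simp only at h2 h3
      subst h2
      subst h3
      rfl
  refine le_trans ?_ h1
  rw [Finset.card_sigma, ← smul_eq_mul]
  refine Finset.card_nsmul_le_sum _ _ _ ?_
  intro w _
  have h2 : ((Finset.univ.erase (linv (w (Fin.last k)))).erase (linv (w 0))) ⊆
      Finset.univ.filter fun a : Ltr m => a ≠ linv (w (Fin.last k)) ∧ a ≠ linv (w 0) := by
    intro a ha
    simp only [Finset.mem_erase, Finset.mem_univ, and_true] at ha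
    simp only [Finset.mem_filter, Finset.mem_univ, true_and]
    exact ⟨ha.2, ha.1⟩
  refine le_trans ?_ (Finset.card_le_card h2)
  have h3 := Finset.pred_card_le_card_erase
    (s := Finset.univ.erase (linv (w (Fin.last k)))) (a := linv (w 0))
  have h4 : (Finset.univ.erase (linv (w (Fin.last k)))).card = 2 * m - 1 := by
    rw [Finset.card_erase_of_mem (Finset.mem_univ _), Finset.card_univ, card_ltr]
  rw [h4] at h3
  omega

end CARD

open CARD in
theorem t_CARD : S_CARD := by
  intro m l hm hl
  obtain ⟨k, rfl⟩ : ∃ k, l = k + 1 := ⟨l - 1, by omega⟩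
  obtain ⟨c, rfl⟩ : ∃ c, m = c + 2 := ⟨m - 2, by omega⟩
  have e1 : 2 * (c + 2) - 1 = 2 * c + 3 := by omega
  refine ⟨?_, ?_⟩
  · rcases k with _ | k
    · have h1 : Nat.card {w : Word (c + 2) 1 // CycRed w} = 2 * (c + 2) := by
        rw [Nat.card_eq_fintype_card, Fintype.card_subtype]
        have h2 : (Finset.univ.filter fun w : Word (c + 2) 1 => CycRed w) = Finset.univ := by
          ext w
          simp only [Finset.mem_filter, Finset.mem_univ, true_and, iff_true]
          intro i h
          have h3 : finRotate 1 i = i := Subsingleton.elim _ _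
          have h4 := congrArg Prod.snd h
          rw [h3] at h4
          simp [linv] at h4
        rw [h2, Finset.card_univ, Fintype.card_fun, card_ltr]
        simp
      show (2 * (c + 2) - 1) ^ 1 ≤ 2 * Nat.card {w : Word (c + 2) 1 // CycRed w}
      rw [h1, pow_one]
      omega
    · have h1 := lower (m := c + 2) (k := k)
      rw [red_card] at h1
      refine le_trans ?_ (Nat.mul_le_mul_left 2 h1)
      have e2 : 2 * (c + 2) - 2 = 2 * c + 2 := by omega
      rw [e1, e2, pow_succ, pow_succ]
      have h2 : (2 * c + 3) * (2 * c + 3) ≤ 2 * (2 * (c + 2) * (2 * c + 2)) := by nlinarith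
      calc (2 * c + 3) ^ k * (2 * c + 3) * (2 * c + 3)
          = (2 * c + 3) ^ k * ((2 * c + 3) * (2 * c + 3)) := by ring
        _ ≤ (2 * c + 3) ^ k * (2 * (2 * (c + 2) * (2 * c + 2))) := Nat.mul_le_mul_left _ h2
        _ = 2 * (2 * (c + 2) * (2 * c + 3) ^ k * (2 * c + 2)) := by ring
  · refine le_trans upper ?_
    rw [red_card, e1, pow_succ]
    have h2 : 2 * (c + 2) ≤ 2 * (2 * c + 3) := by omega
    calc 2 * (c + 2) * (2 * c + 3) ^ k ≤ 2 * (2 * c + 3) * (2 * c + 3) ^ k :=
          Nat.mul_le_mul_right _ h2
      _ = 2 * ((2 * c + 3) ^ k * (2 * c + 3)) := by ring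

end RGD
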