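import Pool.Agent.RGD.Stmts

/-!
# MP_0a3593_al: the number of words of length `l` in the normal closure (module CNT)
-/

set_option autoImplicit false

namespace RGD

namespace CNT

variable {m l : ℕ} [NeZero l]

theorem ofNat_mod (t : ℕ) : Fin.ofNat l (t % l) = Fin.ofNat l t := by
  apply Fin.ext
  simp [Fin.ofNat]

theorem per_mod (w : Word m l) (t : ℕ) : per w (t % l) = per w t := by
  unfold per
  rw [ofNat_mod]

theorem per_congr (w : Word m l) {s t : ℕ} (h : s % l = t % l) : per w s = per w t := by
  rw [← per_mod w s, ← per_mod w t, h]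

theorem per_val (w : Word m l) (i : Fin l) : per w i.val = w i := by
  unfold per
  congr 1
  apply Fin.ext
  simp [Fin.ofNat, Nat.mod_eq_of_lt i.isLt]

theorem rot_ofNat (t : ℕ) : finRotate l (Fin.ofNat l t) = Fin.ofNat l (t + 1) := by
  obtain ⟨n, rfl⟩ : ∃ n, l = n + 1 := ⟨l - 1, by have := NeZero.pos l; omega⟩
  rw [finRotate_succ_apply]
  apply Fin.ext
  simp [Fin.ofNat, Fin.val_add]

theorem per_rot (w : Word m l) (i : Fin l) : w (finRotate l i) = per w (i.val + 1) := by
  unfold per
  rw [← rot_ofNat]
  congr 2
  apply Fin.ext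
  simp [Fin.ofNat, Nat.mod_eq_of_lt i.isLt]

theorem per_last (w : Word m l) : w ((finRotate l).symm 0) = per w (l - 1) := by
  have h : (finRotate l).symm 0 = Fin.ofNat l (l - 1) := by
    rw [Equiv.symm_apply_eq, rot_ofNat]
    have hl := NeZero.pos l
    apply Fin.ext
    have e : l - 1 + 1 = l := by omega
    simp [Fin.ofNat, e]
  rw [h]
  rfl

theorem per_succ_ne (w : Word m l) (h : CycRed w) (t : ℕ) : per w (t + 1) ≠ linv (per w t) := by
  unfold per
  rw [← rot_ofNat]
  exact h _

theorem cycRed_of (w : Word m l) (h : ∀ t, per w (t + 1) ≠ linv (per w t)) : CycRed w := by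
  intro i
  rw [per_rot w i, ← per_val w i]
  have h1 := h i.val
  rwa [per_val w i] at h1 ⊢

theorem linv_linv (a : Ltr m) : linv (linv a) = a := by
  obtain ⟨i, b⟩ := a
  simp [linv]

theorem ext_per {w w' : Word m l} (h : ∀ t, t < l → per w t = per w' t) : w = w' := by
  funext i
  rw [← per_val w i, ← per_val w' i]
  exact h _ i.isLt

/-- rotation -/
def shf (w : Word m l) (q : ℕ) : Word m l := fun i => per w (q + i.val)

/-- rotation of the inverse word -/
def ivs (w : Word m l) (q : ℕ) : Word m l := fun i => linv (per w (q + (l - i.val)))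

theorem per_shf (w : Word m l) (q t : ℕ) : per (shf w q) t = per w (q + t) := by
  change per w (q + (Fin.ofNat l t).val) = _
  apply per_congr
  simp [Fin.ofNat]

theorem per_ivs (w : Word m l) (q t : ℕ) : per (ivs w q) t = linv (per w (q + (l - t % l))) := rfl

theorem per_ivs_lt (w : Word m l) (q t : ℕ) (h : t < l) :
    per (ivs w q) t = linv (per w (q + (l - t))) := by
  rw [per_ivs, Nat.mod_eq_of_lt h]

theorem cyc_shf (w : Word m l) (h : CycRed w) (q : ℕ) : CycRed (shf w q) := by
  apply cycRed_of
  intro t
  rw [per_shf, per_shf]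
  exact per_succ_ne w h (q + t)

theorem cyc_ivs (w : Word m l) (h : CycRed w) (q : ℕ) : CycRed (ivs w q) := by
  apply cycRed_of
  intro t
  rw [per_ivs, per_ivs, linv_linv]
  have hl := NeZero.pos l
  have ha : t % l < l := Nat.mod_lt _ hl
  by_cases h1 : t % l + 1 < l
  · have h2 : (t + 1) % l = t % l + 1 := by
      rw [Nat.add_mod, Nat.mod_eq_of_lt (show 1 < l by omega), Nat.mod_eq_of_lt h1]
    rw [h2]
    have h3 : q + (l - t % l) = q + (l - (t % l + 1)) + 1 := by omega
    rw [h3]
    exact fun e => per_succ_ne w h _ e.symm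
  · have h2 : (t + 1) % l = 0 := by
      have h3 : t % l + 1 = l := by omega
      have h4 : (t + 1) % l = (t % l + 1) % l := by simp [Nat.add_mod]
      rw [h4, h3, Nat.mod_self]
    rw [h2]
    have h3 : q + (l - t % l) = q + 1 := by omega
    rw [h3, Nat.sub_zero]
    have h4 : per w (q + l) = per w q := per_congr w (by simp)
    rw [h4]
    exact fun e => per_succ_ne w h _ e.symm

theorem el_shf_one (w : Word m l) (N : Subgroup (FreeGroup (Fin m))) [N.Normal] (h : el w ∈ N) :
    el (shf w 1) ∈ N := by
  obtain ⟨n, rfl⟩ : ∃ n, l = n + 1 := ⟨l - 1, by have := NeZero.pos l; omega⟩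
  have h1 : List.ofFn w = w 0 :: List.ofFn (fun i : Fin n => w i.succ) := List.ofFn_succ
  have h2 : List.ofFn (shf w 1) = List.ofFn (fun i : Fin n => w i.succ) ++ [w 0] := by
    rw [List.ofFn_succ']
    have e1 : (fun i : Fin n => shf w 1 i.castSucc) = fun i : Fin n => w i.succ := by
      funext i
      change per w (1 + i.castSucc.val) = _
      rw [← per_val w i.succ]
      congr 1
      simp [Nat.add_comm]
    have e2 : shf w 1 (Fin.last n) = w 0 := by
      change per w (1 + (Fin.last n).val) = _
      rw [← per_val w 0]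
      apply per_congr
      simp [Nat.add_comm]
    rw [e1, e2, List.concat_eq_append]
  have h3 : el (shf w 1) = (FreeGroup.mk [w 0])⁻¹ * el w * (FreeGroup.mk [w 0])⁻¹⁻¹ := by
    unfold el
    rw [h1, h2, inv_inv, ← FreeGroup.mul_mk]
    have h4 : FreeGroup.mk (w 0 :: List.ofFn (fun i : Fin n => w i.succ)) =
        FreeGroup.mk [w 0] * FreeGroup.mk (List.ofFn (fun i : Fin n => w i.succ)) := by
      rw [FreeGroup.mul_mk]
      rfl
    rw [h4]
    group
  rw [h3]
  exact Subgroup.Normal.conj_mem inferInstance _ h _

theorem el_shf (w : Word m l) (N : Subgroup (FreeGroup (Fin m))) [N.Normal] (h : el w ∈ N)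
    (q : ℕ) : el (shf w q) ∈ N := by
  induction q with
  | zero =>
    have : shf w 0 = w := by
      apply ext_per
      intro t _
      rw [per_shf, Nat.zero_add]
    rw [this]
    exact h
  | succ q ih =>
    have : shf w (q + 1) = shf (shf w q) 1 := by
      apply ext_per
      intro t _
      rw [per_shf, per_shf, per_shf, Nat.add_assoc]
    rw [this]
    exact el_shf_one _ N ih

theorem el_ivs (w : Word m l) (N : Subgroup (FreeGroup (Fin m))) [N.Normal] (h : el w ∈ N)
    (q : ℕ) : el (ivs w q) ∈ N := by
  have h1 := N.inv_mem (el_shf w N h (q + 1))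
  have h2 : (el (shf w (q + 1)))⁻¹ = el (ivs w q) := by
    unfold el
    rw [FreeGroup.inv_mk]
    congr 1
    unfold FreeGroup.invRev
    apply List.ext_getElem
    · simp
    · intro i h3 h4
      have hi : i < l := by simpa using h4
      rw [List.getElem_reverse, List.getElem_map, List.getElem_ofFn, List.getElem_ofFn]
      simp only [List.length_map, List.length_ofFn]
      change linv (per w (q + 1 + (l - 1 - i))) = linv (per w (q + (l - i)))
      have h5 : q + 1 + (l - 1 - i) = q + (l - i) := by omega
      rw [h5]
  rw [← h2]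
  exact h1

/-- the map -/
def f {n : ℕ} (r : Fin n → Word m l) :
    (Fin n × Fin l) ⊕ (Fin n × Fin l) → Word m l
  | Sum.inl z => shf (r z.1) (z.2.val + 1)
  | Sum.inr z => ivs (r z.1) z.2.val

end CNT

open CNT in
theorem t_CNT : S_CNT := by
  intro m l n _ r hr hs x y
  have hl := NeZero.pos l
  have hN : ∀ j, el (r j) ∈ Subgroup.normalClosure (rels r) := fun j =>
    Subgroup.subset_normalClosure ⟨j, rfl⟩
  -- the map on the subtypes
  let A := {z : Fin n × Fin l // r z.1 z.2 = linv y ∧ r z.1 (finRotate l z.2) = x}
  let B := {z : Fin n × Fin l // r z.1 z.2 = linv x ∧ r z.1 (finRotate l z.2) = y}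
  let W := {w : Word m l // CycRed w ∧ el w ∈ Subgroup.normalClosure (rels r) ∧ w 0 = x ∧
      w ((finRotate l).symm 0) = linv y}
  have p0 : ∀ w : Word m l, w 0 = per w 0 := fun w => by
    rw [← per_val w 0]
    rfl
  let F : A ⊕ B → W := fun s => match s with
    | Sum.inl z => ⟨shf (r z.1.1) (z.1.2.val + 1), cyc_shf _ (hr _) _, el_shf _ _ (hN _) _, by
        rw [p0 (shf _ _), per_shf, Nat.add_zero, ← per_rot]
        exact z.2.2, by
        rw [per_last (shf _ _), per_shf]
        refine Eq.trans ?_ z.2.1
        rw [← per_val (r z.1.1) z.1.2]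
        apply per_congr
        have : z.1.2.val + 1 + (l - 1) = z.1.2.val + l := by omega
        rw [this]
        simp⟩
    | Sum.inr z => ⟨ivs (r z.1.1) z.1.2.val, cyc_ivs _ (hr _) _, el_ivs _ _ (hN _) _, by
        rw [p0 (ivs _ _), per_ivs_lt _ _ _ hl, Nat.sub_zero]
        have e : per (r z.1.1) (z.1.2.val + l) = r z.1.1 z.1.2 := by
          rw [← per_val (r z.1.1) z.1.2]
          exact per_congr _ (by simp)
        rw [e, z.2.1, linv_linv], by
        rw [per_last (ivs _ _), per_ivs_lt _ _ _ (by omega)]
        have e : z.1.2.val + (l - (l - 1)) = z.1.2.val + 1 := by omega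
        rw [e, ← per_rot, z.2.2]⟩
  have hF : Function.Bijective F := by
    constructor
    · rintro (⟨⟨j, k⟩, hz⟩ | ⟨⟨j, k⟩, hz⟩) (⟨⟨j', k'⟩, hz'⟩ | ⟨⟨j', k'⟩, hz'⟩) h
      · have h1 : shf (r j) (k.val + 1) = shf (r j') (k'.val + 1) := congrArg Subtype.val h
        have h2 := hs.fwd j j' (k.val + 1) (k'.val + 1) (fun t => by
          rw [← per_shf, ← per_shf, h1])
        obtain ⟨e1, e2⟩ := h2
        have e3 : k = k' := by
          apply Fin.ext
          have h3 := k.isLt
          have h4 := k'.isLt
          have h5 : k.val % l = k'.val % l := Nat.ModEq.add_right_cancel' 1 e2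
          rwa [Nat.mod_eq_of_lt h3, Nat.mod_eq_of_lt h4] at h5
        subst e1
        subst e3
        rfl
      · exfalso
        have h1 : shf (r j) (k.val + 1) = ivs (r j') k'.val := congrArg Subtype.val h
        obtain ⟨t, ht, h2⟩ := hs.bwd j j' (k.val + 1) k'.val
        apply h2
        rw [← per_shf, h1, per_ivs_lt _ _ _ ht]
      · exfalso
        have h1 : ivs (r j) k.val = shf (r j') (k'.val + 1) := congrArg Subtype.val h
        obtain ⟨t, ht, h2⟩ := hs.bwd j' j (k'.val + 1) k.val
        apply h2
        rw [← per_shf, ← h1, per_ivs_lt _ _ _ ht]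
      · have h1 : ivs (r j) k.val = ivs (r j') k'.val := congrArg Subtype.val h
        have h2 := hs.fwd j j' k.val k'.val (fun t => by
          -- `s` in `[1, l]`, `s = t` mod `l`
          obtain ⟨i, hi, e⟩ : ∃ i, i < l ∧ (l - i) % l = t % l := by
            by_cases h3 : t % l = 0
            · exact ⟨0, hl, by rw [Nat.sub_zero, Nat.mod_self, h3]⟩
            · refine ⟨l - t % l, by omega, ?_⟩
              have h4 := Nat.mod_lt t hl
              have h5 : l - (l - t % l) = t % l := by omega
              rw [h5, Nat.mod_mod]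
          have h6 : per (ivs (r j) k.val) i = per (ivs (r j') k'.val) i := by rw [h1]
          rw [per_ivs_lt _ _ _ hi, per_ivs_lt _ _ _ hi] at h6
          have h7 := congrArg linv h6
          rw [linv_linv, linv_linv] at h7
          have e1 : per (r j) (k.val + t) = per (r j) (k.val + (l - i)) :=
            per_congr _ (Nat.ModEq.add_left _ e.symm)
          have e2 : per (r j') (k'.val + t) = per (r j') (k'.val + (l - i)) :=
            per_congr _ (Nat.ModEq.add_left _ e.symm)
          rw [e1, e2, h7])
        obtain ⟨e1, e2⟩ := h2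
        have e3 : k = k' := by
          apply Fin.ext
          rwa [Nat.mod_eq_of_lt k.isLt, Nat.mod_eq_of_lt k'.isLt] at e2
        subst e1
        subst e3
        rfl
    · rintro ⟨w, hc, hw, h0, h1⟩
      obtain ⟨_, j, q, h | h⟩ := hs.cls l w le_rfl hc hw
      · -- a rotation of a relator
        let k : Fin l := ⟨(q + (l - 1)) % l, Nat.mod_lt _ hl⟩
        have hk : ∀ t, per (r j) (k.val + 1 + t) = per (r j) (q + t) := by
          intro t
          apply per_congr
          apply Nat.ModEq.add_right
          change ((q + (l - 1)) % l + 1) % l = q % l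
          rw [Nat.mod_add_mod]
          have : q + (l - 1) + 1 = q + l := by omega
          rw [this]
          simp
        have hw' : w = shf (r j) (k.val + 1) := by
          apply ext_per
          intro t _
          rw [per_shf, h, hk]
        have z1 : r j k = linv y := by
          rw [← h1, per_last w, h, ← per_val (r j) k]
          apply per_congr
          change (q + (l - 1)) % l % l = _
          rw [Nat.mod_mod]
        have z2 : r j (finRotate l k) = x := by
          rw [← h0, p0 w, h, per_rot (r j) k, ← Nat.add_zero (k.val + 1), hk]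
        exact ⟨Sum.inl ⟨(j, k), z1, z2⟩, Subtype.ext hw'.symm⟩
      · let k : Fin l := ⟨q % l, Nat.mod_lt _ hl⟩
        have hk : ∀ t, per (r j) (k.val + t) = per (r j) (q + t) := by
          intro t
          apply per_congr
          apply Nat.ModEq.add_right
          exact Nat.mod_mod _ _
        have hw' : w = ivs (r j) k.val := by
          apply ext_per
          intro t ht
          rw [per_ivs_lt _ _ _ ht, h t ht, hk]
        have z1 : r j k = linv x := by
          rw [← h0, p0 w, h 0 hl, linv_linv, Nat.sub_zero, ← per_val (r j) k]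
          apply per_congr
          change q % l % l = (q + l) % l
          simp
        have z2 : r j (finRotate l k) = y := by
          have e : per w (l - 1) = linv y := by rw [← per_last w]; exact h1
          rw [h (l - 1) (by omega)] at e
          have e' := congrArg linv e
          rw [linv_linv, linv_linv] at e'
          rw [← e', per_rot (r j) k, hk]
          congr 2
          omega
        exact ⟨Sum.inr ⟨(j, k), z1, z2⟩, Subtype.ext hw'.symm⟩
  have hcard : Nat.card W = Nat.card (A ⊕ B) := (Nat.card_congr (Equiv.ofBijective F hF)).symm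
  change Nat.card W = Nat.card A + Nat.card B
  rw [hcard, Nat.card_sum]

end RGD
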