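import Pool.Agent.RGD.Stmts
import Pool.Agent.Olsh.Tree2

/-!
# MP_0a3593_al: the axes are a rotating family (module CONE)
-/

set_option autoImplicit false

namespace RGD

open Pool.Agent.Olsh

namespace CONE

/-- a point of a segment is on the segment between nearby points -/
theorem bt_move {V : Type} {d : V → V → ℕ} (hd : IsGM d) (hh : Hyp d 0) {A B A' z : V}
    (hz : Bt d A z B) (h : d A A' ≤ d A z) : Bt d A' z B := by
  unfold Bt at *
  have t1 := hd.tri A' z B
  have c1 := hd.comm z A'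
  have c2 := hd.comm B A'
  rcases hh A z B A' with h1 | h1
  · omega
  · have h2 : d z A' = 0 := by omega
    have h3 := hd.eq_of_zero h2
    subst h3
    rw [hd.self]
    omega

variable {m l n : ℕ} [NeZero l]

theorem td_line (hT : S_TREE) (hL : S_LINE) (w : Word m l) (hw : CycRed w)
    (x : FreeGroup (Fin m)) (s t : ℤ) :
    td (x * line w s) (x * line w t) = (t - s).natAbs := by
  rw [(hT m).2.2.1]
  exact (hL m l w hw).2.2.2.2.2.1 s t

/-- axes are convex -/
theorem conv (hT : S_TREE) (hL : S_LINE) (w : Word m l) (hw : CycRed w)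
    (x : FreeGroup (Fin m)) (s t : ℤ) (z : FreeGroup (Fin m))
    (hz : Bt td (x * line w s) z (x * line w t)) : ∃ u : ℤ, z = x * line w u := by
  have hd := (hT m).1
  have hh := (hT m).2.1
  have e := td_line hT hL w hw x
  have hz' := hz
  unfold Bt at hz'
  have e1 := e s t
  have key : ∀ u : ℤ, (u - s).natAbs = td (x * line w s) z →
      (u - s).natAbs + (t - u).natAbs = (t - s).natAbs → z = x * line w u := by
    intro u h1 h2
    refine (bt_unique hd hh (p := x * line w s) (q := x * line w t) ?_ hz ?_).symm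
    · unfold Bt
      rw [e, e, e]
      exact h2
    · rw [e]
      exact h1
  by_cases h : s ≤ t
  · exact ⟨s + td (x * line w s) z, key _ (by omega) (by omega)⟩
  · exact ⟨s - td (x * line w s) z, key _ (by omega) (by omega)⟩

/-- the overlap of two different axes -/
theorem overlap (hT : S_TREE) (hL : S_LINE) (hA : S_AXOV) (P η1 : ℕ)
    (r : Fin n → Word m l) (hr : ∀ j, CycRed (r j)) (hS : SC r P) (hP : 1 ≤ P)
    (x x' : FreeGroup (Fin m)) (i j : Fin n) (v w : FreeGroup (Fin m)) (a b a' b' : ℤ)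
    (h1 : td v (x * line (r i) a) ≤ η1) (h2 : td w (x * line (r i) b) ≤ η1)
    (h3 : td v (x' * line (r j) a') ≤ η1) (h4 : td w (x' * line (r j) b') ≤ η1)
    (h : P + 6 * η1 + 1 < td v w) :
    i = j ∧ ∃ k : ℤ, ∀ u : ℤ, x * line (r i) u = x' * line (r j) (u + k * l) := by
  have hd := (hT m).1
  have hh := (hT m).2.1
  have e := td_line hT hL (r i) (hr i) x
  have e' := td_line hT hL (r j) (hr j) x'
  obtain ⟨-, hA1⟩ : True ∧ _ := ⟨trivial, (hA m l n P r hr hS hP).1⟩
  set v1 := x * line (r i) a with hv1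
  set w1 := x * line (r i) b with hw1
  set v2 := x' * line (r j) a' with hv2
  set w2 := x' * line (r j) b' with hw2
  have t1 := hd.tri v v1 w
  have t2 := hd.tri v1 w1 w
  have t3 := hd.tri v1 v v2
  have t4 := hd.tri w1 w w2
  have c1 := hd.comm w1 w
  have c2 := hd.comm v1 v
  have d1 : P + 4 * η1 + 1 < td v1 w1 := by omega
  obtain ⟨z1, hz1, hz1'⟩ := hd.exists_bt v1 w1 (2 * η1) (by omega)
  obtain ⟨z2, hz2, hz2'⟩ := hd.exists_bt v1 w1 (2 * η1 + P) (by omega)
  have m1 : Bt td v2 z1 w2 := by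
    have q1 : Bt td v2 z1 w1 := bt_move hd hh hz1 (by omega)
    have q2 : Bt td w2 z1 v2 := by
      refine bt_move hd hh (hd.bt_symm q1) ?_
      have q3 := hz1
      unfold Bt at q3
      have q4 := hd.comm z1 w1
      omega
    exact hd.bt_symm q2
  have m2 : Bt td v2 z2 w2 := by
    have q1 : Bt td v2 z2 w1 := bt_move hd hh hz2 (by omega)
    have q2 : Bt td w2 z2 v2 := by
      refine bt_move hd hh (hd.bt_symm q1) ?_
      have q3 := hz2
      unfold Bt at q3
      have q4 := hd.comm z2 w1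
      omega
    exact hd.bt_symm q2
  obtain ⟨c, hc⟩ := conv hT hL (r i) (hr i) x a b z1 hz1
  obtain ⟨c', hc'⟩ := conv hT hL (r i) (hr i) x a b z2 hz2
  obtain ⟨g, hg⟩ := conv hT hL (r j) (hr j) x' a' b' z1 m1
  obtain ⟨g', hg'⟩ := conv hT hL (r j) (hr j) x' a' b' z2 m2
  have f1 : td v1 z1 = (c - a).natAbs := by rw [hc, hv1, e]
  have f2 : td v1 z2 = (c' - a).natAbs := by rw [hc', hv1, e]
  have f3 : td z1 w1 = (b - c).natAbs := by rw [hc, hw1, e]
  have f4 : td z2 w1 = (b - c').natAbs := by rw [hc', hw1, e]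
  have f5 : td v1 w1 = (b - a).natAbs := by rw [hv1, hw1, e]
  have f6 : td z1 z2 = (c' - c).natAbs := by rw [hc, hc', e]
  have f7 : td z1 z2 = (g' - g).natAbs := by rw [hg, hg', e']
  unfold Bt at hz1 hz2
  have f8 : (c' - c).natAbs = P := by omega
  have f9 : (g' - g).natAbs = P := by omega
  have k1 : x * line (r i) c = x' * line (r j) g := by rw [← hc, ← hg]
  have k2 : x * line (r i) c' = x' * line (r j) g' := by rw [← hc', ← hg']
  by_cases p1 : c ≤ c'
  · have p3 : c' = c + P := by omega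
    by_cases p2 : g ≤ g'
    · have p4 : g' = g + P := by omega
      rw [p3, p4] at k2
      obtain ⟨q1, k, -, q2⟩ := (hA1 x x' i j c g).1 k1 k2
      exact ⟨q1, k, q2⟩
    · exfalso
      have p4 : g = g' + P := by omega
      rw [p4] at k1
      rw [p3] at k2
      exact (hA1 x x' i j c g').2 ⟨k1, k2⟩
  · have p3 : c = c' + P := by omega
    by_cases p2 : g ≤ g'
    · exfalso
      have p4 : g' = g + P := by omega
      rw [p4] at k2
      rw [p3] at k1
      exact (hA1 x x' i j c' g).2 ⟨k2, k1⟩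
    · have p4 : g = g' + P := by omega
      rw [p3, p4] at k1
      obtain ⟨q1, k, -, q2⟩ := (hA1 x x' i j c' g').1 k2 k1
      exact ⟨q1, k, q2⟩

omit [NeZero l] in
theorem smul_val (r : Fin n → Word m l) (g : FreeGroup (Fin m)) (s : AxT r) :
    (g • s).1 = (fun y => g * y) '' s.1 := rfl

/-- stabilisers of axes -/
theorem stab (hA : S_AXOV) (P : ℕ)
    (r : Fin n → Word m l) (hr : ∀ j, CycRed (r j)) (hS : SC r P) (hP : 1 ≤ P)
    (x : FreeGroup (Fin m)) (j : Fin n) (s : AxT r)
    (hs : s.1 = Set.range fun t : ℤ => x * line (r j) t) (g : FreeGroup (Fin m)) (hg : g • s = s) :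
    ∃ k : ℤ, g = x * el (r j) ^ k * x⁻¹ := by
  refine (hA m l n P r hr hS hP).2 g x j ?_
  intro t
  have h1 : g * (x * line (r j) t) ∈ (g • s).1 := by
    rw [smul_val]
    exact ⟨_, by rw [hs]; exact ⟨t, rfl⟩, rfl⟩
  rw [hg, hs] at h1
  obtain ⟨t', ht'⟩ := h1
  exact ⟨t', ht'.symm⟩

/-- the conjugate of a relator fixes the axis -/
theorem conj_fix (hL : S_LINE) (r : Fin n → Word m l) (hr : ∀ j, CycRed (r j))
    (x : FreeGroup (Fin m)) (j : Fin n) (s : AxT r)
    (hs : s.1 = Set.range fun t : ℤ => x * line (r j) t) :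
    (x * el (r j) * x⁻¹) • s = s := by
  have e : ∀ t : ℤ, x * el (r j) * x⁻¹ * (x * line (r j) t) = x * line (r j) (t + l) := by
    intro t
    have h := (hL m l (r j) (hr j)).2.2.1 t 1
    rw [one_mul, zpow_one] at h
    rw [h]
    group
  apply Subtype.ext
  rw [smul_val, hs]
  ext y
  constructor
  · rintro ⟨_, ⟨t, rfl⟩, rfl⟩
    exact ⟨t + l, (e t).symm⟩
  · rintro ⟨t, rfl⟩
    refine ⟨_, ⟨t - l, rfl⟩, ?_⟩
    show x * el (r j) * x⁻¹ * (x * line (r j) (t - l)) = x * line (r j) t
    rw [e, sub_add_cancel]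

end CONE

open CONE in
theorem t_CONE : M_CONE := by
  intro hT hL hA m l n P u η1 _ r hr hS hP hu hu2
  have hd := (hT m).1
  have hh := (hT m).2.1
  constructor
  · refine { gm := hd, hyp := hh.mono (Nat.zero_le _), ne := ?_, qc := ?_, ov := ?_, isom := ?_,
             free := ?_, Ysmul := ?_, rot := ?_ }
    · rintro ⟨Y, x, j, rfl⟩
      exact ⟨_, 0, rfl⟩
    · rintro ⟨Y, x, j, rfl⟩ y hy y' hy' z hz
      obtain ⟨s, rfl⟩ := hy
      obtain ⟨t, rfl⟩ := hy'
      obtain ⟨a, ha⟩ := conv hT hL (r j) (hr j) x s t z hz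
      refine ⟨z, ⟨a, ha.symm⟩, ?_⟩
      rw [hd.self]
    · rintro ⟨Y, x, i, rfl⟩ ⟨Y', x', j, rfl⟩ hst v w hv hv' hw hw'
      obtain ⟨_, ⟨a, rfl⟩, h1⟩ := hv
      obtain ⟨_, ⟨a', rfl⟩, h3⟩ := hv'
      obtain ⟨_, ⟨b, rfl⟩, h2⟩ := hw
      obtain ⟨_, ⟨b', rfl⟩, h4⟩ := hw'
      by_contra hcon
      have h5 : P + 6 * η1 + 1 < td v w := by
        by_contra h6
        apply hcon
        have h7 : 100 * td v w ≤ 100 * (P + 6 * η1 + 1) := Nat.mul_le_mul_left _ (by omega)
        exact h7.trans hu2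
      obtain ⟨h6, k, h7⟩ := overlap hT hL hA P η1 r hr hS hP x x' i j v w a b a' b' h1 h2 h3 h4 h5
      apply hst
      apply Subtype.ext
      show (Set.range fun t : ℤ => x * line (r i) t) = Set.range fun t : ℤ => x' * line (r j) t
      ext y
      constructor
      · rintro ⟨t, rfl⟩
        exact ⟨t + k * l, (h7 t).symm⟩
      · rintro ⟨t, rfl⟩
        refine ⟨t - k * l, ?_⟩
        show x * line (r i) (t - k * l) = x' * line (r j) t
        rw [h7, sub_add_cancel]
    · intro g v w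
      exact (hT m).2.2.1 g v w
    · intro g v h
      have h1 : g * v = v := h
      exact mul_eq_right.1 h1
    · intro g s v hv
      exact ⟨v, hv, rfl⟩
    · rintro ⟨Y, x, j, rfl⟩ g hg hg1 y hy
      obtain ⟨t, rfl⟩ := hy
      obtain ⟨k, rfl⟩ := stab hA P r hr hS hP x j _ rfl g hg
      have hk : k ≠ 0 := by
        rintro rfl
        apply hg1
        simp
      have e : (x * el (r j) ^ k * x⁻¹) • (x * line (r j) t) = x * line (r j) (t + k * l) := by
        have h := (hL m l (r j) (hr j)).2.2.1 t k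
        rw [h, smul_eq_mul]
        group
      show l ≤ td (x * line (r j) t) ((x * el (r j) ^ k * x⁻¹) • (x * line (r j) t))
      rw [e, td_line hT hL (r j) (hr j)]
      have e2 : (t + k * l - t).natAbs = k.natAbs * l := by
        rw [add_sub_cancel_left, Int.natAbs_mul, Int.natAbs_natCast]
      rw [e2]
      have h3 : 1 ≤ k.natAbs := by omega
      exact Nat.le_mul_of_pos_left _ h3
  · apply le_antisymm
    · unfold KK
      rw [Subgroup.closure_le]
      rintro g ⟨_, ⟨s, rfl⟩, hg⟩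
      have hg' : g • s = s := by
        have h1 : (Sum.inr (g • s) : FreeGroup (Fin m) ⊕ AxT r) = Sum.inr s := hg
        exact Sum.inr_injective h1
      obtain ⟨x, j, hs⟩ := s.2
      obtain ⟨k, rfl⟩ := stab hA P r hr hS hP x j s hs g hg'
      have h2 : el (r j) ∈ Subgroup.normalClosure (rels r) :=
        Subgroup.subset_normalClosure ⟨j, rfl⟩
      have h3 : el (r j) ^ k ∈ Subgroup.normalClosure (rels r) := Subgroup.zpow_mem _ h2 k
      exact Subgroup.normalClosure_normal.conj_mem _ h3 x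
    · unfold Subgroup.normalClosure
      rw [Subgroup.closure_le]
      intro g hg
      rw [Group.mem_conjugatesOfSet_iff] at hg
      obtain ⟨a, ⟨j, rfl⟩, ha⟩ := hg
      obtain ⟨x, hx⟩ := isConj_iff.1 ha
      apply Subgroup.subset_closure
      let s : AxT r := ⟨Set.range fun t : ℤ => x * line (r j) t, x, j, rfl⟩
      refine ⟨Sum.inr s, ⟨_, rfl⟩, ?_⟩
      rw [← hx]
      have e : (x * el (r j) * x⁻¹) • s = s := conj_fix hL r hr x j s rfl
      show (Sum.inr ((x * el (r j) * x⁻¹) • s) : FreeGroup (Fin m) ⊕ AxT r) = Sum.inr s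
      rw [e]

end RGD
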