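import Mathlib

/-!
# MP_0a3593_al: Cayley graphs of random groups have discrete automorphism groups. Definitions

Words of length `l` are functions `Fin l → Fin m × Bool`; the letter `(i, true)` is the generator
`a_i`, `(i, false)` its inverse.
-/

set_option autoImplicit false

namespace RGD

/-- the letters `a_i`, `a_i⁻¹` -/
abbrev Ltr (m : ℕ) := Fin m × Bool

/-- the inverse letter -/
def linv {m : ℕ} (a : Ltr m) : Ltr m := (a.1, !a.2)

/-- words of length `l` -/
abbrev Word (m l : ℕ) := Fin l → Ltr m

/-- cyclically reduced words: no letter is followed, cyclically, by its inverse -/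
def CycRed {m l : ℕ} (w : Word m l) : Prop := ∀ i, w (finRotate l i) ≠ linv (w i)

instance {m l : ℕ} : DecidablePred (@CycRed m l) := fun w => by
  unfold CycRed
  infer_instance

/-- the element of the free group given by a word -/
def el {m l : ℕ} (w : Word m l) : FreeGroup (Fin m) := FreeGroup.mk (List.ofFn w)

/-- the set of relators of a family of words -/
def rels {m l n : ℕ} (r : Fin n → Word m l) : Set (FreeGroup (Fin m)) :=
  Set.range fun j => el (r j)

/-- the Cayley graph, with respect to `a_1, …, a_m`, of the group with these generators and the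
relators `R` -/
def Cay {m : ℕ} (R : Set (FreeGroup (Fin m))) : SimpleGraph (PresentedGroup R) where
  Adj g h := g ≠ h ∧ ∃ i : Fin m, h = g * PresentedGroup.of i ∨ g = h * PresentedGroup.of i
  symm := ⟨by
    rintro g h ⟨h1, i, h2 | h2⟩
    · exact ⟨h1.symm, i, Or.inr h2⟩
    · exact ⟨h1.symm, i, Or.inl h2⟩⟩
  loopless := ⟨fun g h => h.1 rfl⟩

/-- every automorphism that fixes two adjacent vertices is the identity -/
def Rigid {V : Type} (X : SimpleGraph V) : Prop :=
  ∀ v w : V, X.Adj v w → ∀ φ : X ≃g X, φ v = v → φ w = w → ∀ u, φ u = u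

/-- the automorphism group is discrete in the topology of pointwise convergence: the pointwise
stabiliser of some finite set of vertices is trivial -/
def DiscAut {V : Type} (X : SimpleGraph V) : Prop :=
  ∃ F : Set V, F.Finite ∧ ∀ φ : X ≃g X, (∀ v ∈ F, φ v = v) → ∀ v, φ v = v

/-- the probability of `Q` for `n` independent uniformly distributed cyclically reduced words of
length `l` -/
noncomputable def prob (m l n : ℕ) (Q : (Fin n → Word m l) → Prop) : ℝ :=
  (Nat.card {r : Fin n → Word m l // (∀ j, CycRed (r j)) ∧ Q r} : ℝ) /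
    Nat.card {r : Fin n → Word m l // ∀ j, CycRed (r j)}

open Filter Topology

/-- the main theorem: `N l` relators of length `l`, `1 ≤ N l ≤ (2m-1)^(d0 l)`. This contains the
few-relator model (`N l = k`) and the density model for densities `d ≤ d0`. -/
def MainStmt : Prop :=
  ∃ d0 : ℝ, 0 < d0 ∧ ∀ (m : ℕ) (N : ℕ → ℕ), 2 ≤ m →
    (∀ᶠ l : ℕ in atTop, 1 ≤ N l ∧ (N l : ℝ) ≤ ((2 * m - 1 : ℕ) : ℝ) ^ (d0 * l)) →
    Tendsto (fun l : ℕ => prob m l (N l) fun r => Rigid (Cay (rels r)) ∧ DiscAut (Cay (rels r)))
      atTop (𝓝 1)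

/-! ### Definitions for the proof -/

/-- the letter at the place `t` of the periodic word `w w w …` -/
def per {m l : ℕ} [NeZero l] (w : Word m l) (t : ℕ) : Ltr m := w (Fin.ofNat l t)

/-- small cancellation: subwords of length `P` of the periodic words occur only once -/
structure SC {m l n : ℕ} [NeZero l] (r : Fin n → Word m l) (P : ℕ) : Prop where
  fwd : ∀ i j p q, (∀ t, t < P → per (r i) (p + t) = per (r j) (q + t)) → i = j ∧ p % l = q % l
  bwd : ∀ i j p q, ∃ t, t < P ∧ per (r i) (p + t) ≠ linv (per (r j) (q + (P - 1 - t)))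

/-- what we need from small cancellation theory -/
structure Short {m l n : ℕ} [NeZero l] (r : Fin n → Word m l) : Prop where
  cls : ∀ (k : ℕ) [NeZero k] (w : Word m k), k ≤ l → CycRed w →
    el w ∈ Subgroup.normalClosure (rels r) → k = l ∧ ∃ j q,
      (∀ t, per w t = per (r j) (q + t)) ∨ ∀ t, t < l → per w t = linv (per (r j) (q + (l - t)))
  fwd : ∀ i j p q, (∀ t, per (r i) (p + t) = per (r j) (q + t)) → i = j ∧ p % l = q % l
  bwd : ∀ i j p q, ∃ t, t < l ∧ per (r i) (p + t) ≠ linv (per (r j) (q + (l - t)))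

/-- the number of occurrences of `a b` (cyclically) in the words of the family -/
noncomputable def cnt {m l n : ℕ} (r : Fin n → Word m l) (a b : Ltr m) : ℕ :=
  Nat.card {x : Fin n × Fin l // r x.1 x.2 = a ∧ r x.1 (finRotate l x.2) = b}

/-- the number of relator cycles through the corner `x`, `y` -/
noncomputable def cc {m l n : ℕ} (r : Fin n → Word m l) (x y : Ltr m) : ℕ :=
  cnt r (linv y) x + cnt r (linv x) y

/-- the corners at a letter have different numbers -/
def DC {m l n : ℕ} (r : Fin n → Word m l) : Prop :=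
  ∀ x y y' : Ltr m, y ≠ x → y' ≠ x → y ≠ y' → cc r x y ≠ cc r x y'

/-- the word metric of the free group -/
def td {m : ℕ} (x y : FreeGroup (Fin m)) : ℕ := FreeGroup.norm (x⁻¹ * y)

/-- the letter at the place `t ∈ ℤ` of the periodic word -/
def perZ {m l : ℕ} [NeZero l] (w : Word m l) (t : ℤ) : Ltr m := per w (t % l).toNat

/-- the axis of `el w` -/
def line {m l : ℕ} (w : Word m l) (t : ℤ) : FreeGroup (Fin m) :=
  (el w) ^ (t / l) * FreeGroup.mk ((List.ofFn w).take (t % l).toNat)

/-- the set of axes of the conjugates of the relators -/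
def AxT {m l n : ℕ} (r : Fin n → Word m l) : Type :=
  {Y : Set (FreeGroup (Fin m)) // ∃ (x : FreeGroup (Fin m)) (j : Fin n),
    Y = Set.range fun t : ℤ => x * line (r j) t}

instance {m l n : ℕ} (r : Fin n → Word m l) : MulAction (FreeGroup (Fin m)) (AxT r) where
  smul g s := ⟨(fun y => g * y) '' s.1, by
    obtain ⟨x, j, h⟩ := s.2
    refine ⟨g * x, j, ?_⟩
    rw [h, ← Set.range_comp]
    congr 1
    ext t
    simp [mul_assoc]⟩
  one_smul s := by
    apply Subtype.ext
    show (fun y => 1 * y) '' s.1 = s.1
    simp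
  mul_smul g h s := by
    apply Subtype.ext
    show (fun y => g * h * y) '' s.1 = (fun y => g * y) '' ((fun y => h * y) '' s.1)
    rw [← Set.image_comp]
    congr 1
    ext y
    simp [mul_assoc]

/-- the letter `a` as an element of the presented group -/
def gl {m : ℕ} (R : Set (FreeGroup (Fin m))) (a : Ltr m) : PresentedGroup R :=
  PresentedGroup.mk R (FreeGroup.mk [a])

/-- closed walks of length `l` without backtracking through `q`, `v`, `p` -/
def CW {V : Type} (X : SimpleGraph V) (l : ℕ) [NeZero l] (v p q : V) : Set (Fin l → V) :=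
  {f | f 0 = v ∧ f (finRotate l 0) = p ∧ f ((finRotate l).symm 0) = q ∧
    (∀ i, X.Adj (f i) (f (finRotate l i))) ∧ ∀ i, f (finRotate l (finRotate l i)) ≠ f i}

/-- `p` is a subword of a periodic relator or of its inverse -/
def IsSub {m l n : ℕ} [NeZero l] (r : Fin n → Word m l) (p : List (Ltr m)) : Prop :=
  ∃ j q, (∀ (t : ℕ) (h : t < p.length), p[t] = per (r j) (q + t)) ∨
    ∀ (t : ℕ) (h : t < p.length), p[t] = linv (per (r j) (q + (p.length - 1 - t)))

/-- the contribution of a pair of consecutive letters to `cc x y - cc x y'` -/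
def hh {m : ℕ} (x y y' a b : Ltr m) : ℤ :=
  (if a = linv y ∧ b = x then 1 else 0) + (if a = linv x ∧ b = y then 1 else 0) -
    (if a = linv y' ∧ b = x then 1 else 0) - (if a = linv x ∧ b = y' then 1 else 0)

/-- the contribution of a word -/
def dlt {m l : ℕ} (x y y' : Ltr m) (w : Word m l) : ℤ :=
  ∑ i, hh x y y' (w i) (w (finRotate l i))

/-- the same sum for a list, not cyclic -/
def hsum {m : ℕ} (x y y' : Ltr m) : List (Ltr m) → ℤ
  | a :: b :: L => hh x y y' a b + hsum x y y' (b :: L)
  | _ => 0

/-- reduced lists -/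
def RedL {m : ℕ} (L : List (Ltr m)) : Prop := List.IsChain (fun a b => b ≠ linv a) L

end RGD
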