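import Pool.Agent.RGD.Stmts

/-!
# Module EXT: words with a prescribed window
-/

set_option autoImplicit false

namespace RGD

namespace EXT

theorem per_succ {m l : ℕ} [NeZero l] {w : Word m l} (hw : CycRed w) (t : ℕ) :
    per w (t + 1) ≠ linv (per w t) := by
  have h : Fin.ofNat l (t + 1) = finRotate l (Fin.ofNat l t) := by
    rw [finRotate_apply]
    apply Fin.ext
    simp [Fin.val_add, Nat.add_mod]
  unfold per
  rw [h]
  exact hw _

theorem exists_place (l q : ℕ) (i : Fin l) : ∃ t, t < l ∧ (q + t) % l = i.val := by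
  have hl : 0 < l := lt_of_le_of_lt (Nat.zero_le _) i.isLt
  refine ⟨(i.val + (l - q % l)) % l, Nat.mod_lt _ hl, ?_⟩
  have h1 : q % l < l := Nat.mod_lt _ hl
  have h2 : l * (q / l) + q % l = q := Nat.div_add_mod q l
  have h3 : q + (i.val + (l - q % l)) = i.val + l * (q / l + 1) := by
    rw [Nat.mul_add, Nat.mul_one]
    omega
  rw [Nat.add_mod_mod, h3, Nat.add_mul_mod_self_left, Nat.mod_eq_of_lt i.isLt]

theorem ext_of_per {m l : ℕ} [NeZero l] {w w' : Word m l} (q : ℕ)
    (h : ∀ t, t < l → per w (q + t) = per w' (q + t)) : w = w' := by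
  funext i
  obtain ⟨t, ht, hti⟩ := exists_place l q i
  have h1 : Fin.ofNat l (q + t) = i := Fin.ext hti
  have h2 := h t ht
  unfold per at h2
  rw [h1] at h2
  exact h2

theorem card_ne (m : ℕ) (c : Ltr m) : Fintype.card {a : Ltr m // a ≠ c} = 2 * m - 1 := by
  have h1 : Fintype.card {a : Ltr m // ¬ a = c} = Fintype.card (Ltr m) -
      Fintype.card {a : Ltr m // a = c} := Fintype.card_subtype_compl _
  have h2 : Fintype.card (Ltr m) = 2 * m := by
    rw [Fintype.card_prod, Fintype.card_fin, Fintype.card_bool, Nat.mul_comm]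
  have h3 : Fintype.card {a : Ltr m // a = c} = 1 := Fintype.card_subtype_eq c
  rw [h2, h3] at h1
  exact h1

theorem exists_enc (m : ℕ) (hm : 2 ≤ m) (b : Ltr m) : ∃ e : Ltr m → Fin (2 * m - 1),
    ∀ a a', a ≠ linv b → a' ≠ linv b → e a = e a' → a = a' := by
  classical
  have e := Fintype.equivFinOfCardEq (card_ne m (linv b))
  refine ⟨fun a => if h : a ≠ linv b then e ⟨a, h⟩ else ⟨0, by omega⟩, ?_⟩
  intro a a' h h' heq
  simp only [ne_eq, h, h', not_false_eq_true, dite_true] at heq
  have := e.injective heq
  exact congrArg Subtype.val this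

end EXT

open EXT in
/-- **EXT** -/
theorem t_EXT : S_EXT := by
  intro m l P q _ c hm hP hPl
  choose e he using fun b : Ltr m => exists_enc m hm b
  let F : {w : Word m l // CycRed w ∧ ∀ t, t < P → per w (q + t) = c t} →
      (Fin (l - P) → Fin (2 * m - 1)) :=
    fun w t => e (per w.1 (q + P + t.val - 1)) (per w.1 (q + P + t.val))
  have hF : Function.Injective F := by
    rintro ⟨w, hw, hwc⟩ ⟨w', hw', hwc'⟩ h
    apply Subtype.ext
    show w = w'
    apply ext_of_per q
    intro t
    induction t using Nat.strong_induction_on with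
    | _ t ih =>
      intro ht
      rcases Nat.lt_or_ge t P with h1 | h1
      · rw [hwc t h1, hwc' t h1]
      · have h2 := congrFun h ⟨t - P, by omega⟩
        have h3 : q + P + (t - P) = (q + (t - 1)) + 1 := by omega
        have h4 : q + P + (t - P) - 1 = q + (t - 1) := by omega
        have h5 : q + t = (q + (t - 1)) + 1 := by omega
        simp only [F] at h2
        rw [h4, h3, ← ih (t - 1) (by omega) (by omega)] at h2
        rw [h5]
        refine he (per w (q + (t - 1))) _ _ (per_succ hw _) ?_ h2
        rw [ih (t - 1) (by omega) (by omega)]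
        exact per_succ hw' _
  have h := Nat.card_le_card_of_injective F hF
  rw [Nat.card_fun, Nat.card_fin, Nat.card_fin] at h
  exact h

end RGD
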