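import Pool.Agent.RGD.Stmts

/-!
# MP_0a3593_al, module GL: elementary facts on the Cayley graph
-/

set_option autoImplicit false

namespace RGD

namespace GLx

variable {m : ℕ}

lemma linv_ne (x : Ltr m) : x ≠ linv x := by
  intro h
  have := congrArg Prod.snd h
  simp [linv] at this

lemma linv_inj {x y : Ltr m} (h : linv x = linv y) : x = y := by
  have h1 := congrArg Prod.fst h
  have h2 := congrArg Prod.snd h
  simp only [linv] at h1 h2
  exact Prod.ext h1 (by simpa using h2)

lemma linv_linv (x : Ltr m) : linv (linv x) = x := by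
  simp [linv]

lemma mk_mul_linv (x : Ltr m) :
    (FreeGroup.mk [x] : FreeGroup (Fin m)) * FreeGroup.mk [linv x] = 1 := by
  have h : (FreeGroup.mk [linv x] : FreeGroup (Fin m)) = (FreeGroup.mk [x])⁻¹ := by
    rw [FreeGroup.inv_mk]
    simp [FreeGroup.invRev, linv]
  rw [h, mul_inv_cancel]

lemma mk_linv (x : Ltr m) :
    (FreeGroup.mk [linv x] : FreeGroup (Fin m)) = (FreeGroup.mk [x])⁻¹ :=
  (inv_eq_of_mul_eq_one_right (mk_mul_linv x)).symm

lemma gl_inv (R : Set (FreeGroup (Fin m))) (x : Ltr m) : gl R x * gl R (linv x) = 1 := by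
  unfold gl
  rw [← map_mul, mk_mul_linv, map_one]

lemma gl_linv (R : Set (FreeGroup (Fin m))) (x : Ltr m) : gl R (linv x) = (gl R x)⁻¹ :=
  (inv_eq_of_mul_eq_one_right (gl_inv R x)).symm

lemma gl_of (R : Set (FreeGroup (Fin m))) (i : Fin m) :
    gl R (i, true) = PresentedGroup.of i := rfl

lemma gl_of_inv (R : Set (FreeGroup (Fin m))) (i : Fin m) :
    gl R (i, false) = (PresentedGroup.of i)⁻¹ := by
  rw [← gl_of R i, ← gl_linv]
  rfl

end GLx

open GLx

theorem t_GL : S_GL := by
  intro m l n _ r hS hl
  have hone : ∀ x : Ltr m, gl (rels r) x ≠ 1 := by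
    intro x hx
    have h1 : FreeGroup.mk [x] ∈ Subgroup.normalClosure (rels r) := by
      unfold gl at hx
      exact PresentedGroup.mk_eq_one_iff.1 hx
    have h2 : CycRed (fun _ => x : Word m 1) := fun i => linv_ne x
    have h3 : el (fun _ => x : Word m 1) = FreeGroup.mk [x] := by
      simp [el]
    have h4 := hS.cls 1 (fun _ => x : Word m 1) (by omega) h2 (by rw [h3]; exact h1)
    omega
  have hinj : ∀ x y : Ltr m, gl (rels r) x = gl (rels r) y → x = y := by
    intro x y hxy
    by_contra hne
    have h0 : gl (rels r) (linv x) * gl (rels r) y = 1 := by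
      rw [gl_linv, hxy, inv_mul_cancel]
    have h1 : FreeGroup.mk [linv x, y] ∈ Subgroup.normalClosure (rels r) := by
      unfold gl at h0
      rw [← map_mul, FreeGroup.mul_mk] at h0
      exact PresentedGroup.mk_eq_one_iff.1 h0
    have h2 : CycRed (![linv x, y] : Word m 2) := by
      intro i
      fin_cases i
      · show y ≠ linv (linv x)
        rw [linv_linv]
        exact fun h => hne h.symm
      · show linv x ≠ linv y
        exact fun h => hne (linv_inj h)
    have h3 : el (![linv x, y] : Word m 2) = FreeGroup.mk [linv x, y] := by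
      simp [el]
    have h4 := hS.cls 2 (![linv x, y] : Word m 2) (by omega) h2 (by rw [h3]; exact h1)
    omega
  refine ⟨hone, hinj, fun x => gl_inv _ x, ?_, ?_⟩
  · intro g h
    constructor
    · rintro ⟨_, i, h1 | h1⟩
      · exact ⟨(i, true), by rw [gl_of]; exact h1⟩
      · refine ⟨(i, false), ?_⟩
        rw [gl_of_inv, h1, mul_inv_cancel_right]
    · rintro ⟨x, rfl⟩
      refine ⟨?_, ?_⟩
      · intro h1
        exact hone x (mul_eq_left.1 h1.symm)
      · obtain ⟨i, b⟩ := x
        cases b
        · refine ⟨i, Or.inr ?_⟩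
          rw [gl_of_inv, inv_mul_cancel_right]
        · exact ⟨i, Or.inl (by rw [gl_of])⟩
  · intro p h1 hs g
    obtain ⟨w, rfl⟩ := PresentedGroup.mk_surjective (rels r) g
    have key : ∀ L : List (Ltr m), p (PresentedGroup.mk (rels r) (FreeGroup.mk L)) := by
      intro L
      induction L using List.reverseRecOn with
      | nil =>
        have : (FreeGroup.mk ([] : List (Ltr m)) : FreeGroup (Fin m)) = 1 := rfl
        rw [this, map_one]
        exact h1
      | append_singleton L x ih =>
        rw [← FreeGroup.mul_mk, map_mul]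
        exact hs _ x ih
    have h2 := key w.toWord
    rwa [FreeGroup.mk_toWord] at h2

end RGD
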