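import Pool.Agent.RGD.Stmts
import Pool.Agent.Olsh.PSA
import Pool.Agent.Olsh.CHAIN
import Pool.Agent.Olsh.PROJ
import Pool.Agent.Olsh.CONEGM
import Pool.Agent.Olsh.CONEA
import Pool.Agent.Olsh.CONEPS
import Pool.Agent.Olsh.CONEISO
import Pool.Agent.Olsh.CONEROT
import Pool.Agent.Olsh.IP
import Pool.Agent.Olsh.KFREE
import Pool.Agent.Olsh.ANGX

/-!
# MP_0a3593_al: module GREEN

A nontrivial element of the normal closure of the relators contains almost a whole relator.
-/

set_option autoImplicit false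

namespace RGD

open Pool.Agent.Olsh

namespace GREEN

/-- In a tree: if `a + b + c ≤ D + E`, then the middle part of `[y, y']` is on `[p, g]`. -/
theorem common {V : Type} (d : V → V → ℕ) (hd : IsGM d) (hh : Hyp d 0) (E : ℕ) (p g y y' : V)
    (h1 : d p y + d y y' + d y' g ≤ d p g + E) (h2 : 3 * E < d y y') :
    ∃ z z', Bt d y z y' ∧ Bt d y z' y' ∧ Bt d p z g ∧ Bt d z z' g ∧ d z z' + 2 * E = d y y' := by
  obtain ⟨z, hz, hzE⟩ := hd.exists_bt y y' E (by omega)
  obtain ⟨z', hz', hzE'⟩ := hd.exists_bt z y' (d z y' - E) (by omega)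
  unfold Bt at *
  have c1 := hd.comm z y
  have c2 := hd.comm y' y
  have c3 := hd.comm y' z
  have c4 := hd.comm y' z'
  have c5 := hd.comm z' z
  have t1 := hd.tri y z z'
  have t2 := hd.tri y z' y'
  have t3 := hd.tri p y z
  have t4 := hd.tri p z y'
  have t5 := hd.tri p y' g
  have t6 := hd.tri p z g
  have t7 := hd.tri z z' g
  have t8 := hd.tri z' y' g
  have t9 := hd.tri z y' g
  have t10 := hd.tri p y y'
  have e1 : d z' y' = E := by omega
  have e2 : d z z' + 2 * E = d y y' := by omega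
  have k1 := hh p y z y'
  have k2 : d p y' = d p z + d z y' := by
    rcases k1 with k | k <;> omega
  have k3 := hh p z y' g
  have k4 : d p z + d z g = d p g := by
    rcases k3 with k | k <;> omega
  have k5 := hh z z' y' g
  have k6 : d z z' + d z' g = d z g := by
    rcases k5 with k | k <;> omega
  exact ⟨z, z', by omega, by omega, k4, k6, e2⟩

theorem per_congr {m l : ℕ} [NeZero l] (w : Word m l) (a b : ℕ) (h : a % l = b % l) :
    per w a = per w b := by
  unfold per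
  congr 1
  apply Fin.ext
  simpa [Fin.ofNat] using h

theorem perZ_add {m l : ℕ} [NeZero l] (w : Word m l) (s : ℤ) (i : ℕ) :
    perZ w (s + i) = per w ((s % l).toNat + i) := by
  unfold perZ
  apply per_congr
  have hl : (0 : ℤ) < l := by exact_mod_cast Nat.pos_of_ne_zero (NeZero.ne l)
  have h1 : 0 ≤ (s + i) % l := Int.emod_nonneg _ hl.ne'
  have h2 : 0 ≤ s % l := Int.emod_nonneg _ hl.ne'
  have h3 : (((((s + i) % l).toNat % l : ℕ)) : ℤ) = ((((s % l).toNat + i) % l : ℕ) : ℤ) := by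
    push_cast
    rw [Int.toNat_of_nonneg h1, Int.toNat_of_nonneg h2]
    simp
  exact_mod_cast h3

/-- the word of a segment of an axis is a subword of a relator or of its inverse -/
theorem isSub_line (h : S_LINE) {m l n : ℕ} [NeZero l] (r : Fin n → Word m l)
    (hr : ∀ j, CycRed (r j)) (x : FreeGroup (Fin m)) (j : Fin n) (s t : ℤ) :
    IsSub r ((x * line (r j) s)⁻¹ * (x * line (r j) t)).toWord := by
  have hL := h m l (r j) (hr j)
  obtain ⟨-, -, -, -, h5, -, -⟩ := hL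
  have e : (x * line (r j) s)⁻¹ * (x * line (r j) t) = (line (r j) s)⁻¹ * line (r j) t := by
    group
  rw [e]
  rcases le_total s t with hst | hst
  · obtain ⟨k, hk⟩ := Int.eq_ofNat_of_zero_le (sub_nonneg.mpr hst)
    have ht : t = s + k := by omega
    subst ht
    rw [h5 s k]
    refine ⟨j, (s % l).toNat, Or.inl ?_⟩
    intro i hi
    rw [List.getElem_map, List.getElem_range]
    exact perZ_add (r j) s i
  · obtain ⟨k, hk⟩ := Int.eq_ofNat_of_zero_le (sub_nonneg.mpr hst)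
    have ht : s = t + k := by omega
    subst ht
    have e2 : (line (r j) (t + k))⁻¹ * line (r j) t =
        ((line (r j) t)⁻¹ * line (r j) (t + k))⁻¹ := by
      group
    rw [e2, FreeGroup.toWord_inv, h5 t k]
    refine ⟨j, (t % l).toNat, Or.inr ?_⟩
    intro i hi
    have hk2 : (FreeGroup.invRev ((List.range k).map fun i : ℕ => perZ (r j) (t + i))).length
        = k := by
      simp [FreeGroup.invRev_length]
    have key : ∀ (q : ℕ) (hq : q < k), q = k - 1 - i →
        (FreeGroup.invRev ((List.range k).map fun i : ℕ => perZ (r j) (t + i)))[i] =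
          linv (perZ (r j) (t + q)) := by
      intro q hq hqi
      unfold FreeGroup.invRev
      rw [List.getElem_reverse, List.getElem_map, List.getElem_map, List.getElem_range]
      simp only [List.length_map, List.length_range]
      rw [← hqi]
      rfl
    rw [hk2] at hi ⊢
    rw [key (k - 1 - i) (by omega) rfl, perZ_add]

end GREEN

open GREEN

theorem t_GREEN : M_GREEN := by
  intro hT hL hA hC
  have cPROJ : Stmt_PROJ := PROJ
  have cGM : Stmt_CONEGM := CONEGM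
  have cA : Stmt_CONEA := CONEA cGM
  have cPSA : Stmt_PSA := PSA
  have cPS : Stmt_CONEPS := CONEPS cPROJ cGM cA
  have cROT : Stmt_CONEROT := CONEROT CONEISO cGM
  have cIP : Stmt_IP := IP cPSA (CHAIN cPSA)
  have cKF : Stmt_KFREE := KFREE cPSA cIP
  have cX : Stmt_ANGX := ANGX cPSA cPROJ
  obtain ⟨η1, C, hC1, hPS⟩ := cPS 0
  obtain ⟨C', hX⟩ := cX 0 η1 C
  obtain ⟨A, hAd⟩ : ∃ A, A = 600 * η1 + C + C' + 4 * dl + 201 := ⟨_, rfl⟩
  refine ⟨2000 * C * A + 12 * C * A + 3 * C' * A + 1, by omega, ?_⟩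
  intro m l n P _ r hr hsc hP hl g hg hg1
  obtain ⟨u, hu⟩ : ∃ u, u = 100 * (P + 6 * η1 + 1) + C + C' + 4 * dl + 1 := ⟨_, rfl⟩
  have huA : u ≤ A * (P + 1) := by
    rw [hu, hAd]
    nlinarith
  obtain ⟨hG, hK⟩ := hC m l n P u η1 r hr hsc hP (by omega) (by omega)
  have hCP : ConeP (td (m := m)) u (fun s : AxT r => s.1) 0 η1 C :=
    hPS _ _ _ u _ hG.toConeH (by omega)
  have b1 : C * u ≤ C * A * (P + 1) := by
    rw [mul_assoc]
    exact Nat.mul_le_mul_left _ huA
  have b2 : C' * u ≤ C' * A * (P + 1) := by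
    rw [mul_assoc]
    exact Nat.mul_le_mul_left _ huA
  have b3 : 2000 * (C * A * (P + 1)) + 12 * (C * A * (P + 1)) + 3 * (C' * A * (P + 1)) + (P + 1)
      ≤ l := by
    refine le_trans (le_of_eq ?_) hl
    ring
  have hR := cROT 0 η1 C (FreeGroup (Fin m)) _ _ _ u l _ hG hCP hC1 (by
    rw [mul_assoc]
    omega)
  obtain ⟨-, hK2, -⟩ := cKF _ _ _ _ _ _ _ hR
  have hw : (Sum.inl 1 : FreeGroup (Fin m) ⊕ AxT r) ∉ apx (FreeGroup (Fin m)) (AxT r) := by
    rintro ⟨s, hs⟩
    cases hs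
  obtain ⟨s0, ⟨s, rfl⟩, hs⟩ := hK2 (Sum.inl 1) hw g (by rw [hK]; exact hg) hg1
  have hact : g • (Sum.inl 1 : FreeGroup (Fin m) ⊕ AxT r) = Sum.inl g := by
    rw [Sum.smul_inl, smul_eq_mul, mul_one]
  rw [hact] at hs
  obtain ⟨-, -, hps, -⟩ := cPSA _ _ _ _ _ hR.toIsPS (Sum.inr s) ⟨s, rfl⟩
  obtain ⟨y, hy, y', hy', hyy⟩ := hps (Sum.inl 1) (Sum.inl g) (by simp) (by simp)
  have hne : ∀ s : AxT r, ((fun s : AxT r => s.1) s).Nonempty := hG.ne
  obtain ⟨-, hadj, -⟩ := cGM _ _ (td (m := m)) u (fun s : AxT r => s.1) hG.gm (by omega) hne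
  have hbase : ∀ y : FreeGroup (Fin m) ⊕ AxT r,
      cd (td (m := m)) u (fun s : AxT r => s.1) y (Sum.inr s) = 1 →
      ∃ y0 ∈ s.1, y = Sum.inl y0 := by
    intro y hy
    have h := (hadj y (Sum.inr s)).mp hy
    rcases y with y0 | t
    · exact ⟨y0, h, rfl⟩
    · exact False.elim h
  obtain ⟨y0, hy0, rfl⟩ := hbase y hy.1
  obtain ⟨y1, hy1, rfl⟩ := hbase y' hy'.1
  have hyd : td y0 y1 = ang (cd (td (m := m)) u (fun s : AxT r => s.1)) (cdX (td (m := m)))
      (Sum.inr s) (Sum.inl 1) (Sum.inl g) := hyy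
  rw [← hyd] at hs
  have hX2 := (hX _ _ _ u _ hCP (by omega) s 1 g).2 y0 y1 hy hy' (by omega)
  obtain ⟨hgm, hhyp, -, hword⟩ := hT m
  obtain ⟨z, z', hz, hz', hz1, hz2, hzz⟩ := common (td (m := m)) hgm hhyp (C' * u) 1 g y0 y1 hX2
    (by omega)
  have hzY : ∀ z, Bt (td (m := m)) y0 z y1 → z ∈ s.1 := by
    intro z hz
    obtain ⟨w, hw, hzw⟩ := hG.qc s y0 hy0 y1 hy1 z hz
    have : z = w := hgm.eq_of_zero (by omega)
    rw [this]
    exact hw
  have hsz := hzY z hz
  have hsz' := hzY z' hz'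
  obtain ⟨x, j, hxj⟩ := s.2
  rw [hxj] at hsz hsz'
  obtain ⟨σ, hσ⟩ := hsz
  obtain ⟨τ, hτ⟩ := hsz'
  have w1 := hword 1 g z hz1
  have w2 := hword z g z' hz2
  rw [inv_one, one_mul, one_mul, w2] at w1
  refine ⟨z.toWord, (z⁻¹ * z').toWord, (z'⁻¹ * g).toWord, ?_, ?_, ?_⟩
  · rw [w1, List.append_assoc]
  · have hlen : (z⁻¹ * z').toWord.length = td z z' := rfl
    rw [hlen]
    have b4 : (2000 * C * A + 12 * C * A + 3 * C' * A + 1) * (P + 1) =
        2000 * (C * A * (P + 1)) + 12 * (C * A * (P + 1)) + 3 * (C' * A * (P + 1)) + (P + 1) := by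
      ring
    rw [b4]
    omega
  · rw [← hσ, ← hτ]
    exact isSub_line hL r hr x j σ τ

end RGD
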