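import Pool.Agent.RGD.Stmts

/-!
# A Littlewood - Offord estimate
-/

set_option autoImplicit false

namespace RGD

open Finset

namespace LO

theorem cb (n : ℕ) : Nat.centralBinom n ^ 2 * (2 * n + 1) ≤ 16 ^ n := by
  induction n with
  | zero => simp
  | succ n ih =>
    have h1 := Nat.succ_mul_centralBinom_succ n
    have h2 : (n + 1) ^ 2 * (Nat.centralBinom (n + 1) ^ 2 * (2 * (n + 1) + 1)) ≤
        (n + 1) ^ 2 * 16 ^ (n + 1) := by
      calc (n + 1) ^ 2 * (Nat.centralBinom (n + 1) ^ 2 * (2 * (n + 1) + 1))
          = ((n + 1) * Nat.centralBinom (n + 1)) ^ 2 * (2 * n + 3) := by ring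
        _ = (2 * (2 * n + 1) * Nat.centralBinom n) ^ 2 * (2 * n + 3) := by rw [h1]
        _ = 4 * ((2 * n + 1) * (2 * n + 3)) * (Nat.centralBinom n ^ 2 * (2 * n + 1)) := by ring
        _ ≤ 4 * ((2 * n + 1) * (2 * n + 3)) * 16 ^ n := Nat.mul_le_mul_left _ ih
        _ ≤ 4 * (4 * (n + 1) ^ 2) * 16 ^ n := by
            apply Nat.mul_le_mul_right
            apply Nat.mul_le_mul_left
            nlinarith
        _ = (n + 1) ^ 2 * 16 ^ (n + 1) := by ring
    exact Nat.le_of_mul_le_mul_left h2 (by positivity)

theorem ch (t : ℕ) : (t.choose (t / 2)) ^ 2 * (t + 1) ≤ 4 ^ t := by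
  rcases Nat.even_or_odd' t with ⟨n, h | h⟩
  · subst h
    have h1 := cb n
    have h2 : 2 * n / 2 = n := by omega
    rw [h2, pow_mul]
    rw [Nat.centralBinom] at h1
    norm_num
    exact h1
  · subst h
    have h1 := cb (n + 1)
    have h2 : (2 * n + 1) / 2 = n := by omega
    rw [h2]
    have h3 : Nat.centralBinom (n + 1) = 2 * (2 * n + 1).choose n := by
      rw [Nat.centralBinom_eq_two_mul_choose]
      have e : 2 * (n + 1) = (2 * n + 1) + 1 := by ring
      rw [e, Nat.choose_succ_succ]
      have : (2 * n + 1).choose (n + 1) = (2 * n + 1).choose n := by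
        apply Nat.choose_symm_of_eq_add
        ring
      rw [this]
      ring
    rw [h3] at h1
    have h4 : 4 * (((2 * n + 1).choose n) ^ 2 * (2 * n + 1 + 1)) ≤ 4 * 4 ^ (2 * n + 1) := by
      calc 4 * (((2 * n + 1).choose n) ^ 2 * (2 * n + 1 + 1))
          ≤ (2 * (2 * n + 1).choose n) ^ 2 * (2 * (n + 1) + 1) := by
            have : (2 * (2 * n + 1).choose n) ^ 2 * (2 * (n + 1) + 1) =
              4 * (((2 * n + 1).choose n) ^ 2 * (2 * n + 1 + 1)) +
                4 * ((2 * n + 1).choose n) ^ 2 := by ring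
            omega
        _ ≤ 16 ^ (n + 1) := h1
        _ = 4 * 4 ^ (2 * n + 1) := by
            rw [show (16 : ℕ) = 4 ^ 2 by norm_num, ← pow_mul, ← pow_succ']
            congr 1
    omega

theorem small (ε : ℝ) (hε : 0 < ε) : ∃ T : ℕ, 1 ≤ T ∧ ∀ t : ℕ, T ≤ t →
    ((t.choose (t / 2) : ℕ) : ℝ) ≤ ε * 2 ^ t := by
  obtain ⟨T, hT⟩ := exists_nat_gt (1 / ε ^ 2)
  refine ⟨T + 1, by omega, fun t ht => ?_⟩
  have h1 : ((t.choose (t / 2) : ℕ) : ℝ) ^ 2 * ((t : ℝ) + 1) ≤ 4 ^ t := by exact_mod_cast ch t
  have h2 : (T : ℝ) ≤ (t : ℝ) + 1 := by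
    have : (T : ℝ) + 1 ≤ t := by exact_mod_cast ht
    linarith
  have h3 : 1 ≤ ε ^ 2 * ((t : ℝ) + 1) := by
    have : 1 < ε ^ 2 * T := by
      rw [div_lt_iff₀ (by positivity)] at hT
      linarith
    nlinarith [sq_nonneg ε]
  have h4 : ((t.choose (t / 2) : ℕ) : ℝ) ^ 2 ≤ (ε * 2 ^ t) ^ 2 := by
    have h5 : (4 : ℝ) ^ t = (2 ^ t) ^ 2 := by
      rw [← pow_mul, mul_comm, pow_mul]
      norm_num
    calc ((t.choose (t / 2) : ℕ) : ℝ) ^ 2
        ≤ ((t.choose (t / 2) : ℕ) : ℝ) ^ 2 * (ε ^ 2 * ((t : ℝ) + 1)) := by
          nlinarith [sq_nonneg ((t.choose (t / 2) : ℕ) : ℝ)]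
      _ = ε ^ 2 * (((t.choose (t / 2) : ℕ) : ℝ) ^ 2 * ((t : ℝ) + 1)) := by ring
      _ ≤ ε ^ 2 * 4 ^ t := by
          apply mul_le_mul_of_nonneg_left h1 (sq_nonneg ε)
      _ = (ε * 2 ^ t) ^ 2 := by rw [h5]; ring
  exact le_of_sq_le_sq h4 (by positivity)

section

variable {B : ℕ} {T : Type} [DecidableEq T]

/-- the places where `e` takes one of the two values -/
def J (u v e : Fin B → T) : Finset (Fin B) := univ.filter fun i => e i = u i ∨ e i = v i

/-- the rest -/
def o (u v e : Fin B → T) : Fin B → Option T := fun i => if e i = u i ∨ e i = v i then none else some (e i)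

theorem o_J {u v e e' : Fin B → T} (h : o u v e = o u v e') : J u v e = J u v e' := by
  ext i
  have := congrFun h i
  simp only [o] at this
  simp only [J, mem_filter, mem_univ, true_and]
  by_cases h1 : e i = u i ∨ e i = v i <;> by_cases h2 : e' i = u i ∨ e' i = v i <;>
    simp [h1, h2] at this ⊢

theorem o_out {u v e e' : Fin B → T} (h : o u v e = o u v e') {i : Fin B} (hi : i ∉ J u v e) :
    e i = e' i := by
  have h3 : i ∉ J u v e' := by rw [← o_J h]; exact hi
  simp only [J, mem_filter, mem_univ, true_and] at hi h3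
  have := congrFun h i
  simp only [o, if_neg hi, if_neg h3] at this
  exact Option.some.inj this

/-- the fibre has at least `2 ^ |J|` elements -/
theorem fib (E : Fin B → Finset T) (u v : Fin B → T) (huv : ∀ i, u i ≠ v i)
    (hu : ∀ i, u i ∈ E i) (hv : ∀ i, v i ∈ E i) (e0 : Fin B → T)
    (h0 : e0 ∈ Fintype.piFinset E) :
    2 ^ (J u v e0).card ≤ ((Fintype.piFinset E).filter fun e => o u v e = o u v e0).card := by
  have h1 : (univ : Finset (Finset (J u v e0))).card = 2 ^ (J u v e0).card := by
    rw [card_univ, Fintype.card_finset, Fintype.card_coe]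
  rw [← h1]
  apply Finset.card_le_card_of_injOn
    (fun S => fun i => if h : i ∈ J u v e0 then (if (⟨i, h⟩ : J u v e0) ∈ S then v i else u i)
      else e0 i)
  · intro S _
    rw [mem_coe, mem_filter]
    constructor
    · rw [Fintype.mem_piFinset]
      intro i
      by_cases h : i ∈ J u v e0
      · simp only [h, dif_pos]
        split_ifs
        · exact hv i
        · exact hu i
      · simp only [h, dif_neg, not_false_eq_true]
        exact (Fintype.mem_piFinset.1 h0) i
    · funext i
      by_cases h : i ∈ J u v e0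
      · have h2 : e0 i = u i ∨ e0 i = v i := by
          simpa only [J, mem_filter, mem_univ, true_and] using h
        simp only [o, h, dif_pos, if_pos h2]
        rw [if_pos]
        split_ifs
        · exact Or.inr rfl
        · exact Or.inl rfl
      · simp only [o, h, dif_neg, not_false_eq_true]
  · intro S _ S' _ hS
    ext ⟨i, hi⟩
    have := congrFun hS i
    simp only [hi, dif_pos] at this
    by_cases h1 : (⟨i, hi⟩ : J u v e0) ∈ S <;> by_cases h2 : (⟨i, hi⟩ : J u v e0) ∈ S'
    · simp [h1, h2]
    · rw [if_pos h1, if_neg h2] at this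
      exact absurd this.symm (huv i)
    · rw [if_neg h1, if_pos h2] at this
      exact absurd this (huv i)
    · simp [h1, h2]

/-- the antichain -/
theorem anti (E : Fin B → Finset T) (f : Fin B → T → ℤ) (u v : Fin B → T)
    (hf : ∀ i, f i (u i) < f i (v i)) (e0 : Fin B → T) (c : ℤ) :
    (((Fintype.piFinset E).filter fun e => ∑ i, f i (e i) = c).filter
      fun e => o u v e = o u v e0).card ≤
      (J u v e0).card.choose ((J u v e0).card / 2) := by
  set Q := ((Fintype.piFinset E).filter fun e => ∑ i, f i (e i) = c).filter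
      fun e => o u v e = o u v e0 with hQ
  set g : (Fin B → T) → Finset (J u v e0) := fun e => univ.filter fun i => e i.1 = v i.1 with hg
  have hQ1 : ∀ e ∈ Q, (∑ i, f i (e i) = c) ∧ o u v e = o u v e0 := by
    intro e he
    rw [hQ, mem_filter, mem_filter] at he
    exact ⟨he.1.2, he.2⟩
  have huv : ∀ i, u i ≠ v i := fun i h => by
    have := hf i
    rw [h] at this
    exact lt_irrefl _ this
  have hval : ∀ e ∈ Q, ∀ i (hi : i ∈ J u v e0), e i = if (⟨i, hi⟩ : J u v e0) ∈ g e then v i else u i := by
    intro e he i hi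
    have h1 := o_J (hQ1 e he).2
    have h2 : i ∈ J u v e := by rw [h1]; exact hi
    simp only [J, mem_filter, mem_univ, true_and] at h2
    by_cases h3 : e i = v i
    · rw [if_pos (by simp [hg, h3]), h3]
    · rw [if_neg (by simp [hg, h3])]
      exact h2.resolve_right h3
  have hinj : Set.InjOn g Q := by
    intro e he e' he' h
    funext i
    by_cases hi : i ∈ J u v e0
    · rw [hval e he i hi, hval e' he' i hi, h]
    · have h1 := (hQ1 e he).2
      have h2 := (hQ1 e' he').2
      have h3 := o_J h1
      exact o_out (h1.trans h2.symm) (by rw [h3]; exact hi)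
  have hac : IsAntichain (· ⊆ ·) ((Q.image g : Finset (Finset (J u v e0))) : Set (Finset (J u v e0))) := by
    intro A hA A' hA' hne hsub
    rw [mem_coe, mem_image] at hA hA'
    obtain ⟨e, he, rfl⟩ := hA
    obtain ⟨e', he', rfl⟩ := hA'
    have hle : ∀ i, f i (e i) ≤ f i (e' i) := by
      intro i
      by_cases hi : i ∈ J u v e0
      · rw [hval e he i hi, hval e' he' i hi]
        by_cases h1 : (⟨i, hi⟩ : J u v e0) ∈ g e
        · rw [if_pos h1, if_pos (hsub h1)]
        · rw [if_neg h1]
          split_ifs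
          · exact (hf i).le
          · exact le_rfl
      · have h1 := (hQ1 e he).2
        have h2 := (hQ1 e' he').2
        rw [o_out (h1.trans h2.symm) (by rw [o_J h1]; exact hi)]
    have hlt : ∃ i, f i (e i) < f i (e' i) := by
      by_contra hcon
      push Not at hcon
      apply hne
      apply Finset.Subset.antisymm hsub
      rintro ⟨i, hi⟩ h2
      by_contra h1
      have h3 := hcon i
      rw [hval e he i hi, hval e' he' i hi, if_neg h1, if_pos h2] at h3
      exact absurd (hf i) (not_lt.2 h3)
    obtain ⟨i, hi⟩ := hlt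
    have h4 : ∑ i, f i (e i) < ∑ i, f i (e' i) :=
      Finset.sum_lt_sum (fun i _ => hle i) ⟨i, mem_univ _, hi⟩
    rw [(hQ1 e he).1, (hQ1 e' he').1] at h4
    exact lt_irrefl _ h4
  have h5 := hac.sperner
  rw [Finset.card_image_of_injOn hinj, Fintype.card_coe] at h5
  exact h5

/-- few `e` with small `J` -/
theorem few (E : Fin B → Finset T) (u v : Fin B → T) (huv : ∀ i, u i ≠ v i)
    (hu : ∀ i, u i ∈ E i) (hv : ∀ i, v i ∈ E i) (M : ℕ) (hM : ∀ i, (E i).card ≤ M)
    (t s : ℕ) (hts : t * s ≤ B) :
    (((Fintype.piFinset E).filter fun e => (J u v e).card < t).card : ℝ) ≤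
      t * (1 - 1 / ((M : ℝ) + 1)) ^ s * (Fintype.piFinset E).card := by
  set A : ℕ → Finset (Fin B) := fun g => univ.filter fun i => g * s ≤ i.val ∧ i.val < (g + 1) * s
    with hA
  set E' : ℕ → Fin B → Finset T := fun g i => if i ∈ A g then (E i).filter fun x => x ≠ u i ∧ x ≠ v i
    else E i with hE'
  have hq : (0 : ℝ) ≤ 1 - 1 / ((M : ℝ) + 1) := by
    have : 1 / ((M : ℝ) + 1) ≤ 1 := by
      rw [div_le_one (by positivity)]
      have : (0 : ℝ) ≤ M := Nat.cast_nonneg M
      linarith
    linarith
  have h1 : ((Fintype.piFinset E).filter fun e => (J u v e).card < t) ⊆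
      (range t).biUnion fun g => Fintype.piFinset (E' g) := by
    intro e he
    rw [mem_filter] at he
    obtain ⟨he1, he2⟩ := he
    by_contra hcon
    rw [mem_biUnion] at hcon
    push Not at hcon
    have h2 : ∀ g, ∃ i : ℕ, g < t → ∃ h : i < B, (⟨i, h⟩ : Fin B) ∈ A g ∧ (⟨i, h⟩ : Fin B) ∈ J u v e := by
      intro g
      by_cases hg : g < t
      · have h3 := hcon g (mem_range.2 hg)
        rw [Fintype.mem_piFinset] at h3
        push Not at h3
        obtain ⟨i, hi⟩ := h3
        have h4 := (Fintype.mem_piFinset.1 he1) i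
        have h5 : i ∈ A g := by
          by_contra h5
          apply hi
          simp only [hE', if_neg h5]
          exact h4
        refine ⟨i.val, fun _ => ⟨i.isLt, h5, ?_⟩⟩
        simp only [hE', if_pos h5, mem_filter, not_and] at hi
        have h6 := hi h4
        simp only [J, mem_filter, mem_univ, true_and]
        by_contra h7
        push Not at h7
        exact h6 h7.1 h7.2
      · exact ⟨0, fun h => absurd h hg⟩
    choose φ hφ using h2
    have h8 : t ≤ (J u v e).card := by
      have h9 : (range t).card ≤ ((J u v e).image Fin.val).card := by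
        apply Finset.card_le_card_of_injOn φ
        · intro g hg
          rw [mem_coe, mem_range] at hg
          obtain ⟨h, -, h'⟩ := hφ g hg
          rw [mem_coe, mem_image]
          exact ⟨_, h', rfl⟩
        · intro g hg g' hg' hgg
          rw [mem_coe, mem_range] at hg hg'
          obtain ⟨h, ha, -⟩ := hφ g hg
          obtain ⟨h', ha', -⟩ := hφ g' hg'
          simp only [hA, mem_filter, mem_univ, true_and] at ha ha'
          rw [← hgg] at ha'
          by_contra hne
          rcases Nat.lt_or_gt_of_ne hne with hlt | hlt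
          · have : (g + 1) * s ≤ g' * s := Nat.mul_le_mul_right s hlt
            omega
          · have : (g' + 1) * s ≤ g * s := Nat.mul_le_mul_right s hlt
            omega
      rw [card_range] at h9
      exact h9.trans Finset.card_image_le
    omega
  have h2 : ∀ g ∈ range t, ((Fintype.piFinset (E' g)).card : ℝ) ≤
      (1 - 1 / ((M : ℝ) + 1)) ^ s * (Fintype.piFinset E).card := by
    intro g hg
    rw [mem_range] at hg
    have hAc : (A g).card = s := by
      have h3 : (A g).image Fin.val = (Finset.Ico (g * s) ((g + 1) * s)) := by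
        ext i
        simp only [hA, mem_image, mem_filter, mem_univ, true_and, mem_Ico]
        constructor
        · rintro ⟨j, hj, rfl⟩
          exact hj
        · intro hi
          have : (g + 1) * s ≤ t * s := Nat.mul_le_mul_right s hg
          exact ⟨⟨i, by omega⟩, hi, rfl⟩
      have h4 := congrArg Finset.card h3
      rw [Finset.card_image_of_injective _ Fin.val_injective, Nat.card_Ico] at h4
      rw [h4, Nat.add_mul, one_mul]
      omega
    rw [Fintype.card_piFinset, Fintype.card_piFinset]
    push_cast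
    have h5 : (1 - 1 / ((M : ℝ) + 1)) ^ s = ∏ i : Fin B, if i ∈ A g then (1 - 1 / ((M : ℝ) + 1)) else 1 := by
      rw [Finset.prod_ite, Finset.prod_const_one, mul_one, Finset.prod_const]
      congr 1
      rw [← hAc]
      congr 1
      ext i
      simp
    rw [h5, ← Finset.prod_mul_distrib]
    apply Finset.prod_le_prod
    · intro i _
      positivity
    · intro i _
      by_cases hi : i ∈ A g
      · simp only [hE', if_pos hi]
        have h6 : ((E i).filter fun x => x ≠ u i ∧ x ≠ v i).card + 1 ≤ (E i).card := by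
          have h7 : ((E i).filter fun x => x ≠ u i ∧ x ≠ v i) ⊆ (E i).erase (u i) := by
            intro x hx
            rw [mem_filter] at hx
            rw [mem_erase]
            exact ⟨hx.2.1, hx.1⟩
          have h8 := Finset.card_le_card h7
          have h9 := Finset.card_erase_add_one (hu i)
          omega
        have h7 : (((E i).filter fun x => x ≠ u i ∧ x ≠ v i).card : ℝ) + 1 ≤ (E i).card := by
          exact_mod_cast h6
        have h8 : ((E i).card : ℝ) ≤ M := by exact_mod_cast hM i
        have h9 : ((E i).card : ℝ) / ((M : ℝ) + 1) ≤ 1 := by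
          rw [div_le_one (by positivity)]
          linarith
        calc (((E i).filter fun x => x ≠ u i ∧ x ≠ v i).card : ℝ) ≤ (E i).card - 1 := by linarith
          _ ≤ (E i).card - ((E i).card : ℝ) / ((M : ℝ) + 1) := by linarith
          _ = (1 - 1 / ((M : ℝ) + 1)) * (E i).card := by ring
      · simp only [hE', if_neg hi]
        rw [one_mul]
  calc (((Fintype.piFinset E).filter fun e => (J u v e).card < t).card : ℝ)
      ≤ (((range t).biUnion fun g => Fintype.piFinset (E' g)).card : ℝ) := by
        exact_mod_cast Finset.card_le_card h1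
    _ ≤ ∑ g ∈ range t, ((Fintype.piFinset (E' g)).card : ℝ) := by
        exact_mod_cast Finset.card_biUnion_le
    _ ≤ ∑ g ∈ range t, (1 - 1 / ((M : ℝ) + 1)) ^ s * (Fintype.piFinset E).card :=
        Finset.sum_le_sum h2
    _ = t * (1 - 1 / ((M : ℝ) + 1)) ^ s * (Fintype.piFinset E).card := by
        rw [Finset.sum_const, card_range, nsmul_eq_mul]
        ring

/-- the main estimate, with `u`, `v` ordered -/
theorem main (E : Fin B → Finset T) (f : Fin B → T → ℤ) (u v : Fin B → T)
    (hu : ∀ i, u i ∈ E i) (hv : ∀ i, v i ∈ E i) (M : ℕ) (hM : ∀ i, (E i).card ≤ M)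
    (hf : ∀ i, f i (u i) < f i (v i)) (c : ℤ) (δ : ℝ) (hδ : 0 < δ) (t s : ℕ)
    (ht : ∀ k : ℕ, t ≤ k → ((k.choose (k / 2) : ℕ) : ℝ) ≤ δ * 2 ^ k) (hts : t * s ≤ B) :
    (((Fintype.piFinset E).filter fun e => ∑ i, f i (e i) = c).card : ℝ) ≤
      (δ + t * (1 - 1 / ((M : ℝ) + 1)) ^ s) * (Fintype.piFinset E).card := by
  have huv : ∀ i, u i ≠ v i := fun i h => by
    have := hf i
    rw [h] at this
    exact lt_irrefl _ this
  set P := Fintype.piFinset E with hP
  set Q := P.filter fun e => ∑ i, f i (e i) = c with hQ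
  have h1 : (Q.card : ℝ) = ∑ b ∈ P.image (o u v), ((Q.filter fun e => o u v e = b).card : ℝ) := by
    have := Finset.card_eq_sum_card_fiberwise (f := o u v) (s := Q) (t := P.image (o u v)) (by
      intro e he
      rw [mem_coe, mem_image]
      rw [hQ, mem_coe, mem_filter] at he
      exact ⟨e, he.1, rfl⟩)
    exact_mod_cast this
  have h2 : (P.card : ℝ) = ∑ b ∈ P.image (o u v), ((P.filter fun e => o u v e = b).card : ℝ) := by
    have := Finset.card_eq_sum_card_fiberwise (f := o u v) (s := P) (t := P.image (o u v)) (by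
      intro e he
      rw [mem_coe, mem_image]
      exact ⟨e, he, rfl⟩)
    exact_mod_cast this
  set P' := P.filter fun e => (J u v e).card < t with hP'
  have h3 : (P'.card : ℝ) = ∑ b ∈ P.image (o u v), ((P'.filter fun e => o u v e = b).card : ℝ) := by
    have := Finset.card_eq_sum_card_fiberwise (f := o u v) (s := P') (t := P.image (o u v)) (by
      intro e he
      rw [mem_coe, mem_image]
      rw [hP', mem_coe, mem_filter] at he
      exact ⟨e, he.1, rfl⟩)
    exact_mod_cast this
  have h4 : ∀ b ∈ P.image (o u v), ((Q.filter fun e => o u v e = b).card : ℝ) ≤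
      δ * ((P.filter fun e => o u v e = b).card : ℝ) + ((P'.filter fun e => o u v e = b).card : ℝ) := by
    intro b hb
    rw [mem_image] at hb
    obtain ⟨e0, he0, rfl⟩ := hb
    rcases Nat.lt_or_ge (J u v e0).card t with hlt | hge
    · have h5 : (Q.filter fun e => o u v e = o u v e0) ⊆ (P'.filter fun e => o u v e = o u v e0) := by
        intro e he
        rw [mem_filter] at he ⊢
        refine ⟨?_, he.2⟩
        rw [hP', mem_filter]
        refine ⟨?_, ?_⟩
        · have := he.1
          rw [hQ, mem_filter] at this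
          exact this.1
        · rw [o_J he.2]
          exact hlt
      have h6 : ((Q.filter fun e => o u v e = o u v e0).card : ℝ) ≤
          ((P'.filter fun e => o u v e = o u v e0).card : ℝ) := by
        exact_mod_cast Finset.card_le_card h5
      have h7 : 0 ≤ δ * ((P.filter fun e => o u v e = o u v e0).card : ℝ) := by positivity
      linarith
    · have h5 := anti E f u v hf e0 c
      have h6 := fib E u v huv hu hv e0 he0
      have h5' : ((Q.filter fun e => o u v e = o u v e0).card : ℝ) ≤
          (((J u v e0).card.choose ((J u v e0).card / 2) : ℕ) : ℝ) := by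
        exact_mod_cast h5
      have h6' : (2 : ℝ) ^ (J u v e0).card ≤ ((P.filter fun e => o u v e = o u v e0).card : ℝ) := by
        exact_mod_cast h6
      have h7 := ht _ hge
      have h8 : δ * 2 ^ (J u v e0).card ≤ δ * ((P.filter fun e => o u v e = o u v e0).card : ℝ) :=
        mul_le_mul_of_nonneg_left h6' hδ.le
      have h9 : (0 : ℝ) ≤ ((P'.filter fun e => o u v e = o u v e0).card : ℝ) := Nat.cast_nonneg _
      linarith
  have h5 := Finset.sum_le_sum h4
  rw [← h1, Finset.sum_add_distrib, ← Finset.mul_sum, ← h2, ← h3] at h5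
  have h6 := few E u v huv hu hv M hM t s hts
  rw [← hP, ← hP'] at h6
  linarith

end

end LO

theorem t_LO : S_LO := by
  intro M ε hε
  obtain ⟨t, ht1, ht⟩ := LO.small (ε / 2) (by positivity)
  have hq0 : (0 : ℝ) ≤ 1 - 1 / ((M : ℝ) + 1) := by
    have : 1 / ((M : ℝ) + 1) ≤ 1 := by
      rw [div_le_one (by positivity)]
      have : (0 : ℝ) ≤ M := Nat.cast_nonneg M
      linarith
    linarith
  have hq1 : 1 - 1 / ((M : ℝ) + 1) < 1 := by
    have : 0 < 1 / ((M : ℝ) + 1) := by positivity
    linarith
  have ht0 : (0 : ℝ) < t := by exact_mod_cast ht1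
  obtain ⟨s0, hs0⟩ := exists_pow_lt_of_lt_one (show 0 < ε / 2 / t by positivity) hq1
  refine ⟨t * s0, ?_⟩
  intro B T _ E f u v hB h c
  set u' : Fin B → T := fun i => if f i (u i) < f i (v i) then u i else v i with hu'
  set v' : Fin B → T := fun i => if f i (u i) < f i (v i) then v i else u i with hv'
  have h1 := LO.main E f u' v' (by
      intro i
      simp only [hu']
      split_ifs
      · exact (h i).1
      · exact (h i).2.1) (by
      intro i
      simp only [hv']
      split_ifs
      · exact (h i).2.1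
      · exact (h i).1) M (fun i => (h i).2.2.1) (by
      intro i
      simp only [hu', hv']
      by_cases h2 : f i (u i) < f i (v i)
      · rw [if_pos h2, if_pos h2]
        exact h2
      · rw [if_neg h2, if_neg h2]
        exact lt_of_le_of_ne (not_lt.1 h2) (fun e => (h i).2.2.2 e.symm)) c (ε / 2) (by positivity)
      t s0 ht hB
  have h2 : (t : ℝ) * (1 - 1 / ((M : ℝ) + 1)) ^ s0 ≤ ε / 2 := by
    have h3 : (t : ℝ) * (1 - 1 / ((M : ℝ) + 1)) ^ s0 ≤ t * (ε / 2 / t) :=
      mul_le_mul_of_nonneg_left hs0.le ht0.le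
    have h4 : (t : ℝ) * (ε / 2 / t) = ε / 2 := by field_simp
    linarith
  have h3 : (0 : ℝ) ≤ ((Fintype.piFinset E).card : ℝ) := Nat.cast_nonneg _
  calc (((Fintype.piFinset E).filter fun e => ∑ i, f i (e i) = c).card : ℝ)
      ≤ (ε / 2 + t * (1 - 1 / ((M : ℝ) + 1)) ^ s0) * (Fintype.piFinset E).card := h1
    _ ≤ ε * (Fintype.piFinset E).card := by
        apply mul_le_mul_of_nonneg_right _ h3
        linarith

end RGD
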