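import Mathlib
import Pool.Agent.RGD.Stmts

/-!
# MP_0a3593_al, module MAIN: real analysis and assembly
-/

set_option autoImplicit false

namespace RGD

open Filter Topology

namespace MAIN

/-- the complement estimate -/
theorem card_split {m l n P : ℕ} [NeZero l] (Q : (Fin n → Word m l) → Prop)
    (h : ∀ r : Fin n → Word m l, (∀ j, CycRed (r j)) → SC r P → DC r → Q r) :
    Nat.card {r : Fin n → Word m l // ∀ j, CycRed (r j)} ≤
      Nat.card {r : Fin n → Word m l // (∀ j, CycRed (r j)) ∧ Q r} +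
      (Nat.card {r : Fin n → Word m l // (∀ j, CycRed (r j)) ∧ ¬ SC r P} +
        Nat.card {r : Fin n → Word m l // (∀ j, CycRed (r j)) ∧ ¬ DC r}) := by
  have h1 : {r : Fin n → Word m l | ∀ j, CycRed (r j)} ⊆
      {r : Fin n → Word m l | (∀ j, CycRed (r j)) ∧ Q r} ∪
      ({r : Fin n → Word m l | (∀ j, CycRed (r j)) ∧ ¬ SC r P} ∪
        {r : Fin n → Word m l | (∀ j, CycRed (r j)) ∧ ¬ DC r}) := by
    intro r hr
    by_cases h2 : SC r P
    · by_cases h3 : DC r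
      · exact Or.inl ⟨hr, h r hr h2 h3⟩
      · exact Or.inr (Or.inr ⟨hr, h3⟩)
    · exact Or.inr (Or.inl ⟨hr, h2⟩)
  have h2 := Set.ncard_le_ncard h1 (Set.toFinite _)
  have h3 := Set.ncard_union_le {r : Fin n → Word m l | (∀ j, CycRed (r j)) ∧ Q r}
    ({r : Fin n → Word m l | (∀ j, CycRed (r j)) ∧ ¬ SC r P} ∪
        {r : Fin n → Word m l | (∀ j, CycRed (r j)) ∧ ¬ DC r})
  have h4 := Set.ncard_union_le {r : Fin n → Word m l | (∀ j, CycRed (r j)) ∧ ¬ SC r P}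
        {r : Fin n → Word m l | (∀ j, CycRed (r j)) ∧ ¬ DC r}
  have h5 := h2.trans (h3.trans (Nat.add_le_add_left h4 _))
  exact h5

theorem card_le {m l n : ℕ} (Q : (Fin n → Word m l) → Prop) :
    Nat.card {r : Fin n → Word m l // (∀ j, CycRed (r j)) ∧ Q r} ≤
      Nat.card {r : Fin n → Word m l // ∀ j, CycRed (r j)} := by
  have h1 : {r : Fin n → Word m l | (∀ j, CycRed (r j)) ∧ Q r} ⊆
      {r : Fin n → Word m l | ∀ j, CycRed (r j)} := fun r hr => hr.1
  exact Set.ncard_le_ncard h1 (Set.toFinite _)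

theorem card_pos {m l n : ℕ} (hm : 2 ≤ m) :
    0 < Nat.card {r : Fin n → Word m l // ∀ j, CycRed (r j)} := by
  have hne : Nonempty {r : Fin n → Word m l // ∀ j, CycRed (r j)} := by
    refine ⟨⟨fun _ _ => (⟨0, by omega⟩, true), ?_⟩⟩
    intro j i
    unfold linv
    intro hc
    have := congrArg Prod.snd hc
    exact Bool.noConfusion this
  exact Nat.card_pos

end MAIN

open MAIN

theorem t_MAIN : M_MAIN := by
  intro hShort hRig hScp hDcp
  obtain ⟨C1, hC1, hSh⟩ := hShort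
  have hC : (0 : ℝ) < C1 := by
    have : (4 : ℝ) ≤ C1 := by exact_mod_cast hC1
    linarith
  refine ⟨1 / (4 * C1), by positivity, ?_⟩
  intro m N hm hN
  set K : ℝ := ((2 * m - 1 : ℕ) : ℝ) with hK
  have hK3 : (3 : ℝ) ≤ K := by
    have : 3 ≤ 2 * m - 1 := by omega
    rw [hK]; exact_mod_cast this
  have hK0 : (0 : ℝ) < K := by linarith
  set a : ℝ := K ^ (1 / (2 * C1) : ℝ) with ha
  have ha1 : 1 < a := by
    rw [ha]
    exact Real.one_lt_rpow (by linarith) (by positivity)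
  have ha0 : 0 < a := by linarith
  have hapow : ∀ l : ℕ, a ^ l = K ^ ((l : ℝ) / (2 * C1)) := by
    intro l
    rw [ha, ← Real.rpow_natCast, ← Real.rpow_mul hK0.le]
    congr 1
    ring
  rw [Metric.tendsto_nhds]
  intro ε hε
  obtain ⟨l0, hl0⟩ := hDcp m (ε / 4) hm (by positivity)
  -- the first bad event
  have E2 : ∀ᶠ l : ℕ in atTop, 8 * K ^ 2 * ((l : ℝ) ^ 2 / a ^ l) < ε / 4 := by
    have h1 := (tendsto_pow_const_div_const_pow_of_one_lt 2 ha1).const_mul (8 * K ^ 2)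
    rw [mul_zero] at h1
    exact (tendsto_order.1 h1).2 _ (by positivity)
  filter_upwards [hN, E2, eventually_ge_atTop l0, eventually_ge_atTop (2 * C1)] with l hNl hE hll hlC
  obtain ⟨hN1, hN2⟩ := hNl
  have hlpos : 0 < l := by omega
  haveI : NeZero l := ⟨by omega⟩
  have hdiv : 2 ≤ l / C1 := by
    rw [Nat.le_div_iff_mul_le (by omega)]
    omega
  set P : ℕ := l / C1 - 1 with hP
  have hP1 : 1 ≤ P := by omega
  have hP2 : P + 1 = l / C1 := by omega
  have hPC : C1 * (P + 1) ≤ l := by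
    rw [hP2]; exact Nat.mul_div_le l C1
  have h2P : 2 * P ≤ l := by
    have : 4 * (P + 1) ≤ C1 * (P + 1) := Nat.mul_le_mul_right _ hC1
    omega
  set n := N l with hn
  have hl3 : 3 ≤ l := by omega
  -- the counting estimate
  have hsplit := card_split (m := m) (l := l) (n := n) (P := P)
    (fun r => Rigid (Cay (rels r)) ∧ DiscAut (Cay (rels r)))
    (fun r hr h1 h2 => hRig m l n r hr (hSh m l n P r hr h1 hP1 hPC) hl3 h2)
  have hle := card_le (m := m) (l := l) (n := n)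
    (fun r => Rigid (Cay (rels r)) ∧ DiscAut (Cay (rels r)))
  have hpos := card_pos (m := m) (l := l) (n := n) hm
  have hb1 := hScp m n l P hm hP1 h2P
  have hb2 := hl0 l n hll hN1
  unfold prob
  set T := Nat.card {r : Fin n → Word m l // ∀ j, CycRed (r j)} with hT
  set G := Nat.card {r : Fin n → Word m l // (∀ j, CycRed (r j)) ∧
    (Rigid (Cay (rels r)) ∧ DiscAut (Cay (rels r)))} with hG
  set B1 := Nat.card {r : Fin n → Word m l // (∀ j, CycRed (r j)) ∧ ¬ SC r P} with hB1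
  set B2 := Nat.card {r : Fin n → Word m l // (∀ j, CycRed (r j)) ∧ ¬ DC r} with hB2
  have hTr : (0 : ℝ) < T := by exact_mod_cast hpos
  have hspr : (T : ℝ) ≤ G + (B1 + B2) := by exact_mod_cast hsplit
  have hler : (G : ℝ) ≤ T := by exact_mod_cast hle
  -- bound for `B1`
  have hb1r : (B1 : ℝ) * K ^ P ≤ 8 * (n : ℝ) ^ 2 * (l : ℝ) ^ 2 * T := by
    rw [hK]; exact_mod_cast hb1
  have hnn : (n : ℝ) ^ 2 ≤ a ^ l := by
    rw [hapow]
    have h1 : (n : ℝ) ^ 2 ≤ (K ^ (1 / (4 * C1) * (l : ℝ))) ^ 2 := by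
      apply pow_le_pow_left₀ (Nat.cast_nonneg _) hN2
    have h2 : (K ^ (1 / (4 * C1) * (l : ℝ))) ^ 2 = K ^ ((l : ℝ) / (2 * C1)) := by
      rw [← Real.rpow_natCast, ← Real.rpow_mul hK0.le]
      congr 1
      push_cast
      field_simp
      ring
    rw [← h2]; exact h1
  have hKP : a ^ l * a ^ l ≤ K ^ 2 * K ^ P := by
    rw [hapow, ← Real.rpow_add hK0, ← pow_add, ← Real.rpow_natCast]
    apply Real.rpow_le_rpow_of_exponent_le (by linarith)
    have h1 : (l : ℝ) / C1 < ((l / C1 : ℕ) : ℝ) + 1 := by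
      rw [div_lt_iff₀ hC]
      have h2 : l < (l / C1 + 1) * C1 := by
        have := Nat.lt_div_mul_add (a := l) (b := C1) (by omega)
        nlinarith
      exact_mod_cast h2
    have h3 : (l : ℝ) / (2 * C1) + (l : ℝ) / (2 * C1) = (l : ℝ) / C1 := by
      field_simp
      ring
    rw [h3]
    have h4 : ((2 + P : ℕ) : ℝ) = ((l / C1 : ℕ) : ℝ) + 1 := by
      have : 2 + P = l / C1 + 1 := by omega
      rw [this]; push_cast; ring
    rw [h4]
    exact h1.le
  have hal : 0 < a ^ l := pow_pos ha0 l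
  have hKPpos : 0 < K ^ P := pow_pos hK0 P
  have hB1T : (B1 : ℝ) ≤ ε / 4 * T := by
    have h1 : (B1 : ℝ) * (a ^ l * a ^ l) ≤ K ^ 2 * (8 * a ^ l * (l : ℝ) ^ 2 * T) := by
      calc (B1 : ℝ) * (a ^ l * a ^ l) ≤ B1 * (K ^ 2 * K ^ P) :=
            mul_le_mul_of_nonneg_left hKP (Nat.cast_nonneg _)
        _ = K ^ 2 * (B1 * K ^ P) := by ring
        _ ≤ K ^ 2 * (8 * (n : ℝ) ^ 2 * (l : ℝ) ^ 2 * T) :=
            mul_le_mul_of_nonneg_left hb1r (by positivity)
        _ ≤ K ^ 2 * (8 * a ^ l * (l : ℝ) ^ 2 * T) := by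
            apply mul_le_mul_of_nonneg_left _ (by positivity)
            apply mul_le_mul_of_nonneg_right _ hTr.le
            apply mul_le_mul_of_nonneg_right _ (by positivity)
            linarith
    have h2 : (B1 : ℝ) * a ^ l ≤ 8 * K ^ 2 * (l : ℝ) ^ 2 * T := by
      have h3 : (B1 : ℝ) * a ^ l * a ^ l ≤ 8 * K ^ 2 * (l : ℝ) ^ 2 * T * a ^ l := by
        calc (B1 : ℝ) * a ^ l * a ^ l = (B1 : ℝ) * (a ^ l * a ^ l) := by ring
          _ ≤ K ^ 2 * (8 * a ^ l * (l : ℝ) ^ 2 * T) := h1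
          _ = 8 * K ^ 2 * (l : ℝ) ^ 2 * T * a ^ l := by ring
      exact le_of_mul_le_mul_right h3 hal
    have h4 : (B1 : ℝ) ≤ 8 * K ^ 2 * ((l : ℝ) ^ 2 / a ^ l) * T := by
      rw [← le_div_iff₀ hal] at h2
      calc (B1 : ℝ) ≤ 8 * K ^ 2 * (l : ℝ) ^ 2 * T / a ^ l := h2
        _ = 8 * K ^ 2 * ((l : ℝ) ^ 2 / a ^ l) * T := by ring
    calc (B1 : ℝ) ≤ 8 * K ^ 2 * ((l : ℝ) ^ 2 / a ^ l) * T := h4
      _ ≤ ε / 4 * T := mul_le_mul_of_nonneg_right hE.le hTr.le
  have hlow : (1 - ε / 2) * T ≤ G := by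
    have : (B2 : ℝ) ≤ ε / 4 * T := hb2
    nlinarith
  have h1 : 1 - ε / 2 ≤ (G : ℝ) / T := by
    rw [le_div_iff₀ hTr]; exact hlow
  have h2 : (G : ℝ) / T ≤ 1 := by
    rw [div_le_one hTr]; exact hler
  rw [Real.dist_eq, abs_lt]
  constructor <;> linarith

end RGD
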