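import Pool.Agent.RGD.Stmts

/-!
# Module RIG: the Cayley graph is rigid
-/

set_option autoImplicit false

namespace RGD

namespace RIG

/-- automorphisms preserve the sets of closed walks -/
theorem card_CW {V : Type} {X : SimpleGraph V} (l : ℕ) [NeZero l] (φ : X ≃g X) (v p q : V) :
    Nat.card (CW X l v p q) = Nat.card (CW X l (φ v) (φ p) (φ q)) := by
  refine Nat.card_congr
    { toFun := fun f => ⟨fun i => φ (f.1 i), ?_⟩
      invFun := fun f => ⟨fun i => φ.symm (f.1 i), ?_⟩
      left_inv := ?_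
      right_inv := ?_ }
  · obtain ⟨f, h0, h1, h2, h3, h4⟩ := f
    refine ⟨congrArg φ h0, congrArg φ h1, congrArg φ h2, fun i => ?_, fun i hh => ?_⟩
    · exact φ.map_rel_iff'.2 (h3 i)
    · exact h4 i (φ.injective hh)
  · obtain ⟨f, h0, h1, h2, h3, h4⟩ := f
    refine ⟨?_, ?_, ?_, fun i => ?_, fun i hh => ?_⟩
    · show φ.symm (f 0) = v
      rw [h0]
      exact φ.symm_apply_apply v
    · show φ.symm (f (finRotate l 0)) = p
      rw [h1]
      exact φ.symm_apply_apply p
    · show φ.symm (f ((finRotate l).symm 0)) = q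
      rw [h2]
      exact φ.symm_apply_apply q
    · exact φ.symm.map_rel_iff'.2 (h3 i)
    · exact h4 i (φ.symm.injective hh)
  · intro f
    apply Subtype.ext
    funext i
    exact φ.symm_apply_apply _
  · intro f
    apply Subtype.ext
    funext i
    exact φ.apply_symm_apply _

end RIG

open RIG in
theorem t_RIG : M_RIG := by
  intro hGL hWALK hCNT m l n _ r hcr hsh hl hDC
  obtain ⟨-, g2, g3, g4, g5⟩ := hGL m l n r hsh hl
  have hcard : ∀ (v : PresentedGroup (rels r)) (x y : Ltr m),
      Nat.card (CW (Cay (rels r)) l v (v * gl (rels r) x) (v * gl (rels r) y)) = cc r x y :=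
    fun v x y => (hWALK m l n r hsh hl v x y).trans (hCNT m l n r hcr hsh x y)
  -- a vertex and one neighbour
  have hB : ∀ (φ : Cay (rels r) ≃g Cay (rels r)) (v : PresentedGroup (rels r)) (x : Ltr m),
      φ v = v → φ (v * gl (rels r) x) = v * gl (rels r) x →
      ∀ y, φ (v * gl (rels r) y) = v * gl (rels r) y := by
    intro φ v x hv hx y
    by_cases hyx : y = x
    · rw [hyx]
      exact hx
    have h1 : (Cay (rels r)).Adj v (v * gl (rels r) y) := (g4 _ _).2 ⟨y, rfl⟩
    have h2 : (Cay (rels r)).Adj (φ v) (φ (v * gl (rels r) y)) := φ.map_rel_iff'.2 h1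
    rw [hv] at h2
    obtain ⟨z, hz⟩ := (g4 _ _).1 h2
    have hzx : z ≠ x := by
      rintro rfl
      rw [← hx] at hz
      exact hyx (g2 _ _ (mul_left_cancel (φ.injective hz)))
    have h3 : cc r x y = cc r x z := by
      rw [← hcard v x y, card_CW l φ, hv, hx, hz, hcard]
    have h4 : y = z := by
      by_contra hne
      exact hDC x y z hyx hzx hne h3
    rw [hz, h4]
  -- rigidity
  have hR : Rigid (Cay (rels r)) := by
    intro v w hvw φ hv hw u
    obtain ⟨x, rfl⟩ := (g4 _ _).1 hvw
    have key : ∀ g : PresentedGroup (rels r),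
        φ (v * g) = v * g ∧ ∀ y, φ (v * g * gl (rels r) y) = v * g * gl (rels r) y := by
      apply g5
      · rw [mul_one]
        exact ⟨hv, hB φ v x hv hw⟩
      · intro g y hg
        have h1 := hg.2 y
        rw [mul_assoc] at h1
        refine ⟨h1, hB φ (v * (g * gl (rels r) y)) (linv y) h1 ?_⟩
        have h2 : v * (g * gl (rels r) y) * gl (rels r) (linv y) = v * g := by
          rw [← mul_assoc, mul_assoc, g3, mul_one]
        rw [h2]
        exact hg.1
    have := (key (v⁻¹ * u)).1
    rwa [mul_inv_cancel_left] at this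
  refine ⟨hR, ?_⟩
  by_cases hm : Nonempty (Ltr m)
  · obtain ⟨x⟩ := hm
    refine ⟨{1, 1 * gl (rels r) x}, (Set.finite_singleton _).insert _, fun φ hφ => ?_⟩
    exact hR 1 (1 * gl (rels r) x) ((g4 _ _).2 ⟨x, rfl⟩) φ (hφ _ (Set.mem_insert _ _))
      (hφ _ (Set.mem_insert_of_mem _ (Set.mem_singleton _)))
  · have htriv : ∀ g : PresentedGroup (rels r), g = 1 :=
      g5 _ rfl fun g x _ => absurd ⟨x⟩ hm
    exact ⟨∅, Set.finite_empty, fun φ _ v => (htriv _).trans (htriv v).symm⟩

end RGD
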