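import Pool.Agent.RGD.Stmts

/-!
# Module SCP: most families satisfy the small cancellation condition
-/

set_option autoImplicit false

namespace RGD

namespace SCP

theorem linv_linv {m : ℕ} (a : Ltr m) : linv (linv a) = a := by
  rcases a with ⟨i, b⟩
  simp [linv]

theorem per_congr {m l : ℕ} [NeZero l] (w : Word m l) {s t : ℕ} (h : s % l = t % l) :
    per w s = per w t := by
  unfold per
  congr 1
  apply Fin.ext
  simpa [Fin.ofNat] using h

theorem per_mod {m l : ℕ} [NeZero l] (w : Word m l) (p t : ℕ) :
    per w (p % l + t) = per w (p + t) := by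
  apply per_congr
  rw [Nat.mod_add_mod]

/-- double counting: replace the `j`-th entry -/
theorem fib {n : ℕ} {W : Type} [Fintype W] (j : Fin n) (Q : (Fin n → W) → Prop) (c : ℕ)
    (h : ∀ f : Fin n → W, Nat.card {w : W // Q (Function.update f j w)} ≤ c) :
    Nat.card {f : Fin n → W // Q f} * Fintype.card W ≤ c * Fintype.card W ^ n := by
  classical
  have h1 : (Finset.univ.filter fun x : (Fin n → W) × W =>
      Q (Function.update x.1 j x.2)).card ≤ c * Fintype.card W ^ n := by
    rw [Finset.card_filter, ← Finset.univ_product_univ, Finset.sum_product]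
    have h2 : ∀ f ∈ (Finset.univ : Finset (Fin n → W)),
        (∑ w : W, if Q (Function.update f j w) then 1 else 0) ≤ c := by
      intro f _
      have h3 := h f
      rw [Nat.card_eq_fintype_card, Fintype.card_subtype, Finset.card_filter] at h3
      exact h3
    refine (Finset.sum_le_card_nsmul _ _ _ h2).trans ?_
    rw [smul_eq_mul, Finset.card_univ, Fintype.card_fun, Fintype.card_fin, mul_comm]
  refine le_trans ?_ h1
  rw [Nat.card_eq_fintype_card, ← Fintype.card_prod]
  let φ : {f : Fin n → W // Q f} × W →
      {x : (Fin n → W) × W // Q (Function.update x.1 j x.2)} := fun y =>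
    ⟨(Function.update y.1.1 j y.2, y.1.1 j), by
      show Q (Function.update (Function.update y.1.1 j y.2) j (y.1.1 j))
      rw [Function.update_idem, Function.update_eq_self]
      exact y.1.2⟩
  have hφ : Function.Injective φ := by
    rintro ⟨⟨g, hg⟩, w⟩ ⟨⟨g', hg'⟩, w'⟩ e
    have e1 := congrArg Subtype.val e
    have e2 : Function.update g j w = Function.update g' j w' := congrArg Prod.fst e1
    have e3 : g j = g' j := congrArg Prod.snd e1
    have e4 : w = w' := by
      have := congrFun e2 j
      simpa using this
    have e5 : g = g' := by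
      have h5 : Function.update (Function.update g j w) j (g j)
          = Function.update (Function.update g' j w') j (g' j) := by
        rw [e2, e3]
      rwa [Function.update_idem, Function.update_idem, Function.update_eq_self,
        Function.update_eq_self] at h5
    subst e4 e5
    rfl
  have := Fintype.card_le_of_injective φ hφ
  rwa [Fintype.card_subtype (fun x : (Fin n → W) × W => Q (Function.update x.1 j x.2))] at this

/-- the bad events -/
def Ev {m l n : ℕ} [NeZero l] (P : ℕ) (x : Fin n × Fin n × Fin l × Fin l × Bool)
    (f : Fin n → Word m l) : Prop :=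
  if x.2.2.2.2 then
    ¬ (x.1 = x.2.1 ∧ x.2.2.1 = x.2.2.2.1) ∧
      ∀ t, t < P → per (f x.1) (x.2.2.1.val + t) = per (f x.2.1) (x.2.2.2.1.val + t)
  else ∀ t, t < P → per (f x.1) (x.2.2.1.val + t) =
    linv (per (f x.2.1) (x.2.2.2.1.val + (P - 1 - t)))

theorem exists_ev {m l n P : ℕ} [NeZero l] (r : Fin n → Word m l) (h : ¬ SC r P) :
    ∃ x, Ev P x r := by
  by_contra hcon
  push Not at hcon
  have hl : 0 < l := Nat.pos_of_ne_zero (NeZero.ne l)
  apply h
  refine ⟨?_, ?_⟩
  · intro i j p q hpq
    by_contra hne
    refine hcon (i, j, ⟨p % l, Nat.mod_lt _ hl⟩, ⟨q % l, Nat.mod_lt _ hl⟩, true) ?_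
    unfold Ev
    rw [if_pos rfl]
    refine ⟨?_, ?_⟩
    · rintro ⟨h1, h2⟩
      exact hne ⟨h1, congrArg Fin.val h2⟩
    · intro t ht
      show per (r i) (p % l + t) = per (r j) (q % l + t)
      rw [per_mod, per_mod]
      exact hpq t ht
  · intro i j p q
    by_contra hne
    push Not at hne
    refine hcon (i, j, ⟨p % l, Nat.mod_lt _ hl⟩, ⟨q % l, Nat.mod_lt _ hl⟩, false) ?_
    unfold Ev
    rw [if_neg (by simp)]
    intro t ht
    show per (r i) (p % l + t) = linv (per (r j) (q % l + (P - 1 - t)))
    rw [per_mod, per_mod]
    exact hne t ht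

theorem card_sub {m l : ℕ} (A : Word m l → Prop) :
    Nat.card {w : {w : Word m l // CycRed w} // A w.1} = Nat.card {w : Word m l // CycRed w ∧ A w} :=
  Nat.card_congr (Equiv.subtypeSubtypeEquivSubtypeInter _ _)

theorem card_le {W : Type} [Finite W] {A B : W → Prop} (h : ∀ w, A w → B w) :
    Nat.card {w // A w} ≤ Nat.card {w // B w} :=
  Nat.card_le_card_of_injective (fun w => (⟨w.1, h _ w.2⟩ : {w // B w}))
    fun _ _ e => Subtype.ext (congrArg (fun z : {w // B w} => z.1) e)

end SCP

open SCP

theorem t_SCP : M_SCP := by
  intro hcard hext hself m n l P _ hm hP hPl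
  classical
  have hl : 1 ≤ l := by omega
  set K := 2 * m - 1 with hK
  obtain ⟨hN1, -⟩ := hcard m l hm hl
  rw [← hK] at hN1
  have hNN : Nat.card {w : Word m l // CycRed w} = Fintype.card {w : Word m l // CycRed w} :=
    Nat.card_eq_fintype_card
  rw [hNN] at hN1
  set N := Fintype.card {w : Word m l // CycRed w} with hN
  have hK1 : 1 ≤ K := by omega
  have hN0 : 0 < N := by
    have : 1 ≤ K ^ l := Nat.one_le_pow _ _ hK1
    omega
  have hKl : K ^ (l - P) * K ^ P = K ^ l := by
    rw [← pow_add]
    congr 1
    omega
  -- the total number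
  have hT : Nat.card {r : Fin n → Word m l // ∀ j, CycRed (r j)} = N ^ n := by
    rw [Nat.card_congr (Equiv.subtypePiEquivPi (p := fun _ w => CycRed w)),
      Nat.card_eq_fintype_card, Fintype.card_fun, Fintype.card_fin]
  -- single events
  have hev : ∀ x : Fin n × Fin n × Fin l × Fin l × Bool,
      Nat.card {f : Fin n → {w : Word m l // CycRed w} // Ev P x fun j => (f j).1} * K ^ P ≤
        4 * N ^ n := by
    rintro ⟨i, j, p, q, b⟩
    have key : (∀ f : Fin n → {w : Word m l // CycRed w},
        Nat.card {w : {w : Word m l // CycRed w} //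
          Ev P (i, j, p, q, b) fun s => (Function.update f j w s).1} ≤ 2 * K ^ (l - P)) →
        Nat.card {f : Fin n → {w : Word m l // CycRed w} //
          Ev P (i, j, p, q, b) fun j => (f j).1} * K ^ P ≤ 4 * N ^ n := by
      intro h
      have h1 := fib j (fun f : Fin n → {w : Word m l // CycRed w} =>
        Ev P (i, j, p, q, b) fun s => (f s).1) _ h
      rw [← hN] at h1
      refine Nat.le_of_mul_le_mul_right ?_ hN0
      calc _ = (Nat.card {f : Fin n → {w : Word m l // CycRed w} //
              Ev P (i, j, p, q, b) fun j => (f j).1} * N) * K ^ P := by ring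
        _ ≤ (2 * K ^ (l - P) * N ^ n) * K ^ P := Nat.mul_le_mul_right _ h1
        _ = 2 * (K ^ (l - P) * K ^ P) * N ^ n := by ring
        _ = 2 * K ^ l * N ^ n := by rw [hKl]
        _ ≤ 2 * (2 * N) * N ^ n := by
            exact Nat.mul_le_mul_right _ (Nat.mul_le_mul_left _ hN1)
        _ = 4 * N ^ n * N := by ring
    apply key
    intro f
    have hpl : p.val % l = p.val := Nat.mod_eq_of_lt p.2
    have hql : q.val % l = q.val := Nat.mod_eq_of_lt q.2
    by_cases hij : i = j
    · subst hij
      obtain ⟨hs1, hs2⟩ := hself m l P p.val q.val hm hP hPl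
      rw [← hK] at hs1 hs2
      cases b with
      | true =>
        by_cases hpq : p = q
        · subst hpq
          have : IsEmpty {w : {w : Word m l // CycRed w} //
              Ev P (i, i, p, p, true) fun s => (Function.update f i w s).1} := by
            refine ⟨fun w => ?_⟩
            have h2 := w.2
            unfold Ev at h2
            rw [if_pos rfl] at h2
            exact h2.1 ⟨rfl, rfl⟩
          rw [Nat.card_of_isEmpty]
          exact Nat.zero_le _
        · have h3 : p.val % l ≠ q.val % l := by
            rw [hpl, hql]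
            exact fun e => hpq (Fin.ext e)
          refine le_trans (card_le (B := fun w : {w : Word m l // CycRed w} =>
            ∀ t, t < P → per w.1 (p.val + t) = per w.1 (q.val + t)) ?_) ?_
          · intro w hw
            unfold Ev at hw
            rw [if_pos rfl] at hw
            simpa [Function.update_self] using hw.2
          · rw [card_sub (fun w : Word m l =>
              ∀ t, t < P → per w (p.val + t) = per w (q.val + t))]
            exact hs1 h3
      | false =>
        refine le_trans (card_le (B := fun w : {w : Word m l // CycRed w} =>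
          ∀ t, t < P → per w.1 (p.val + t) = linv (per w.1 (q.val + (P - 1 - t)))) ?_) ?_
        · intro w hw
          unfold Ev at hw
          rw [if_neg (by simp)] at hw
          simpa [Function.update_self] using hw
        · rw [card_sub (fun w : Word m l =>
            ∀ t, t < P → per w (p.val + t) = linv (per w (q.val + (P - 1 - t))))]
          exact hs2
    · have hext' : ∀ c : ℕ → Ltr m, Nat.card {w : {w : Word m l // CycRed w} //
          ∀ t, t < P → per w.1 (q.val + t) = c t} ≤ 2 * K ^ (l - P) := by
        intro c
        rw [card_sub (fun w : Word m l => ∀ t, t < P → per w (q.val + t) = c t)]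
        have h4 := hext m l P q.val c hm hP (by omega)
        rw [← hK] at h4
        omega
      cases b with
      | true =>
        refine le_trans (card_le ?_) (hext' fun t => per (f i).1 (p.val + t))
        intro w hw t ht
        unfold Ev at hw
        rw [if_pos rfl] at hw
        have h5 := hw.2 t ht
        simp only [Function.update_self, Function.update_of_ne hij] at h5
        exact h5.symm
      | false =>
        refine le_trans (card_le ?_) (hext' fun t => linv (per (f i).1 (p.val + (P - 1 - t))))
        intro w hw t ht
        unfold Ev at hw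
        rw [if_neg (by simp)] at hw
        have h5 := hw (P - 1 - t) (by omega)
        simp only [Function.update_self, Function.update_of_ne hij] at h5
        rw [h5, linv_linv]
        congr 2
        omega
  -- the union bound
  rw [hT]
  have hbad : Nat.card {r : Fin n → Word m l // (∀ j, CycRed (r j)) ∧ ¬ SC r P} ≤
      ∑ x : Fin n × Fin n × Fin l × Fin l × Bool,
        Nat.card {f : Fin n → {w : Word m l // CycRed w} // Ev P x fun j => (f j).1} := by
    have h6 : Nat.card {r : Fin n → Word m l // (∀ j, CycRed (r j)) ∧ ¬ SC r P} ≤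
        (Finset.univ.filter fun f : Fin n → {w : Word m l // CycRed w} =>
          ∃ x, Ev P x fun j => (f j).1).card := by
      rw [← Fintype.card_subtype, ← Nat.card_eq_fintype_card]
      exact Nat.card_le_card_of_injective
        (fun r => (⟨fun j => ⟨r.1 j, r.2.1 j⟩, exists_ev _ r.2.2⟩ :
          {f : Fin n → {w : Word m l // CycRed w} // ∃ x, Ev P x fun j => (f j).1}))
        (fun r r' e => by
          apply Subtype.ext
          funext j
          have e1 := congrArg Subtype.val e
          exact congrArg Subtype.val (congrFun e1 j))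
    refine h6.trans ?_
    have h7 : (Finset.univ.filter fun f : Fin n → {w : Word m l // CycRed w} =>
          ∃ x, Ev P x fun j => (f j).1) ⊆
        (Finset.univ : Finset (Fin n × Fin n × Fin l × Fin l × Bool)).biUnion fun x =>
          Finset.univ.filter fun f : Fin n → {w : Word m l // CycRed w} =>
            Ev P x fun j => (f j).1 := by
      intro f hf
      rw [Finset.mem_filter] at hf
      obtain ⟨x, hx⟩ := hf.2
      rw [Finset.mem_biUnion]
      exact ⟨x, Finset.mem_univ _, Finset.mem_filter.2 ⟨Finset.mem_univ _, hx⟩⟩
    refine (Finset.card_le_card h7).trans (Finset.card_biUnion_le.trans ?_)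
    refine Finset.sum_le_sum fun x _ => ?_
    rw [Nat.card_eq_fintype_card, Fintype.card_subtype]
  calc _ ≤ (∑ x : Fin n × Fin n × Fin l × Fin l × Bool,
        Nat.card {f : Fin n → {w : Word m l // CycRed w} // Ev P x fun j => (f j).1}) * K ^ P :=
        Nat.mul_le_mul_right _ hbad
    _ = ∑ x : Fin n × Fin n × Fin l × Fin l × Bool,
        Nat.card {f : Fin n → {w : Word m l // CycRed w} // Ev P x fun j => (f j).1} * K ^ P :=
        Finset.sum_mul _ _ _
    _ ≤ ∑ _x : Fin n × Fin n × Fin l × Fin l × Bool, 4 * N ^ n :=
        Finset.sum_le_sum fun x _ => hev x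
    _ = 8 * n ^ 2 * l ^ 2 * N ^ n := by
        rw [Finset.sum_const, Finset.card_univ]
        simp only [Fintype.card_prod, Fintype.card_fin, Fintype.card_bool, smul_eq_mul]
        ring

end RGD
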