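import Pool.Agent.RGD.Stmts

/-!
# MP_0a3593_al, module SELF: words with two equal windows
-/

set_option autoImplicit false

namespace RGD

namespace SELF

theorem linv_ne {m : ℕ} (a : Ltr m) : a ≠ linv a := by
  intro h
  have h2 : a.2 = !a.2 := congrArg Prod.snd h
  cases h3 : a.2 <;> rw [h3] at h2 <;> exact absurd h2 (by decide)

theorem linv_linv {m : ℕ} (a : Ltr m) : linv (linv a) = a := by
  unfold linv
  simp

theorem per_congr {m l : ℕ} [NeZero l] (w : Word m l) {s t : ℕ} (h : s % l = t % l) :
    per w s = per w t := by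
  unfold per
  congr 1
  apply Fin.ext
  simpa [Fin.ofNat] using h

theorem per_val {m l : ℕ} [NeZero l] (w : Word m l) (i : Fin l) : per w i.val = w i := by
  unfold per
  congr 1
  apply Fin.ext
  simpa [Fin.ofNat] using Nat.mod_eq_of_lt i.isLt

theorem per_succ_ne {m l : ℕ} [NeZero l] (w : Word m l) (hw : CycRed w) (t : ℕ) :
    per w (t + 1) ≠ linv (per w t) := by
  have h := hw (Fin.ofNat l t)
  obtain ⟨n, rfl⟩ : ∃ n, l = n + 1 := ⟨l - 1, by have := NeZero.pos l; omega⟩
  rw [finRotate_apply] at h
  have e : Fin.ofNat (n + 1) t + 1 = Fin.ofNat (n + 1) (t + 1) := by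
    apply Fin.ext
    rw [Fin.val_add]
    simp [Fin.ofNat, Nat.add_mod]
  rw [e] at h
  exact h

theorem enc {m : ℕ} (hm : 2 ≤ m) (b : Ltr m) : ∃ f : Ltr m → Fin (2 * m - 1),
    ∀ x y, x ≠ b → y ≠ b → f x = f y → x = y := by
  have hc : Fintype.card {x : Ltr m // x ≠ b} = 2 * m - 1 := by
    rw [Fintype.card_subtype_compl, Fintype.card_prod, Fintype.card_fin, Fintype.card_bool,
      Fintype.card_subtype_eq]
    omega
  obtain ⟨e⟩ : Nonempty ({x : Ltr m // x ≠ b} ≃ Fin (2 * m - 1)) :=
    ⟨Fintype.equivFinOfCardEq hc⟩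
  classical
  refine ⟨fun x => if h : x ≠ b then e ⟨x, h⟩ else ⟨0, by omega⟩, ?_⟩
  intro x y hx hy h
  simp only [dif_pos hx, dif_pos hy] at h
  have := e.injective h
  exact congrArg Subtype.val this

/-- the counting lemma: the places in `D` are determined by the places before -/
theorem count {m l : ℕ} (hm : 2 ≤ m) (hl : 1 ≤ l) {X : Type} (f : X → Fin l → Ltr m)
    (hf : Function.Injective f) (D : Finset (Fin l)) (hD : ∀ i ∈ D, i.val ≠ 0)
    (h1 : ∀ x (i j : Fin l), j.val = i.val + 1 → f x j ≠ linv (f x i))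
    (h2 : ∀ x y, ∀ i ∈ D, (∀ j : Fin l, j.val < i.val → f x j = f y j) → f x i = f y i) :
    Nat.card X ≤ 2 * m * (2 * m - 1) ^ (l - 1 - D.card) := by
  classical
  choose e he using fun b : Ltr m => enc hm b
  obtain ⟨z, hz⟩ : ∃ z : Fin l, z.val = 0 := ⟨⟨0, by omega⟩, rfl⟩
  let F : Finset (Fin l) := Finset.univ.filter fun i => ¬ (i ∈ insert z D)
  let g : X → Ltr m × (F → Fin (2 * m - 1)) := fun x =>
    (f x z, fun i => e (linv (f x ⟨i.1.val - 1, by omega⟩)) (f x i.1))
  have hg : Function.Injective g := by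
    intro x y hxy
    apply hf
    have hz0 : f x z = f y z := congrArg Prod.fst hxy
    have hi0 : ∀ i : F, e (linv (f x ⟨i.1.val - 1, by omega⟩)) (f x i.1) =
        e (linv (f y ⟨i.1.val - 1, by omega⟩)) (f y i.1) := fun i =>
      congrFun (congrArg Prod.snd hxy) i
    have key : ∀ k : ℕ, ∀ i : Fin l, i.val = k → f x i = f y i := by
      intro k
      induction k using Nat.strong_induction_on with
      | _ k ih =>
        intro i hik
        by_cases hk0 : k = 0
        · have : i = z := Fin.ext (by omega)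
          rw [this]
          exact hz0
        · by_cases hiD : i ∈ D
          · apply h2 x y i hiD
            intro j hj
            exact ih j.val (by omega) j rfl
          · have hiz : i ≠ z := by
              intro h
              rw [h] at hik
              omega
            have hiF : i ∈ F := by
              simp only [F, Finset.mem_filter, Finset.mem_univ, true_and, Finset.mem_insert]
              rintro (h | h)
              · exact hiz h
              · exact hiD h
            have h3 := hi0 ⟨i, hiF⟩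
            have h4 : f x ⟨i.val - 1, by omega⟩ = f y ⟨i.val - 1, by omega⟩ :=
              ih (i.val - 1) (by omega) _ rfl
            simp only at h3
            rw [h4] at h3
            refine he _ _ _ ?_ ?_ h3
            · rw [← h4]
              exact h1 x ⟨i.val - 1, by omega⟩ i (by simp only; omega)
            · exact h1 y ⟨i.val - 1, by omega⟩ i (by simp only; omega)
    funext i
    exact key i.val i rfl
  have hc := Nat.card_le_card_of_injective g hg
  have hF : F.card = l - 1 - D.card := by
    have h5 : F = (insert z D)ᶜ := by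
      ext i
      simp [F]
    rw [h5, Finset.card_compl, Finset.card_insert_of_notMem, Fintype.card_fin]
    · omega
    · intro h
      exact hD z h hz
  have h6 : Nat.card (Ltr m × (F → Fin (2 * m - 1))) = 2 * m * (2 * m - 1) ^ (l - 1 - D.card) := by
    rw [Nat.card_prod, Nat.card_eq_fintype_card, Nat.card_eq_fintype_card, Fintype.card_prod,
      Fintype.card_fin, Fintype.card_bool, Fintype.card_fun, Fintype.card_fin, Fintype.card_coe, hF]
    ring
  rw [h6] at hc
  exact hc

theorem rot_inj {m l : ℕ} [NeZero l] (a : ℕ) :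
    Function.Injective fun (w : Word m l) (i : Fin l) => per w (a + i.val) := by
  intro w w' h
  funext j
  have hl := NeZero.pos l
  have hj := j.isLt
  have ha : a % l < l := Nat.mod_lt _ hl
  obtain ⟨i, hi⟩ : ∃ i : Fin l, (a + i.val) % l = j.val := by
    refine ⟨⟨(j.val + (l - a % l)) % l, Nat.mod_lt _ hl⟩, ?_⟩
    simp only
    rw [Nat.add_mod_mod, ← Nat.mod_add_mod]
    have e : a % l + (j.val + (l - a % l)) = j.val + l := by omega
    rw [e, Nat.add_mod_right]
    exact Nat.mod_eq_of_lt hj
  have h1 : per w (a + i.val) = per w' (a + i.val) := congrFun h i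
  have h2 : per w (a + i.val) = w j := by
    rw [per_congr w (t := j.val) (by rw [hi]; exact (Nat.mod_eq_of_lt hj).symm), per_val]
  have h3 : per w' (a + i.val) = w' j := by
    rw [per_congr w' (t := j.val) (by rw [hi]; exact (Nat.mod_eq_of_lt hj).symm), per_val]
  rw [h2, h3] at h1
  exact h1

theorem bound {m l P : ℕ} (hm : 2 ≤ m) (hP : P + 1 ≤ l) :
    2 * m * (2 * m - 1) ^ (l - 1 - P) ≤ 2 * (2 * m - 1) ^ (l - P) := by
  have e : l - P = (l - 1 - P) + 1 := by omega
  rw [e, pow_succ]
  have h : 2 * m ≤ 2 * (2 * m - 1) := by omega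
  calc 2 * m * (2 * m - 1) ^ (l - 1 - P) ≤ 2 * (2 * m - 1) * (2 * m - 1) ^ (l - 1 - P) :=
        Nat.mul_le_mul_right _ h
    _ = 2 * ((2 * m - 1) ^ (l - 1 - P) * (2 * m - 1)) := by ring

/-- the places of the second window -/
def win (l δ P : ℕ) : Finset (Fin l) := Finset.univ.filter fun i => δ ≤ i.val ∧ i.val < δ + P

theorem win_card {l δ P : ℕ} (h : δ + P ≤ l) : (win l δ P).card = P := by
  have h1 : (win l δ P).map Fin.valEmbedding = Finset.Ico δ (δ + P) := by
    ext x
    simp only [win, Finset.mem_map, Finset.mem_filter, Finset.mem_univ, true_and,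
      Fin.valEmbedding_apply, Finset.mem_Ico]
    constructor
    · rintro ⟨i, hi, rfl⟩
      exact hi
    · intro hx
      exact ⟨⟨x, by omega⟩, hx, rfl⟩
  have h2 := congrArg Finset.card h1
  rw [Finset.card_map, Nat.card_Ico] at h2
  omega

theorem part1 {m l P a δ : ℕ} [NeZero l] (hm : 2 ≤ m) (hP : 1 ≤ P) (hδ : 1 ≤ δ)
    (hl : δ + P ≤ l) : Nat.card {w : Word m l // CycRed w ∧
      ∀ t, t < P → per w (a + t) = per w (a + δ + t)} ≤ 2 * (2 * m - 1) ^ (l - P) := by
  refine le_trans ?_ (bound hm (by omega : P + 1 ≤ l))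
  have h := count (l := l) (X := {w : Word m l // CycRed w ∧
      ∀ t, t < P → per w (a + t) = per w (a + δ + t)}) hm (by omega)
    (fun w i => per w.1 (a + i.val)) ?_ (win l δ P) ?_ ?_ ?_
  · rw [win_card hl] at h
    exact h
  · intro x y hxy
    exact Subtype.ext (rot_inj a hxy)
  · intro i hi
    simp only [win, Finset.mem_filter, Finset.mem_univ, true_and] at hi
    omega
  · intro x i j hij
    rw [hij, ← Nat.add_assoc]
    exact per_succ_ne x.1 x.2.1 _
  · intro x y i hi hxy
    simp only [win, Finset.mem_filter, Finset.mem_univ, true_and] at hi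
    have e : a + i.val = a + δ + (i.val - δ) := by omega
    rw [e, ← x.2.2 (i.val - δ) (by omega), ← y.2.2 (i.val - δ) (by omega)]
    exact hxy ⟨i.val - δ, by omega⟩ (by simp only; omega)

theorem part2 {m l P a δ : ℕ} [NeZero l] (hm : 2 ≤ m) (hP : 1 ≤ P) (hδ : P ≤ δ)
    (hl : δ + P ≤ l) : Nat.card {w : Word m l // CycRed w ∧
      ∀ t, t < P → per w (a + t) = linv (per w (a + δ + (P - 1 - t)))} ≤
        2 * (2 * m - 1) ^ (l - P) := by
  refine le_trans ?_ (bound hm (by omega : P + 1 ≤ l))
  have h := count (l := l) (X := {w : Word m l // CycRed w ∧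
      ∀ t, t < P → per w (a + t) = linv (per w (a + δ + (P - 1 - t)))}) hm (by omega)
    (fun w i => per w.1 (a + i.val)) ?_ (win l δ P) ?_ ?_ ?_
  · rw [win_card hl] at h
    exact h
  · intro x y hxy
    exact Subtype.ext (rot_inj a hxy)
  · intro i hi
    simp only [win, Finset.mem_filter, Finset.mem_univ, true_and] at hi
    omega
  · intro x i j hij
    rw [hij, ← Nat.add_assoc]
    exact per_succ_ne x.1 x.2.1 _
  · intro x y i hi hxy
    simp only [win, Finset.mem_filter, Finset.mem_univ, true_and] at hi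
    have key : ∀ z : {w : Word m l // CycRed w ∧
        ∀ t, t < P → per w (a + t) = linv (per w (a + δ + (P - 1 - t)))},
        per z.1 (a + i.val) = linv (per z.1 (a + (P - 1 - (i.val - δ)))) := by
      intro z
      have h3 := z.2.2 (P - 1 - (i.val - δ)) (by omega)
      have e : a + δ + (P - 1 - (P - 1 - (i.val - δ))) = a + i.val := by omega
      rw [e] at h3
      rw [h3, linv_linv]
    rw [key x, key y]
    congr 1
    exact hxy ⟨P - 1 - (i.val - δ), by omega⟩ (by simp only; omega)

theorem overlap {m l P a δ : ℕ} [NeZero l] (hδ : δ < P) (w : Word m l)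
    (hw : CycRed w) (h : ∀ t, t < P → per w (a + t) = linv (per w (a + δ + (P - 1 - t)))) :
    False := by
  rcases Nat.even_or_odd' (δ + P - 1) with ⟨x, hx | hx⟩
  · have h1 := h x (by omega)
    have e : a + δ + (P - 1 - x) = a + x := by omega
    rw [e] at h1
    exact linv_ne _ h1
  · have h1 := h x (by omega)
    have e : a + δ + (P - 1 - x) = a + x + 1 := by omega
    rw [e] at h1
    apply per_succ_ne w hw (a + x)
    rw [h1, linv_linv]

/-- monotonicity -/
theorem card_mono {m l : ℕ} {A B : Word m l → Prop} (h : ∀ w, A w → B w) :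
    Nat.card {w : Word m l // A w} ≤ Nat.card {w : Word m l // B w} := by
  apply Nat.card_le_card_of_injective (Subtype.map id h)
  exact Subtype.map_injective h Function.injective_id

/-- the second part for an ordered pair of windows -/
theorem part2' {m l P p q : ℕ} [NeZero l] (hm : 2 ≤ m) (hP : 1 ≤ P) (δ : ℕ)
    (hl : δ + P ≤ l) (hq : q % l = (p + δ) % l) : Nat.card {w : Word m l // CycRed w ∧
      ∀ t, t < P → per w (p + t) = linv (per w (q + (P - 1 - t)))} ≤
        2 * (2 * m - 1) ^ (l - P) := by
  have hper : ∀ (w : Word m l) (t : ℕ), per w (q + t) = per w (p + δ + t) := by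
    intro w t
    apply per_congr
    rw [Nat.add_mod, hq, ← Nat.add_mod]
  by_cases hδ : P ≤ δ
  · refine le_trans (card_mono ?_) (part2 (a := p) hm hP hδ hl)
    rintro w ⟨h1, h2⟩
    refine ⟨h1, fun t ht => ?_⟩
    rw [← hper]
    exact h2 t ht
  · have : IsEmpty {w : Word m l // CycRed w ∧
        ∀ t, t < P → per w (p + t) = linv (per w (q + (P - 1 - t)))} := by
      constructor
      rintro ⟨w, h1, h2⟩
      apply overlap (a := p) (δ := δ) (P := P) (by omega) w h1
      intro t ht
      rw [← hper]
      exact h2 t ht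
    rw [Nat.card_of_isEmpty]
    exact Nat.zero_le _

theorem exists_delta {l : ℕ} (hl : 0 < l) (p q : ℕ) :
    ∃ δ, δ < l ∧ q % l = (p + δ) % l ∧ p % l = (q + (l - δ)) % l := by
  have hp : p % l < l := Nat.mod_lt _ hl
  have hq : q % l < l := Nat.mod_lt _ hl
  rcases Nat.lt_or_ge (q % l) (p % l) with h | h
  · refine ⟨q % l + l - p % l, by omega, ?_, ?_⟩
    · rw [← Nat.mod_add_mod]
      have e : p % l + (q % l + l - p % l) = q % l + l := by omega
      rw [e, Nat.add_mod_right, Nat.mod_mod]
    · rw [← Nat.mod_add_mod]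
      have e : q % l + (l - (q % l + l - p % l)) = p % l := by omega
      rw [e, Nat.mod_mod]
  · refine ⟨q % l - p % l, by omega, ?_, ?_⟩
    · rw [← Nat.mod_add_mod]
      have e : p % l + (q % l - p % l) = q % l := by omega
      rw [e, Nat.mod_mod]
    · rw [← Nat.mod_add_mod]
      have e : q % l + (l - (q % l - p % l)) = p % l + l := by omega
      rw [e, Nat.add_mod_right, Nat.mod_mod]

end SELF

open SELF in
theorem t_SELF : S_SELF := by
  intro m l P p q _ hm hP h2P
  have hl : 0 < l := NeZero.pos l
  obtain ⟨δ, hδl, hq, hp⟩ := exists_delta hl p q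
  constructor
  · intro hpq
    have hδ : δ ≠ 0 := by
      rintro rfl
      rw [Nat.add_zero] at hq
      exact hpq hq.symm
    by_cases h : δ + P ≤ l
    · refine le_trans (card_mono ?_) (part1 (a := p) (δ := δ) hm hP (by omega) h)
      rintro w ⟨h1, h2⟩
      refine ⟨h1, fun t ht => ?_⟩
      rw [h2 t ht]
      apply per_congr
      rw [Nat.add_mod, hq, ← Nat.add_mod]
    · refine le_trans (card_mono ?_) (part1 (a := q) (δ := l - δ) (P := P) hm hP (by omega)
        (by omega))
      rintro w ⟨h1, h2⟩
      refine ⟨h1, fun t ht => ?_⟩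
      rw [← h2 t ht]
      apply per_congr
      rw [Nat.add_mod, hp, ← Nat.add_mod]
  · by_cases h : δ + P ≤ l
    · exact part2' hm hP δ h hq
    · refine le_trans (card_mono ?_) (part2' (p := q) (q := p) (P := P) hm hP (l - δ) (by omega) hp)
      rintro w ⟨h1, h2⟩
      refine ⟨h1, fun t ht => ?_⟩
      have h3 := h2 (P - 1 - t) (by omega)
      have e : P - 1 - (P - 1 - t) = t := by omega
      rw [e] at h3
      rw [h3, linv_linv]

end RGD
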