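import Pool.Agent.RGD.Stmts

/-!
# MP_0a3593_al: short relations are relators (module SHORT)
-/

set_option autoImplicit false

namespace RGD

namespace SHORT

variable {m l : ℕ} [NeZero l]

theorem ofNat_mod (t : ℕ) : Fin.ofNat l (t % l) = Fin.ofNat l t := by
  apply Fin.ext
  simp [Fin.ofNat]

theorem per_mod (w : Word m l) (t : ℕ) : per w (t % l) = per w t := by
  unfold per
  rw [ofNat_mod]

theorem per_congr (w : Word m l) {s t : ℕ} (h : s % l = t % l) : per w s = per w t := by
  rw [← per_mod w s, ← per_mod w t, h]

theorem per_val (w : Word m l) (i : Fin l) : per w i.val = w i := by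
  unfold per
  congr 1
  apply Fin.ext
  simp [Fin.ofNat, Nat.mod_eq_of_lt i.isLt]

theorem rot_ofNat (t : ℕ) : finRotate l (Fin.ofNat l t) = Fin.ofNat l (t + 1) := by
  obtain ⟨n, rfl⟩ : ∃ n, l = n + 1 := ⟨l - 1, by have := NeZero.pos l; omega⟩
  rw [finRotate_apply]
  apply Fin.ext
  simp [Fin.ofNat, Fin.val_add]

theorem per_rot (w : Word m l) (i : Fin l) : w (finRotate l i) = per w (i.val + 1) := by
  unfold per
  rw [← rot_ofNat]
  congr 2
  apply Fin.ext
  simp [Fin.ofNat, Nat.mod_eq_of_lt i.isLt]

theorem per_last (w : Word m l) : w ((finRotate l).symm 0) = per w (l - 1) := by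
  have h : (finRotate l).symm 0 = Fin.ofNat l (l - 1) := by
    rw [Equiv.symm_apply_eq, rot_ofNat]
    have hl := NeZero.pos l
    apply Fin.ext
    have e : l - 1 + 1 = l := by omega
    simp [Fin.ofNat, e]
  rw [h]
  rfl

theorem per_succ_ne (w : Word m l) (h : CycRed w) (t : ℕ) : per w (t + 1) ≠ linv (per w t) := by
  unfold per
  rw [← rot_ofNat]
  exact h _

theorem cycRed_of (w : Word m l) (h : ∀ t, per w (t + 1) ≠ linv (per w t)) : CycRed w := by
  intro i
  rw [per_rot w i, ← per_val w i]
  have h1 := h i.val
  rwa [per_val w i] at h1 ⊢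

theorem linv_linv (a : Ltr m) : linv (linv a) = a := by
  obtain ⟨i, b⟩ := a
  simp [linv]

theorem ext_per {w w' : Word m l} (h : ∀ t, t < l → per w t = per w' t) : w = w' := by
  funext i
  rw [← per_val w i, ← per_val w' i]
  exact h _ i.isLt

/-- rotation -/
def shf (w : Word m l) (q : ℕ) : Word m l := fun i => per w (q + i.val)

/-- rotation of the inverse word -/
def ivs (w : Word m l) (q : ℕ) : Word m l := fun i => linv (per w (q + (l - i.val)))

theorem per_shf (w : Word m l) (q t : ℕ) : per (shf w q) t = per w (q + t) := by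
  change per w (q + (Fin.ofNat l t).val) = _
  apply per_congr
  simp [Fin.ofNat]

theorem per_ivs (w : Word m l) (q t : ℕ) : per (ivs w q) t = linv (per w (q + (l - t % l))) := rfl

theorem per_ivs_lt (w : Word m l) (q t : ℕ) (h : t < l) :
    per (ivs w q) t = linv (per w (q + (l - t))) := by
  rw [per_ivs, Nat.mod_eq_of_lt h]

theorem cyc_shf (w : Word m l) (h : CycRed w) (q : ℕ) : CycRed (shf w q) := by
  apply cycRed_of
  intro t
  rw [per_shf, per_shf]
  exact per_succ_ne w h (q + t)

theorem cyc_ivs (w : Word m l) (h : CycRed w) (q : ℕ) : CycRed (ivs w q) := by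
  apply cycRed_of
  intro t
  rw [per_ivs, per_ivs, linv_linv]
  have hl := NeZero.pos l
  have ha : t % l < l := Nat.mod_lt _ hl
  by_cases h1 : t % l + 1 < l
  · have h2 : (t + 1) % l = t % l + 1 := by
      rw [Nat.add_mod, Nat.mod_eq_of_lt (show 1 < l by omega), Nat.mod_eq_of_lt h1]
    rw [h2]
    have h3 : q + (l - t % l) = q + (l - (t % l + 1)) + 1 := by omega
    rw [h3]
    exact fun e => per_succ_ne w h _ e.symm
  · have h2 : (t + 1) % l = 0 := by
      have h3 : t % l + 1 = l := by omega
      have h4 : (t + 1) % l = (t % l + 1) % l := by simp [Nat.add_mod]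
      rw [h4, h3, Nat.mod_self]
    rw [h2]
    have h3 : q + (l - t % l) = q + 1 := by omega
    rw [h3, Nat.sub_zero]
    have h4 : per w (q + l) = per w q := per_congr w (by simp)
    rw [h4]
    exact fun e => per_succ_ne w h _ e.symm

theorem el_shf_one (w : Word m l) (N : Subgroup (FreeGroup (Fin m))) [N.Normal] (h : el w ∈ N) :
    el (shf w 1) ∈ N := by
  obtain ⟨n, rfl⟩ : ∃ n, l = n + 1 := ⟨l - 1, by have := NeZero.pos l; omega⟩
  have h1 : List.ofFn w = w 0 :: List.ofFn (fun i : Fin n => w i.succ) := List.ofFn_succ
  have h2 : List.ofFn (shf w 1) = List.ofFn (fun i : Fin n => w i.succ) ++ [w 0] := by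
    rw [List.ofFn_succ']
    have e1 : (fun i : Fin n => shf w 1 i.castSucc) = fun i : Fin n => w i.succ := by
      funext i
      change per w (1 + i.castSucc.val) = _
      rw [← per_val w i.succ]
      congr 1
      simp [Nat.add_comm]
    have e2 : shf w 1 (Fin.last n) = w 0 := by
      change per w (1 + (Fin.last n).val) = _
      rw [← per_val w 0]
      apply per_congr
      simp [Nat.add_comm]
    rw [e1, e2, List.concat_eq_append]
  have h3 : el (shf w 1) = (FreeGroup.mk [w 0])⁻¹ * el w * (FreeGroup.mk [w 0])⁻¹⁻¹ := by
    unfold el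
    rw [h1, h2, inv_inv, ← FreeGroup.mul_mk]
    have h4 : FreeGroup.mk (w 0 :: List.ofFn (fun i : Fin n => w i.succ)) =
        FreeGroup.mk [w 0] * FreeGroup.mk (List.ofFn (fun i : Fin n => w i.succ)) := by
      rw [FreeGroup.mul_mk]
      rfl
    rw [h4]
    group
  rw [h3]
  exact Subgroup.Normal.conj_mem inferInstance _ h _

theorem el_shf (w : Word m l) (N : Subgroup (FreeGroup (Fin m))) [N.Normal] (h : el w ∈ N)
    (q : ℕ) : el (shf w q) ∈ N := by
  induction q with
  | zero =>
    have : shf w 0 = w := by
      apply ext_per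
      intro t _
      rw [per_shf, Nat.zero_add]
    rw [this]
    exact h
  | succ q ih =>
    have : shf w (q + 1) = shf (shf w q) 1 := by
      apply ext_per
      intro t _
      rw [per_shf, per_shf, per_shf, Nat.add_assoc]
    rw [this]
    exact el_shf_one _ N ih

theorem el_ivs (w : Word m l) (N : Subgroup (FreeGroup (Fin m))) [N.Normal] (h : el w ∈ N)
    (q : ℕ) : el (ivs w q) ∈ N := by
  have h1 := N.inv_mem (el_shf w N h (q + 1))
  have h2 : (el (shf w (q + 1)))⁻¹ = el (ivs w q) := by
    unfold el
    rw [FreeGroup.inv_mk]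
    congr 1
    unfold FreeGroup.invRev
    apply List.ext_getElem
    · simp
    · intro i h3 h4
      have hi : i < l := by simpa using h4
      rw [List.getElem_reverse, List.getElem_map, List.getElem_ofFn, List.getElem_ofFn]
      simp only [List.length_map, List.length_ofFn]
      change linv (per w (q + 1 + (l - 1 - i))) = linv (per w (q + (l - i)))
      have h5 : q + 1 + (l - 1 - i) = q + (l - i) := by omega
      rw [h5]
  rw [← h2]
  exact h1


theorem ofFn_eq_range (w : Word m l) : List.ofFn w = (List.range l).map fun i : ℕ => per w i := by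
  apply List.ext_getElem
  · simp
  · intro i h1 h2
    rw [List.getElem_ofFn, List.getElem_map, List.getElem_range]
    have hi : i < l := by simpa using h1
    exact (per_val w ⟨i, hi⟩).symm

theorem range_add_map (w : Word m l) :
    (List.range (l + l)).map (fun i : ℕ => per w i) = List.ofFn w ++ List.ofFn w := by
  rw [List.range_add, List.map_append, ← ofFn_eq_range]
  congr 1
  rw [ofFn_eq_range, List.map_map]
  apply List.map_congr_left
  intro i _
  exact per_congr w (by simp)

theorem red_range (w : Word m l) (h : CycRed w) (k : ℕ) :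
    FreeGroup.IsReduced ((List.range k).map fun i : ℕ => per w i) := by
  unfold FreeGroup.IsReduced
  rw [List.isChain_iff_getElem]
  intro i hi
  simp only [List.length_map, List.length_range] at hi
  simp only [List.getElem_map, List.getElem_range]
  intro h1
  by_contra h2
  apply per_succ_ne w h i
  apply Prod.ext
  · exact h1.symm
  · show _ = !(per w i).2
    cases h4 : (per w i).2 <;> cases h5 : (per w (i + 1)).2 <;> simp_all

theorem red_two (w : Word m l) (h : CycRed w) :
    FreeGroup.IsReduced (List.ofFn w ++ List.ofFn w) := by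
  rw [← range_add_map]
  exact red_range w h _

theorem red_mid {A L B M : List (Ltr m)} (h : FreeGroup.IsReduced M) (h1 : A ++ L ++ B = M) :
    FreeGroup.IsReduced L := by
  subst h1
  unfold FreeGroup.IsReduced at h ⊢
  exact (List.isChain_append.mp (List.isChain_append.mp h).1).2.1

theorem toWord_of_red {L : List (Ltr m)} (h : FreeGroup.IsReduced L) :
    (FreeGroup.mk L).toWord = L := by
  rw [FreeGroup.toWord_mk]
  exact h.reduce_eq

/-- the heart of the module -/
theorem core {n : ℕ} (r : Fin n → Word m l) (e : ℕ) (he : 4 * e + 4 ≤ l)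
    (hg : ∀ g ∈ Subgroup.normalClosure (rels r), g ≠ 1 →
      ∃ a p b : List (Ltr m), g.toWord = a ++ p ++ b ∧ l ≤ p.length + e)
    (v : Word m l) (hv : CycRed v) (hvN : el v ∈ Subgroup.normalClosure (rels r))
    {k : ℕ} [NeZero k] (w : Word m k) (hk : k ≤ l) (hw : CycRed w)
    (hwN : el w ∈ Subgroup.normalClosure (rels r)) (a p b : List (Ltr m))
    (h1 : List.ofFn w = a ++ p ++ b) (h2 : l ≤ p.length + e)
    (h3 : ∀ (t : ℕ) (h : t < p.length), p[t] = per v t) :
    k = l ∧ ∀ t, t < l → per w (a.length + t) = per v t := by
  have hlen : k = a.length + p.length + b.length := by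
    have := congrArg List.length h1
    simp only [List.length_ofFn, List.length_append] at this
    exact this
  have hpl : p.length ≤ l := by omega
  have hp : p = (List.ofFn v).take p.length := by
    apply List.ext_getElem
    · simp [hpl]
    · intro i h4 h5
      rw [h3 i h4, List.getElem_take, List.getElem_ofFn]
      exact per_val v ⟨i, by omega⟩
  obtain ⟨s, hs⟩ : ∃ s, s = (List.ofFn v).drop p.length := ⟨_, rfl⟩
  have hV : List.ofFn v = p ++ s := by
    rw [hs]
    conv_lhs => rw [← List.take_append_drop p.length (List.ofFn v)]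
    rw [← hp]
  have hsl : s.length = l - p.length := by
    rw [hs]
    simp
  have hN : (FreeGroup.mk s)⁻¹ * (FreeGroup.mk b * FreeGroup.mk a) ∈
      Subgroup.normalClosure (rels r) := by
    have h4 : FreeGroup.mk a * FreeGroup.mk p * FreeGroup.mk b ∈
        Subgroup.normalClosure (rels r) := by
      rw [FreeGroup.mul_mk, FreeGroup.mul_mk, ← h1]
      exact hwN
    have h5 : FreeGroup.mk p * FreeGroup.mk s ∈ Subgroup.normalClosure (rels r) := by
      rw [FreeGroup.mul_mk, ← hV]
      exact hvN
    have h6 : (FreeGroup.mk a)⁻¹ * (FreeGroup.mk a * FreeGroup.mk p * FreeGroup.mk b) *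
        (FreeGroup.mk a)⁻¹⁻¹ ∈ Subgroup.normalClosure (rels r) :=
      Subgroup.Normal.conj_mem inferInstance _ h4 _
    have h7 := Subgroup.mul_mem _ (Subgroup.inv_mem _ h5) h6
    have h8 : (FreeGroup.mk p * FreeGroup.mk s)⁻¹ *
        ((FreeGroup.mk a)⁻¹ * (FreeGroup.mk a * FreeGroup.mk p * FreeGroup.mk b) *
        (FreeGroup.mk a)⁻¹⁻¹) = (FreeGroup.mk s)⁻¹ * (FreeGroup.mk b * FreeGroup.mk a) := by
      group
    rwa [h8] at h7
  have hone : (FreeGroup.mk s)⁻¹ * (FreeGroup.mk b * FreeGroup.mk a) = 1 := by
    by_contra hne
    obtain ⟨a', p', b', h4, h5⟩ := hg _ hN hne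
    have h6 : ((FreeGroup.mk s)⁻¹ * (FreeGroup.mk b * FreeGroup.mk a)).norm ≤
        s.length + (b.length + a.length) := by
      refine (FreeGroup.norm_mul_le _ _).trans ?_
      have h7 : ((FreeGroup.mk s)⁻¹).norm ≤ s.length := by
        rw [FreeGroup.norm_inv_eq]
        exact FreeGroup.norm_mk_le
      have h8 : (FreeGroup.mk b * FreeGroup.mk a).norm ≤ b.length + a.length := by
        refine (FreeGroup.norm_mul_le _ _).trans ?_
        exact Nat.add_le_add FreeGroup.norm_mk_le FreeGroup.norm_mk_le
      omega
    have h7 : ((FreeGroup.mk s)⁻¹ * (FreeGroup.mk b * FreeGroup.mk a)).norm =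
        a'.length + p'.length + b'.length := by
      unfold FreeGroup.norm
      rw [h4]
      simp only [List.length_append]
    omega
  have hsb : s = b ++ a := by
    have h4 : FreeGroup.mk s = FreeGroup.mk (b ++ a) := by
      rw [← FreeGroup.mul_mk]
      exact (inv_mul_eq_one.mp hone)
    have h5 : FreeGroup.IsReduced s := by
      apply red_mid (A := p) (B := p ++ s) (red_two v hv)
      rw [hV]
    have h6 : FreeGroup.IsReduced (b ++ a) := by
      apply red_mid (A := a ++ p) (B := p ++ b) (red_two w hw)
      rw [h1]
      simp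
    rw [← toWord_of_red h5, ← toWord_of_red h6, h4]
  have hkl : k = l := by
    have := congrArg List.length hsb
    rw [hsl, List.length_append] at this
    omega
  refine ⟨hkl, ?_⟩
  subst hkl
  intro t ht
  have hq : ∀ (u : Word m k) (i : ℕ), i < k → (List.ofFn u)[i]? = some (per u i) := by
    intro u i hi
    rw [List.getElem?_eq_getElem (by simpa using hi), List.getElem_ofFn]
    exact congrArg some (per_val u ⟨i, hi⟩).symm
  have hVt := hq v t ht
  rw [hV, hsb] at hVt
  have e1 : a ++ p ++ b = a ++ (p ++ b) := by simp
  have e2 : p ++ (b ++ a) = (p ++ b) ++ a := by simp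
  rw [e2] at hVt
  by_cases h4 : a.length + t < k
  · have hWt := hq w _ h4
    rw [h1, e1, List.getElem?_append_right (by omega)] at hWt
    rw [List.getElem?_append_left (by simp only [List.length_append]; omega)] at hVt
    have e3 : a.length + t - a.length = t := by omega
    rw [e3, hVt] at hWt
    exact (Option.some.inj hWt).symm
  · have h5 : per w (a.length + t) = per w (a.length + t - k) := by
      apply per_congr
      have : a.length + t = (a.length + t - k) + k := by omega
      conv_lhs => rw [this]
      simp
    have h6 : a.length + t - k < k := by omega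
    have hWt := hq w _ h6
    rw [h1, e1, List.getElem?_append_left (by omega)] at hWt
    rw [List.getElem?_append_right (by simp only [List.length_append]; omega)] at hVt
    have e3 : t - (p ++ b).length = a.length + t - k := by
      simp only [List.length_append]
      omega
    rw [e3, hWt] at hVt
    rw [h5]
    exact Option.some.inj hVt

end SHORT

open SHORT in
theorem t_SHORT : M_SHORT := by
  intro hG
  obtain ⟨C0, hC0, hG⟩ := hG
  refine ⟨4 * C0 + 4, by omega, ?_⟩
  intro m l n P _ r hr hSC hP hl
  have hl2 : 4 * (C0 * (P + 1)) + 4 ≤ l := by nlinarith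
  have hl3 : P ≤ l := by nlinarith
  have hl4 : C0 * (P + 1) ≤ l := by omega
  have hG1 := hG m l n P r hr hSC hP hl4
  refine ⟨?_, ?_, ?_⟩
  · intro k _ w hk hw hwN
    have hred : FreeGroup.IsReduced (List.ofFn w) := by
      exact red_mid (A := []) (B := List.ofFn w) (red_two w hw) (by simp)
    have htw : (el w).toWord = List.ofFn w := toWord_of_red hred
    have hne : el w ≠ 1 := by
      intro h
      rw [h, FreeGroup.toWord_one] at htw
      have := congrArg List.length htw
      simp only [List.length_nil, List.length_ofFn] at this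
      have := NeZero.pos k
      omega
    obtain ⟨a, p, b, h1, h2, j, q, h3⟩ := hG1 _ hwN hne
    rw [htw] at h1
    have hgen : ∀ g ∈ Subgroup.normalClosure (rels r), g ≠ 1 →
        ∃ a p b : List (Ltr m), g.toWord = a ++ p ++ b ∧ l ≤ p.length + C0 * (P + 1) := by
      intro g hg hg1
      obtain ⟨a, p, b, h4, h5, _⟩ := hG1 g hg hg1
      exact ⟨a, p, b, h4, h5⟩
    have hjN : el (r j) ∈ Subgroup.normalClosure (rels r) :=
      Subgroup.subset_normalClosure ⟨j, rfl⟩
    have hal : a.length ≤ k := by
      have := congrArg List.length h1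
      simp only [List.length_ofFn, List.length_append] at this
      omega
    rcases h3 with h3 | h3
    · have h4 : ∀ (t : ℕ) (h : t < p.length), p[t] = per (shf (r j) q) t := by
        intro t h
        rw [per_shf]
        exact h3 t h
      obtain ⟨h5, h6⟩ := core r _ hl2 hgen (shf (r j) q) (cyc_shf _ (hr j) q)
        (el_shf _ _ hjN q) w hk hw hwN a p b h1 h2 h4
      refine ⟨h5, j, q + (l - a.length), Or.inl ?_⟩
      subst h5
      intro t
      have hk0 := NeZero.pos k
      have h7 : per w t = per w (a.length + (t + (k - a.length)) % k) := by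
        apply per_congr
        rw [Nat.add_mod_mod]
        have : a.length + (t + (k - a.length)) = t + k := by omega
        rw [this]
        simp
      rw [h7, h6 _ (Nat.mod_lt _ hk0), per_mod, per_shf]
      congr 1
      omega
    · have hp1 : 1 ≤ p.length := by omega
      have h4 : ∀ (t : ℕ) (h : t < p.length),
          p[t] = per (ivs (r j) (q + p.length - 1)) t := by
        intro t h
        have hpl : p.length ≤ l := by
          have := congrArg List.length h1
          simp only [List.length_ofFn, List.length_append] at this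
          omega
        rw [per_ivs_lt _ _ _ (by omega), h3 t h]
        congr 1
        apply per_congr
        have : q + p.length - 1 + (l - t) = (q + (p.length - 1 - t)) + l := by omega
        rw [this]
        simp
      obtain ⟨h5, h6⟩ := core r _ hl2 hgen (ivs (r j) (q + p.length - 1))
        (cyc_ivs _ (hr j) _) (el_ivs _ _ hjN _) w hk hw hwN a p b h1 h2 h4
      refine ⟨h5, j, q + p.length - 1 + a.length, Or.inr ?_⟩
      subst h5
      intro t ht
      have hk0 := NeZero.pos k
      by_cases h8 : a.length ≤ t
      · have h9 := h6 (t - a.length) (by omega)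
        have e : a.length + (t - a.length) = t := by omega
        rw [e] at h9
        rw [h9, per_ivs_lt _ _ _ (by omega)]
        congr 2
        omega
      · have h9 := h6 (t + k - a.length) (by omega)
        have e : a.length + (t + k - a.length) = t + k := by omega
        rw [e] at h9
        have h10 : per w (t + k) = per w t := per_congr w (by simp)
        rw [h10] at h9
        rw [h9, per_ivs_lt _ _ _ (by omega)]
        congr 1
        apply per_congr
        have : q + p.length - 1 + a.length + (k - t) =
            (q + p.length - 1 + (k - (t + k - a.length))) + k := by omega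
        rw [this]
        simp
  · intro i j p q h
    exact hSC.fwd i j p q fun t _ => h t
  · intro i j p q
    obtain ⟨t, ht, h⟩ := hSC.bwd i j p (q + (l - (P - 1)))
    refine ⟨t, by omega, ?_⟩
    have : q + (l - (P - 1)) + (P - 1 - t) = q + (l - t) := by omega
    rwa [this] at h

end RGD
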