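import Pool.Agent.RGD.Stmts

/-!
# UV: two words with different sums
-/

namespace RGD

namespace UV

theorem linv_linv {m : ℕ} (a : Ltr m) : linv (linv a) = a := by
  obtain ⟨i, b⟩ := a
  simp [linv]

theorem linv_ne {m : ℕ} (a : Ltr m) : linv a ≠ a := by
  obtain ⟨i, b⟩ := a
  intro h
  have := congrArg Prod.snd h
  simp [linv] at this

theorem ne_linv {m : ℕ} (a : Ltr m) : a ≠ linv a := (linv_ne a).symm

theorem linv_inj {m : ℕ} {a b : Ltr m} (h : linv a = linv b) : a = b := by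
  rw [← linv_linv a, h, linv_linv]

theorem exists_ne {m : ℕ} (hm : 2 ≤ m) (a b : Ltr m) : ∃ p : Ltr m, p ≠ a ∧ p ≠ b := by
  by_cases h : linv a = b
  · obtain ⟨i, hi⟩ : ∃ i : Fin m, i ≠ a.1 := by
      by_cases h0 : a.1 = ⟨0, by omega⟩
      · refine ⟨⟨1, by omega⟩, ?_⟩
        rw [h0]
        intro e
        have := congrArg Fin.val e
        simp at this
      · exact ⟨⟨0, by omega⟩, fun e => h0 e.symm⟩
    refine ⟨(i, true), ?_, ?_⟩
    · intro e
      exact hi (congrArg Prod.fst e)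
    · intro e
      rw [← h] at e
      exact hi (congrArg Prod.fst e)
  · exact ⟨linv a, linv_ne a, h⟩

theorem hh_ge {m : ℕ} {x y y' : Ltr m} (h2 : y' ≠ x) (a b : Ltr m) : -1 ≤ hh x y y' a b := by
  unfold hh
  by_cases h : a = linv y' ∧ b = x
  · have h' : ¬ (a = linv x ∧ b = y') := fun e => h2 (e.2 ▸ h.2)
    rw [if_pos h, if_neg h']
    split_ifs <;> norm_num
  · rw [if_neg h]
    split_ifs <;> norm_num

theorem hh_le {m : ℕ} {x y y' : Ltr m} (h1 : y ≠ x) (a b : Ltr m) : hh x y y' a b ≤ 1 := by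
  unfold hh
  by_cases h : a = linv y ∧ b = x
  · have h' : ¬ (a = linv x ∧ b = y) := fun e => h1 (e.2 ▸ h.2)
    rw [if_pos h, if_neg h']
    split_ifs <;> norm_num
  · rw [if_neg h]
    split_ifs <;> norm_num

theorem hh_one {m : ℕ} {x y y' : Ltr m} (h1 : y ≠ x) (h3 : y ≠ y') :
    hh x y y' (linv y) x = 1 := by
  unfold hh
  have e1 : ¬ (linv y = linv x ∧ x = y) := fun e => h1 e.2.symm
  have e2 : ¬ (linv y = linv y' ∧ x = x) := fun e => h3 (linv_inj e.1)
  have e3 : ¬ (linv y = linv x ∧ x = y') := fun e => h1 (linv_inj e.1)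
  rw [if_pos ⟨rfl, rfl⟩, if_neg e1, if_neg e2, if_neg e3]
  norm_num

theorem hh_nonneg {m : ℕ} {x y y' : Ltr m} (h3 : y ≠ y') :
    0 ≤ hh x y y' x (linv y) := by
  unfold hh
  have e2 : ¬ (x = linv y' ∧ linv y = x) := fun e => h3 (linv_inj (e.2.trans e.1))
  have e3 : ¬ (x = linv x ∧ linv y = y') := fun e => ne_linv x e.1
  rw [if_neg e2, if_neg e3]
  split_ifs <;> norm_num

theorem hh_nonpos {m : ℕ} {x y y' : Ltr m} (h2 : y' ≠ x) (h3 : y ≠ y') :
    hh x y y' y' y' ≤ 0 := by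
  unfold hh
  have e1 : ¬ (y' = linv y ∧ y' = x) := fun e => h2 e.2
  have e2 : ¬ (y' = linv x ∧ y' = y) := fun e => h3 e.2.symm
  rw [if_neg e1, if_neg e2]
  split_ifs <;> norm_num

end UV

theorem t_UV : S_UV := by
  intro m x y y' hm h1 h2 h3
  obtain ⟨p, hp1, hp2⟩ := UV.exists_ne hm y (linv y')
  obtain ⟨q, hq1, hq2⟩ := UV.exists_ne hm (linv x) (linv y')
  have a1 : linv y ≠ linv p := fun e => hp1 (UV.linv_inj e).symm
  have a2 : x ≠ linv (linv y) := by
    rw [UV.linv_linv]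
    exact h1.symm
  have a3 : linv y ≠ linv x := fun e => h1 (UV.linv_inj e)
  have a4 : y' ≠ linv p := by
    intro e
    apply hp2
    rw [e, UV.linv_linv]
  have a5 : y' ≠ linv y' := UV.ne_linv y'
  refine ⟨p, q, [linv y, x, linv y, x, linv y, x, linv y, x, linv y, x],
    [y', y', y', y', y', y', y', y', y', y'], rfl, ?_, ?_, ?_⟩
  · simp only [RedL, List.cons_append, List.nil_append, List.isChain_cons_cons,
      List.isChain_singleton, and_true]
    exact ⟨a1, a2, a3, a2, a3, a2, a3, a2, a3, a2, hq1⟩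
  · simp only [RedL, List.cons_append, List.nil_append, List.isChain_cons_cons,
      List.isChain_singleton, and_true]
    exact ⟨a4, a5, a5, a5, a5, a5, a5, a5, a5, a5, hq2⟩
  · have b1 := UV.hh_ge (y := y) h2 p (linv y)
    have b2 := UV.hh_one h1 h3
    have b3 := UV.hh_nonneg (x := x) h3
    have b4 := UV.hh_ge (y := y) h2 x q
    have b5 := UV.hh_le (y' := y') h1 p y'
    have b6 := UV.hh_nonpos h2 h3
    have b7 := UV.hh_le (y' := y') h1 y' q
    simp only [List.cons_append, List.nil_append, hsum, b2]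
    omega

end RGD
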