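import Pool.Agent.RGD.Stmts

/-!
# RGD, module WALK: closed walks of length `l` are relator cycles

`t_WALK : M_WALK`.
-/

set_option autoImplicit false

namespace RGD

namespace WALK

variable {m k : ℕ}

/-- the image in the presented group of the first `i` letters of `w` -/
def pre (R : Set (FreeGroup (Fin m))) (w : Word m (k + 1)) (i : ℕ) : PresentedGroup R :=
  PresentedGroup.mk R (FreeGroup.mk ((List.ofFn w).take i))

theorem pre_zero (R : Set (FreeGroup (Fin m))) (w : Word m (k + 1)) : pre R w 0 = 1 := by
  unfold pre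
  rw [List.take_zero, ← FreeGroup.one_eq_mk, map_one]

theorem pre_succ (R : Set (FreeGroup (Fin m))) (w : Word m (k + 1)) (i : ℕ) (h : i < k + 1) :
    pre R w (i + 1) = pre R w i * gl R (w ⟨i, h⟩) := by
  have h1 : i < (List.ofFn w).length := by rw [List.length_ofFn]; exact h
  unfold pre gl
  rw [← map_mul, FreeGroup.mul_mk, List.take_succ_eq_append_getElem h1, List.getElem_ofFn]

theorem pre_full (R : Set (FreeGroup (Fin m))) (w : Word m (k + 1)) :
    pre R w (k + 1) = PresentedGroup.mk R (el w) := by
  unfold pre el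
  rw [List.take_of_length_le (by rw [List.length_ofFn])]

theorem rot_val (i : Fin (k + 1)) (h : i.val < k) :
    finRotate (k + 1) i = ⟨i.val + 1, by omega⟩ := by
  obtain ⟨i, hi⟩ := i
  exact finRotate_of_lt h

theorem rot_last : finRotate (k + 1) (Fin.last k) = 0 := finRotate_last

theorem rot_symm_zero : (finRotate (k + 1)).symm 0 = Fin.last k := by
  rw [Equiv.symm_apply_eq]
  exact rot_last.symm

/-- the vertex sequence of a word whose product is trivial -/
theorem step (R : Set (FreeGroup (Fin m))) (v : PresentedGroup R) (w : Word m (k + 1))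
    (hw : PresentedGroup.mk R (el w) = 1) (i : Fin (k + 1)) :
    v * pre R w (finRotate (k + 1) i).val = v * pre R w i.val * gl R (w i) := by
  rcases Nat.lt_or_ge i.val k with h | h
  · rw [rot_val i h]
    show v * pre R w (i.val + 1) = _
    rw [pre_succ R w i.val i.isLt, mul_assoc]
  · have hi : i = Fin.last k := by
      apply Fin.ext
      have := i.isLt
      simp only [Fin.val_last]
      omega
    rw [hi, rot_last]
    show v * pre R w 0 = v * pre R w k * gl R (w (Fin.last k))
    have h1 := pre_succ R w k (by omega)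
    rw [pre_full, hw] at h1
    rw [mul_assoc]
    have h2 : pre R w k * gl R (w (Fin.last k)) = 1 := h1.symm
    rw [h2, pre_zero]

theorem main {n : ℕ} (r : Fin n → Word m (k + 1))
    (h1 : ∀ x y : Ltr m, gl (rels r) x = gl (rels r) y → x = y)
    (h2 : ∀ x : Ltr m, gl (rels r) x * gl (rels r) (linv x) = 1)
    (h3 : ∀ g h, (Cay (rels r)).Adj g h ↔ ∃ x : Ltr m, h = g * gl (rels r) x)
    (v : PresentedGroup (rels r)) (x y : Ltr m) :
    Nat.card (CW (Cay (rels r)) (k + 1) v (v * gl (rels r) x) (v * gl (rels r) y)) =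
      Nat.card {w : Word m (k + 1) // CycRed w ∧ el w ∈ Subgroup.normalClosure (rels r) ∧
        w 0 = x ∧ w ((finRotate (k + 1)).symm 0) = linv y} := by
  symm
  have hinv : ∀ a b : Ltr m, gl (rels r) a * gl (rels r) b = 1 → b = linv a := by
    intro a b hab
    apply h1
    rw [← mul_left_cancel_iff (a := gl (rels r) a), hab, h2]
  have hel : ∀ w : Word m (k + 1), el w ∈ Subgroup.normalClosure (rels r) ↔
      PresentedGroup.mk (rels r) (el w) = 1 := fun w => PresentedGroup.mk_eq_one_iff.symm
  have h0 : ((0 : Fin (k + 1)) : ℕ) = 0 := rfl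
  have hmem : ∀ w : Word m (k + 1), (CycRed w ∧ el w ∈ Subgroup.normalClosure (rels r) ∧
      w 0 = x ∧ w ((finRotate (k + 1)).symm 0) = linv y) →
      (fun i : Fin (k + 1) => v * pre (rels r) w i.val) ∈
        CW (Cay (rels r)) (k + 1) v (v * gl (rels r) x) (v * gl (rels r) y) := by
    rintro w ⟨hc, he, hx, hy⟩
    rw [hel] at he
    have hst := step (rels r) v w he
    refine ⟨?_, ?_, ?_, ?_, ?_⟩
    · show v * pre (rels r) w 0 = v
      rw [pre_zero, mul_one]
    · show v * pre (rels r) w (finRotate (k + 1) 0).val = v * gl (rels r) x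
      rw [hst 0, h0, pre_zero, mul_one, hx]
    · show v * pre (rels r) w ((finRotate (k + 1)).symm 0).val = v * gl (rels r) y
      have e1 := hst ((finRotate (k + 1)).symm 0)
      rw [Equiv.apply_symm_apply, h0, pre_zero, mul_one, hy] at e1
      have e2 : v * pre (rels r) w ((finRotate (k + 1)).symm 0).val =
          v * (gl (rels r) (linv y))⁻¹ := by
        conv_rhs => rw [e1]
        rw [mul_inv_cancel_right]
      rw [e2, eq_comm, mul_left_cancel_iff]
      exact eq_inv_of_mul_eq_one_left (h2 y)
    · intro i
      rw [h3]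
      exact ⟨w i, hst i⟩
    · intro i
      show v * pre (rels r) w (finRotate (k + 1) (finRotate (k + 1) i)).val ≠
        v * pre (rels r) w i.val
      intro hcon
      rw [hst (finRotate (k + 1) i), hst i, mul_assoc] at hcon
      exact hc i (hinv _ _ (mul_eq_left.1 hcon))
  refine Nat.card_eq_of_bijective (fun w => ⟨_, hmem w.1 w.2⟩) ⟨?_, ?_⟩
  · rintro ⟨w, hw⟩ ⟨w', hw'⟩ e
    apply Subtype.ext
    have e1 : (fun i : Fin (k + 1) => v * pre (rels r) w i.val) =
        fun i : Fin (k + 1) => v * pre (rels r) w' i.val := congrArg Subtype.val e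
    have hst := step (rels r) v w ((hel w).1 hw.2.1)
    have hst' := step (rels r) v w' ((hel w').1 hw'.2.1)
    funext i
    apply h1
    have e2 : v * pre (rels r) w (finRotate (k + 1) i).val =
        v * pre (rels r) w' (finRotate (k + 1) i).val := congrFun e1 (finRotate (k + 1) i)
    have e3 : v * pre (rels r) w i.val = v * pre (rels r) w' i.val := congrFun e1 i
    rw [hst, hst', e3] at e2
    exact mul_left_cancel e2
  · rintro ⟨f, hf0, hfp, hfq, hadj, hnb⟩
    have hw : ∀ i, ∃ a : Ltr m, f (finRotate (k + 1) i) = f i * gl (rels r) a := fun i =>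
      (h3 _ _).1 (hadj i)
    choose w hw using hw
    have hf0' : f 0 = v := hf0
    have hpre : ∀ i : ℕ, ∀ h : i < k + 1, v * pre (rels r) w i = f ⟨i, h⟩ := by
      intro i
      induction i with
      | zero =>
        intro h
        rw [pre_zero, mul_one]
        exact hf0'.symm
      | succ i ih =>
        intro h
        rw [pre_succ (rels r) w i (by omega), ← mul_assoc, ih (by omega), ← hw]
        congr 1
        exact rot_val ⟨i, by omega⟩ (show i < k by omega)
    have hfull : PresentedGroup.mk (rels r) (el w) = 1 := by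
      rw [← pre_full, ← mul_left_cancel_iff (a := v), pre_succ (rels r) w k (by omega),
        ← mul_assoc, hpre k (by omega), ← hw, mul_one]
      have : finRotate (k + 1) (⟨k, by omega⟩ : Fin (k + 1)) = 0 := rot_last
      rw [this, hf0']
    refine ⟨⟨w, ?_, (hel w).2 hfull, ?_, ?_⟩, ?_⟩
    · intro i hcon
      apply hnb i
      rw [hw, hw, hcon, mul_assoc, h2, mul_one]
    · apply h1
      have e1 := hw 0
      have e2 : f (finRotate (k + 1) 0) = v * gl (rels r) x := hfp
      rw [e2, hf0'] at e1
      exact (mul_left_cancel e1).symm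
    · apply hinv
      have e1 := hw ((finRotate (k + 1)).symm 0)
      have e2 : f ((finRotate (k + 1)).symm 0) = v * gl (rels r) y := hfq
      rw [Equiv.apply_symm_apply, hf0', e2, mul_assoc] at e1
      exact mul_eq_left.1 e1.symm
    · apply Subtype.ext
      funext i
      exact hpre i.val i.isLt

end WALK

open WALK in
theorem t_WALK : M_WALK := by
  intro hGL m l n hl r hS h3 v x y
  obtain ⟨-, g2, g3, g4, -⟩ := hGL m l n r hS h3
  obtain ⟨k, rfl⟩ : ∃ k, l = k + 1 := ⟨l - 1, by omega⟩
  exact main r g2 g3 g4 v x y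

end RGD
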